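import Pool.Agent.H41.SS.Fin3
import Pool.Agent.H97.RL.All4
import Pool.Agent.H68.SSM.ASK
import Pool.Agent.H13.SSM.AVG
import Pool.Agent.H51.SSM.CHO
import Pool.Agent.H68.SSM.CLS
import Pool.Agent.H22.SSM.CNR
import Pool.Agent.H89.SSM.DAL
import Pool.Agent.H20.SSM.DEX
import Pool.Agent.H86.SSM.DGX
import Pool.Agent.H19.SSM.FGT
import Pool.Agent.H48.SSM.GOO
import Pool.Agent.H17.SSM.GSZ
import Pool.Agent.H35.SSM.HAL
import Pool.Agent.H42.SSM.TRN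
import Pool.Agent.H12.SSM.MES
import Pool.Agent.H42.SSM.NEX
import Pool.Agent.H96.SSM.NM1
import Pool.Agent.H99.SSM.NM2
import Pool.Agent.H6.SSM.NUP
import Pool.Agent.H63.SSM.PAL
import Pool.Agent.H48.SSM.PEX
import Pool.Agent.H19.SSM.PGX
import Pool.Agent.H63.SSM.RSR
import Pool.Agent.H17.SSM.RSZ
import Pool.Agent.H70.SSM.RUN
import Pool.Agent.H99.SSM.SAF
import Pool.Agent.H86.SSM.STP
import Pool.Agent.H35.SSM.TAS
import Pool.Agent.H90.SS.TCI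
import Pool.Agent.H44.SS.TRU
import Pool.Agent.H19.SSM.TSZ
import Pool.Agent.H22.SSM.WID

/-!
Resolution on random k-CNFs, the exact savings (MP_c62aed_lc): the theorem.
-/

set_option autoImplicit false

namespace Pool.Agent.H41.SS

theorem saf : T_SAF := Pool.Agent.H99.SSM.pf_SAF Pool.Agent.H35.SSM.pf_HAL

theorem cls' : T_CLS := Pool.Agent.H68.SSM.pf_CLS

theorem ask' : T_ASK := Pool.Agent.H68.SSM.pf_ASK Pool.Agent.H35.SSM.pf_HAL cls'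

theorem rsr : T_RSR := Pool.Agent.H63.SSM.pf_RSR saf cls'

theorem fgt' : T_FGT := Pool.Agent.H19.SSM.pf_FGT saf cls'

theorem stp : T_STP := Pool.Agent.H86.SSM.pf_STP ask'

theorem tci : T_TCI := Pool.Agent.H90.SS.pf_TCI Pool.Agent.H42.SSM.pf_TRN ask' rsr

theorem run' : T_RUN := Pool.Agent.H70.SSM.pf_RUN Pool.Agent.H42.SSM.pf_TRN stp fgt' rsr

theorem mainSS : MainSS :=
  pf_FIN
    (Pool.Agent.H19.SSM.pf_TSZ Pool.Agent.H14.RLM.pf_TRE Pool.Agent.H42.SSM.pf_INI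
      Pool.Agent.H48.SSM.pf_GOO tci)
    (Pool.Agent.H17.SSM.pf_RSZ Pool.Agent.H14.RLM.pf_TRE Pool.Agent.H42.SSM.pf_INI
      Pool.Agent.H48.SSM.pf_GOO run' Pool.Agent.H22.SSM.pf_CNR)
    (Pool.Agent.H22.SSM.pf_WID Pool.Agent.H42.SSM.pf_INI stp rsr)
    (Pool.Agent.H17.SSM.pf_GSZ (Pool.Agent.H35.SSM.pf_TAS Pool.Agent.H42.SSM.pf_INI ask')
      (Pool.Agent.H12.SSM.pf_MES Pool.Agent.H27.RKS.pf_TRS saf) Pool.Agent.H70.RKS.pf_CN2)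
    Pool.Agent.H44.SS.pf_TRU
    Pool.Agent.H13.SSM.pf_AVG
    (Pool.Agent.H42.SSM.pf_NEX Pool.Agent.H51.SSM.pf_CHO)
    (Pool.Agent.H96.SSM.pf_NM1 Pool.Agent.H51.SSM.pf_CHO)
    (Pool.Agent.H99.SSM.pf_NM2 Pool.Agent.H51.SSM.pf_CHO)
    Pool.Agent.H6.SSM.pf_NUP
    Pool.Agent.H19.SSM.pf_PGX
    Pool.Agent.H48.SSM.pf_PEX
    (Pool.Agent.H66.RKS.pf_PX2 Pool.Agent.H54.RKS.pf_PBN)
    Pool.Agent.H34.RKS.pf_PSA
    Pool.Agent.H63.SSM.pf_PAL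
    Pool.Agent.H86.SSM.pf_DGX
    Pool.Agent.H20.SSM.pf_DEX
    Pool.Agent.H89.SSM.pf_DAL

end Pool.Agent.H41.SS
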