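import Pool.Agent.H41.SS.Targets2
import Pool.Agent.H70.SSM.RUN

/-! (RU2) the path ends in a wide line. -/

set_option autoImplicit false

namespace Pool.Agent.H41.SS

open Finset Pool.Agent.H97.RK Pool.Agent.H97.RL
open Pool.Agent.H70.SSM (Inv stepX)
open Pool.Agent.H78.RLM (fls_congr)
open Pool.Agent.H97.RLM (vs_ext fls_ext)

/-- the potential -/
def pot {n : ℕ} (R : ℕ) (l : List (Fin n)) : ℕ := ∑ v, min (l.count v) R

theorem pot_le {n : ℕ} (R : ℕ) (l : List (Fin n)) : pot R l ≤ R * n := by
  unfold pot
  calc ∑ v, min (l.count v) R ≤ ∑ _v : Fin n, R := sum_le_sum fun v _ => min_le_right _ _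
    _ = R * n := by rw [sum_const, card_univ, Fintype.card_fin, smul_eq_mul, mul_comm]

/-- if the number of each variable in `B` grows, the potential grows -/
theorem pot_grow {n : ℕ} (R : ℕ) (l0 l1 : List (Fin n)) (B : Finset (Fin n))
    (hle : ∀ v, l0.count v ≤ l1.count v) (hlt : ∀ v ∈ B, l0.count v < l1.count v) :
    pot R l0 + B.card ≤ pot R l1 + (univ.filter fun v => R < l1.count v).card := by
  classical
  unfold pot
  rw [card_eq_sum_ones, card_eq_sum_ones, sum_filter]
  have h1 : ∑ _v ∈ B, 1 = ∑ v : Fin n, if v ∈ B then 1 else 0 := by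
    rw [← sum_filter]
    congr 1
    ext v
    simp
  rw [h1, ← sum_add_distrib, ← sum_add_distrib]
  refine sum_le_sum fun v _ => ?_
  have h2 := hle v
  by_cases hv : v ∈ B
  · rw [if_pos hv]
    have h3 := hlt v hv
    by_cases h4 : R < l1.count v
    · rw [if_pos h4]
      omega
    · rw [if_neg h4]
      omega
  · rw [if_neg hv]
    by_cases h4 : R < l1.count v
    · rw [if_pos h4]
      omega
    · rw [if_neg h4]
      omega

theorem pf_RU2 (hTRN : Pool.Agent.H41.SS.T_TRN) (hSTP : Pool.Agent.H41.SS.T_STP)
    (hFGT : Pool.Agent.H41.SS.T_FGT) (hRSR : Pool.Agent.H41.SS.T_RSR) :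
    Pool.Agent.H41.SS.T_RU2 := by
  intro n k m F D d w u h R G P hR1 hP1 hPG hw hG hun S r line rule href U V an ls hT hU hseg l x y
    W J hlS hlr hlU hst hfal hx hxy
  have hbase : an l = l ∧ ls l = [] :=
    hT.base l (hlU.elim (fun h => Or.inl (mem_union_left _ h)) Or.inr)
  have hlu : (vs (line l)).card ≤ u := by
    rcases hlU with h1 | h1
    · exact hU l h1
    · rw [h1, href.2.1]
      unfold vs
      rw [image_empty, card_empty]
      exact Nat.zero_le _
  have hDP : ∀ j, j ≤ P → 2 * D * j ≤ 2 * D * P := fun j hj => Nat.mul_le_mul_left _ hj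
  have hw8 : 8 * D ≤ w := by
    have := hDP 1 hP1
    omega
  -- the phases
  have key : ∀ i, i < S → i ≤ l → ∀ (j : ℕ) (l0 : List (Fin n)) (E0 : Finset (Fin n)) (b : ℕ)
      (q : Finset (Fin n)) (l1 : List (Fin n)) (y : Fin n → Bool) (A W : Finset (Fin n))
      (J : Finset (Fin m)), j ≤ P → b ≤ 2 * D * j →
      Inv F D b line rule U V an ls l x i q l1 y A W J →
      (∀ v, l0.count v ≤ l1.count v) → (∀ v ∈ A, v ∉ E0 → l0.count v < l1.count v) →
      (j = 0 → l0 = [] ∧ E0 = vs (line l)) →
      (1 ≤ j → E0.card + (h + G + 2 * (w + d) + u + 1) < n ∧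
        n + (j - 1) * (w + d + u + 1 + G) ≤ pot R l0 + (w + d + u)) →
      (∃ i, i < S ∧ ∃ y' : Fin n → Bool, Falsified (exC (line (an i)) (ls i)) y' ∧
        n ≤ (vs (exC (line (an i)) (ls i))).card + (h + G + 2 * (w + d) + u + 1) ∧
        dst y' x ≤ 2 * D * P) ∨
        ∃ l', l' < l ∧ l' ∈ U ∧ AtS F D line l' := by
    intro i
    induction i using Nat.strong_induction_on with
    | _ i ih =>
      intro hi hil j l0 E0 b q l1 y A W J hj hb hI hle hlt hj0 hj1
      have hbw : b + 6 * D ≤ w := by
        have := hDP j hj
        omega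
      by_cases hAc : A.card + 1 + w + d ≤ n
      · rcases stepX hSTP hRSR hw8 hG hun href hT hU hlr hx hbw hi hil hI hAc with h1 | h1
        · exact Or.inr h1
        · obtain ⟨i', q', l1', y', A', W', J', hi', hI', hcle, hclt⟩ := h1
          refine ih i' hi' (by omega) (by omega) j l0 E0 b q' l1' y' A' W' J' hj hb hI'
            (fun v => (hle v).trans (hcle v)) (fun v hv hvE => ?_) hj0 hj1
          by_cases hvA : v ∈ A
          · exact (hlt v hvA hvE).trans_le (hcle v)
          · exact (hle v).trans_lt (hclt v hv hvA)
      · -- the end of a phase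
        have hgr := pot_grow R l0 l1 (A \ E0) hle (fun v hv => hlt v (mem_sdiff.1 hv).1
          (mem_sdiff.1 hv).2)
        have hAE : A.card ≤ E0.card + (A \ E0).card := by
          have h1 := card_le_card (show A ⊆ E0 ∪ (A \ E0) by
            intro v hv
            by_cases hvE : v ∈ E0
            · exact mem_union_left _ hvE
            · exact mem_union_right _ (mem_sdiff.2 ⟨hv, hvE⟩))
          exact h1.trans (card_union_le _ _)
        have hh := hseg l i q l1 hlU.symm hI.seg
        have hpot : n + j * (w + d + u + 1 + G) ≤ pot R l1 + (w + d + u) := by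
          rcases Nat.eq_zero_or_pos j with h0 | h0
          · obtain ⟨h2, h3⟩ := hj0 h0
            rw [h2, h3] at hlt
            have h4 : (A \ vs (line l)).card ≤ pot R l1 := by
              unfold pot
              rw [card_eq_sum_ones]
              calc ∑ _v ∈ A \ vs (line l), 1 ≤ ∑ v ∈ A \ vs (line l), min (l1.count v) R := by
                    refine sum_le_sum fun v hv => ?_
                    have h5 := hlt v (mem_sdiff.1 hv).1 (mem_sdiff.1 hv).2
                    rw [List.count_nil] at h5
                    exact le_min h5 hR1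
                _ ≤ ∑ v, min (l1.count v) R :=
                    sum_le_sum_of_subset_of_nonneg (subset_univ _) fun v _ _ => Nat.zero_le _
            rw [h3] at hAE
            rw [h0]
            omega
          · obtain ⟨h2, h3⟩ := hj1 h0
            obtain ⟨j', rfl⟩ : ∃ j', j = j' + 1 := ⟨j - 1, by omega⟩
            rw [Nat.add_sub_cancel] at h3
            rw [add_mul, one_mul]
            omega
        have hW : W.card ≤ 2 * D * j + 2 * D := by
          have h1 := hI.st.crd
          have h2 := hI.st.lt
          omega
        rcases Nat.lt_or_ge j P with hjP | hjP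
        · have hj1' := hDP (j + 1) hjP
          rw [mul_add, mul_one] at hj1'
          by_cases hE : n ≤ (vs (exC (line (an i)) (ls i))).card +
              (h + G + 2 * (w + d) + u + 1)
          · left
            refine ⟨i, hi, y, hI.hfC, hE, ?_⟩
            have h1 : dst y x ≤ W.card := by
              unfold dst
              apply card_le_card
              intro v hv
              rw [mem_filter] at hv
              by_contra hvW
              exact hv.2 (hI.hyx v hvW)
            omega
          · have hWD : W.card + 6 * D ≤ w := by omega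
            obtain ⟨y1, W1, J1, -, hy1, hyx1, hst1⟩ := hFGT n k m F D d w b x y A
              (vs (exC (line (an i)) (ls i))) W J hx hI.st hI.hyx hI.hA hWD (by omega)
            have hI1 : Inv F D W.card line rule U V an ls l x i q l1 y1
                (vs (exC (line (an i)) (ls i))) W1 J1 :=
              ⟨hI.seg, hI.hq, hI.hvi, Subset.refl _,
                fls_congr hI.hfC fun u hu => hy1 u (mem_union_left _ hu), hst1, hyx1,
                fls_congr hI.fal fun u hu => hy1 u (mem_union_left _ (hI.hvi hu))⟩
            rcases stepX hSTP hRSR hw8 hG hun href hT hU hlr hx hWD hi hil hI1 (by omega) with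
              h1 | h1
            · exact Or.inr h1
            · obtain ⟨i', q', l1', y', A', W', J', hi', hI', hcle, hclt⟩ := h1
              refine ih i' hi' (by omega) (by omega) (j + 1) l1
                (vs (exC (line (an i)) (ls i))) W.card q' l1' y' A' W' J' hjP
                (by rw [mul_add, mul_one]; omega) hI' hcle (fun v hv hvE => hclt v hv hvE)
                (fun h => absurd h (by omega)) (fun _ => ⟨by omega, ?_⟩)
              rw [Nat.add_sub_cancel]
              exact hpot
        · -- too many phases
          exfalso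
          have hjP' : j = P := le_antisymm hj hjP
          have h1 := pot_le R l1
          have h2 : P * (w + d + u + 1 + G) = P * (w + d + u + 1) + P * G := by ring
          have h3 : w + d + u + 1 ≤ P * (w + d + u + 1) := Nat.le_mul_of_pos_left _ hP1
          have h4 : (R - 1) * n + n = R * n := by
            obtain ⟨R', rfl⟩ : ∃ R', R = R' + 1 := ⟨R - 1, by omega⟩
            rw [Nat.add_sub_cancel]
            ring
          rw [hjP', h2] at hpot
          omega
  -- the start
  have hys1 : ∀ v ∈ vs (line l) ∪ W, (fun v => if v ∈ vs (line l) ∪ W then y v else x v) v = y v :=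
    fun v hv => if_pos hv
  have hst1 := hTRN n k m F D 0 y (fun v => if v ∈ vs (line l) ∪ W then y v else x v)
    (vs (line l)) W J hst hys1
  have hfal1 : Falsified (line l) (fun v => if v ∈ vs (line l) ∪ W then y v else x v) :=
    fls_congr hfal fun u hu => hys1 u (mem_union_left _ hu)
  have hex : vs (exC (line (an l)) (ls l)) = vs (line l) := by
    rw [hbase.1, hbase.2, vs_ext]
    simp
  refine key l hlS le_rfl 0 [] (vs (line l)) 0 ∅ [] _ (vs (line l)) W J (Nat.zero_le _)
    (Nat.zero_le _) ⟨Seg3.refl, by rw [hbase.2]; rfl, ?_, ?_, ?_, hst1, ?_, hfal1⟩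
    (fun v => le_rfl) (fun v hv hv' => absurd hv hv') (fun _ => ⟨rfl, rfl⟩)
    (fun h => absurd h (by omega))
  · rw [hex]
  · rw [hex]
  · rw [hbase.1, hbase.2, fls_ext]
    exact ⟨hfal1, by simp⟩
  · intro v hv
    by_cases hvl : v ∈ vs (line l)
    · exact (hys1 v (mem_union_left _ hvl)).trans (hxy v (mem_sdiff.2 ⟨hvl, hv⟩)).symm
    · apply if_neg
      rw [mem_union]
      exact fun h => h.elim hvl hv

end Pool.Agent.H41.SS
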