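import Pool.Agent.H41.SS.Fin6
import Pool.Agent.H41.SS.All2
import Pool.Agent.H41.SS.RU2
import Pool.Agent.H41.SS.All
import Pool.Agent.H97.SM.LEMC
import Pool.Agent.H67.SSM.RZ2
import Pool.Agent.H67.SSM.NM4
import Pool.Agent.H41.SS.NM3

/-!
Resolution on random k-CNFs, the exact savings (MP_c62aed_lc): the theorem.
-/

set_option autoImplicit false

namespace Pool.Agent.H41.SS

theorem mainSV : MainSV :=
  pf_FIN3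
    (Pool.Agent.H19.SSM.pf_TSZ Pool.Agent.H14.RLM.pf_TRE Pool.Agent.H42.SSM.pf_INI
      Pool.Agent.H48.SSM.pf_GOO tci)
    (pf_RZ3 Pool.Agent.H14.RLM.pf_TRE Pool.Agent.H42.SSM.pf_INI Pool.Agent.H48.SSM.pf_GOO
      Pool.Agent.H42.SSM.pf_TRN ask' fgt' stp rsr)
    (Pool.Agent.H67.SSM.pf_RZ2 Pool.Agent.H14.RLM.pf_TRE Pool.Agent.H42.SSM.pf_INI
      Pool.Agent.H48.SSM.pf_GOO (pf_RU2 Pool.Agent.H42.SSM.pf_TRN stp fgt' rsr)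
      Pool.Agent.H22.SSM.pf_CNR)
    (Pool.Agent.H22.SSM.pf_WID Pool.Agent.H42.SSM.pf_INI stp rsr)
    (Pool.Agent.H17.SSM.pf_GSZ (Pool.Agent.H35.SSM.pf_TAS Pool.Agent.H42.SSM.pf_INI ask')
      (Pool.Agent.H12.SSM.pf_MES Pool.Agent.H27.RKS.pf_TRS saf) Pool.Agent.H70.RKS.pf_CN2)
    Pool.Agent.H44.SS.pf_TRU
    lem
    Pool.Agent.H13.SSM.pf_AVG
    (Pool.Agent.H42.SSM.pf_NEX Pool.Agent.H51.SSM.pf_CHO)
    (Pool.Agent.H41.SSN.pf_NM3 Pool.Agent.H51.SSM.pf_CHO)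
    (Pool.Agent.H67.SSM.pf_NM4 Pool.Agent.H51.SSM.pf_CHO)
    (Pool.Agent.H99.SSM.pf_NM2 Pool.Agent.H51.SSM.pf_CHO)
    Pool.Agent.H6.SSM.pf_NUP
    Pool.Agent.H19.SSM.pf_PGX
    Pool.Agent.H48.SSM.pf_PEX
    (Pool.Agent.H66.RKS.pf_PX2 Pool.Agent.H54.RKS.pf_PBN)
    Pool.Agent.H34.RKS.pf_PSA
    Pool.Agent.H63.SSM.pf_PAL
    Pool.Agent.H86.SSM.pf_DGX
    Pool.Agent.H20.SSM.pf_DEX
    Pool.Agent.H89.SSM.pf_DAL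

end Pool.Agent.H41.SS
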