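import Pool.Agent.H41.SS.Targets
import Pool.Agent.H41.SS.StmtS

/-!
Resolution on random k-CNFs, the exact savings (MP_c62aed_lc): from counting to the bounds.
-/

set_option autoImplicit false

namespace Pool.Agent.H41.SS

open Finset Pool.Agent.H97.RK Pool.Agent.H97.RL

section

variable {n k m : ℕ}

theorem one_le_S {F : Fml n k m} {S r : ℕ} {line : ℕ → Clause n} {rule : ℕ → Rule n}
    (href : IsRef F S r line rule) : (1 : ℝ) ≤ S := by
  have h := href.1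
  have : 1 ≤ S := by omega
  exact_mod_cast this

theorem vs_card_le (C : Clause n) : (vs C).card ≤ C.card := card_image_le

theorem rpow_le_one' (a : ℝ) (ha : a ≤ 0) : (2 : ℝ) ^ a ≤ 1 :=
  Real.rpow_le_one_of_one_le_of_nonpos (by norm_num) ha

/-- the field `tree` -/
theorem tree_of (hTSZ : T_TSZ) (F : Fml n k m) (a : ℝ) (D d w u : ℕ) (hD : 1 ≤ D)
    (hw : 8 * D ≤ w) (hn : u + w + d ≤ n) (hEx : Ex F D)
    (hu : ∀ a : ℕ, (a : ℝ) ≤ Real.log k / k * n → a ≤ u)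
    (hg : Nat.card {z // ¬ Gd F D d w z} * 2 ^ (u + 1) ≤ 2 ^ n)
    (ha : (2 : ℝ) ^ (w + d + 2 * D + u + 2) ≤ (2 : ℝ) ^ (a * n))
    (S r : ℕ) (line : ℕ → Clause n) (rule : ℕ → Rule n) (href : IsRef F S r line rule)
    (U : Finset ℕ) (hO : Once S rule U)
    (hU : ∀ l ∈ U, ((line l).card : ℝ) ≤ Real.log k / k * n) :
    (2 : ℝ) ^ ((1 - a) * n) ≤ S := by
  classical
  have hg' : (univ.filter fun z => ¬ Gd F D d w z).card * 2 ^ (u + 1) ≤ 2 ^ n := by
    rw [← Fintype.card_subtype, ← Nat.card_eq_fintype_card]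
    exact hg
  have h1 := hTSZ n k m F D d w u hD (by omega) hn hEx (by convert hg') S r line rule href U hO
    (fun l hl => (vs_card_le _).trans (hu _ (hU l hl)))
  have h2 : (2 : ℝ) ^ n ≤ S * (2 : ℝ) ^ (w + d + 2 * D + u + 2) := by exact_mod_cast h1
  have h3 : (2 : ℝ) ^ n ≤ S * (2 : ℝ) ^ (a * n) :=
    h2.trans (mul_le_mul_of_nonneg_left ha (Nat.cast_nonneg _))
  have h4 : (2 : ℝ) ^ ((1 - a) * n) * (2 : ℝ) ^ (a * n) = (2 : ℝ) ^ n := by
    rw [← Real.rpow_add (by norm_num), ← Real.rpow_natCast]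
    congr 1
    ring
  rw [← h4] at h3
  exact le_of_mul_le_mul_right h3 (by positivity)

/-- the field `reg` -/
theorem reg_of (hRSZ : T_RSZ) (F : Fml n k m) (a : ℝ) (D d w u : ℕ) (hD : 1 ≤ D)
    (hw : 8 * D ≤ w) (hn : u + w + d ≤ n) (hEx : Ex F D)
    (hu : ∀ a : ℕ, (a : ℝ) ≤ Real.log k / k * n → a ≤ u)
    (hg : Nat.card {z // ¬ Gd F D d w z} * 2 ^ (u + 1) ≤ 2 ^ n)
    (ha : (2 : ℝ) ^ (2 * (w + d) + 2 * u + 2) * bl n (4 * D) ≤ (2 : ℝ) ^ (a * n))
    (S r : ℕ) (line : ℕ → Clause n) (rule : ℕ → Rule n) (href : IsRef F S r line rule)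
    (U V : Finset ℕ) (hO : Once S rule (U ∪ V))
    (hU : ∀ l ∈ U, ((line l).card : ℝ) ≤ Real.log k / k * n) (ρ : ℝ)
    (hρ : ∀ (a i : ℕ) (q : Finset (Fin n)) (l : List (Fin n)), (a = r ∨ a ∈ U) →
      Seg3 rule U V a i q l → ((univ.filter fun v => 1 < l.count v).card : ℝ) ≤ ρ * n) :
    (2 : ℝ) ^ ((1 - ρ - a) * n) ≤ S := by
  classical
  have hρ0 : 0 ≤ ρ * n :=
    le_trans (Nat.cast_nonneg _) (hρ r r ∅ [] (Or.inl rfl) Seg3.refl)
  have hg' : (univ.filter fun z => ¬ Gd F D d w z).card * 2 ^ (u + 1) ≤ 2 ^ n := by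
    rw [← Fintype.card_subtype, ← Nat.card_eq_fintype_card]
    exact hg
  have h1 := hRSZ n k m F D d w u ⌊ρ * n⌋₊ hD hw hn hEx (by convert hg') S r line rule href U V hO
    (fun l hl => (vs_card_le _).trans (hu _ (hU l hl)))
    (fun a i q l h h' => Nat.le_floor (hρ a i q l h h'))
  have h2 : (2 : ℝ) ^ n ≤ S * ((2 : ℝ) ^ (⌊ρ * n⌋₊ + 2 * (w + d) + 2 * u + 2) *
      bl n (4 * D)) := by exact_mod_cast h1
  have h4 : (2 : ℝ) ^ (⌊ρ * n⌋₊) ≤ (2 : ℝ) ^ (ρ * n) := by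
    rw [← Real.rpow_natCast]
    exact Real.rpow_le_rpow_of_exponent_le (by norm_num) (Nat.floor_le hρ0)
  have h5 : (2 : ℝ) ^ n ≤ S * ((2 : ℝ) ^ (ρ * n) * (2 : ℝ) ^ (a * n)) := by
    refine h2.trans ?_
    have h6 : (2 : ℝ) ^ (⌊ρ * n⌋₊ + 2 * (w + d) + 2 * u + 2) * bl n (4 * D) =
        (2 : ℝ) ^ (⌊ρ * n⌋₊) * ((2 : ℝ) ^ (2 * (w + d) + 2 * u + 2) * bl n (4 * D)) := by
      rw [← mul_assoc, ← pow_add]
      congr 2
      ring
    rw [h6]
    refine mul_le_mul_of_nonneg_left ?_ (Nat.cast_nonneg _)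
    exact mul_le_mul h4 ha (by positivity) (by positivity)
  have h6 : (2 : ℝ) ^ ((1 - ρ - a) * n) * ((2 : ℝ) ^ (ρ * n) * (2 : ℝ) ^ (a * n)) =
      (2 : ℝ) ^ n := by
    rw [← Real.rpow_add (by norm_num), ← Real.rpow_add (by norm_num), ← Real.rpow_natCast]
    congr 1
    ring
  rw [← h6] at h5
  exact le_of_mul_le_mul_right h5 (by positivity)

/-- the field `width` -/
theorem width_of (hWID : T_WID) (F : Fml n k m) (a : ℝ) (D d w : ℕ) (hD : 1 ≤ D)
    (hw : 6 * D ≤ w) (hn : w + d + 1 ≤ n) (hEx : Ex F D) (hg : ∀ x, Gd F D d w x)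
    (ha : ((w : ℝ) + d) ≤ a * n)
    (S r : ℕ) (line : ℕ → Clause n) (rule : ℕ → Rule n) (href : IsRef F S r line rule) :
    ∃ i, i < S ∧ (1 - a) * n ≤ ((line i).card : ℝ) := by
  obtain ⟨i, hi, h⟩ := hWID n k m F D d w hD hw hn hEx hg S r line rule href
  refine ⟨i, hi, ?_⟩
  have h1 : n ≤ (line i).card + (w + d) := h.trans (Nat.add_le_add_right (vs_card_le _) _)
  have h2 : (n : ℝ) ≤ (line i).card + (w + d) := by exact_mod_cast h1
  nlinarith

/-- the field `general` -/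
theorem general_ofS (hGSZ : T_GSZ) (F : Fml n k m) (a : ℝ) (t d w : ℕ) (ht : 1 ≤ t)
    (hw : 12 * t ≤ w) (hEx : Ex F (2 * t)) (hg : ∀ x, Gd F t d w x)
    (hB : 2 * (bl n (d + 2 * t) : ℝ) * bl n (4 * t) ≤ (2 : ℝ) ^ (a * n))
    (hC : 2 * (2 ^ n * bl n (w + d)) ≤ 3 ^ n)
    (S r : ℕ) (line : ℕ → Clause n) (rule : ℕ → Rule n) (href : IsRef F S r line rule) :
    (3 / 2 : ℝ) ^ n * (2 : ℝ) ^ (-(a * n)) ≤ S := by
  have h1 := hGSZ n k m F t d w ht hw hEx hg S r line rule href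
  have h2 : 3 ^ n ≤ S * (2 ^ n * (2 * bl n (d + 2 * t) * bl n (4 * t))) := by
    have h3 : 2 * 3 ^ n ≤ 2 * (S * (2 ^ n * bl n (d + 2 * t) * bl n (4 * t))) + 3 ^ n := by
      calc 2 * 3 ^ n ≤
          2 * (S * (2 ^ n * bl n (d + 2 * t) * bl n (4 * t)) + 2 ^ n * bl n (w + d)) :=
            Nat.mul_le_mul_left 2 h1
        _ = 2 * (S * (2 ^ n * bl n (d + 2 * t) * bl n (4 * t))) + 2 * (2 ^ n * bl n (w + d)) := by
            ring
        _ ≤ _ := Nat.add_le_add_left hC _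
    have h4 : S * (2 ^ n * (2 * bl n (d + 2 * t) * bl n (4 * t))) =
        2 * (S * (2 ^ n * bl n (d + 2 * t) * bl n (4 * t))) := by ring
    rw [h4]
    omega
  have h3 : (3 : ℝ) ^ n ≤ S * ((2 : ℝ) ^ n * (2 * (bl n (d + 2 * t) : ℝ) * bl n (4 * t))) := by
    exact_mod_cast h2
  have h4 : (3 : ℝ) ^ n ≤ S * ((2 : ℝ) ^ n * (2 : ℝ) ^ (a * n)) :=
    h3.trans (mul_le_mul_of_nonneg_left (mul_le_mul_of_nonneg_left hB (by positivity))
      (Nat.cast_nonneg _))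
  have h5 : (3 / 2 : ℝ) ^ n * (2 : ℝ) ^ (-(a * n)) * ((2 : ℝ) ^ n * (2 : ℝ) ^ (a * n)) =
      (3 : ℝ) ^ n := by
    have h6 : (2 : ℝ) ^ (-(a * n)) * (2 : ℝ) ^ (a * n) = 1 := by
      rw [← Real.rpow_add (by norm_num), neg_add_cancel, Real.rpow_zero]
    have h7 : (3 / 2 : ℝ) ^ n * (2 : ℝ) ^ n = (3 : ℝ) ^ n := by
      rw [← mul_pow]
      norm_num
    calc _ = ((3 / 2 : ℝ) ^ n * (2 : ℝ) ^ n) * ((2 : ℝ) ^ (-(a * n)) * (2 : ℝ) ^ (a * n)) := by
          ring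
      _ = (3 : ℝ) ^ n := by rw [h6, h7, mul_one]
  rw [← h5] at h4
  exact le_of_mul_le_mul_right h4 (by positivity)

theorem lg_nonneg (hk : 1 ≤ k) : 0 ≤ lg n k m := by
  unfold lg
  refine Real.log_nonneg ?_
  have h1 : (1 : ℝ) ≤ k := by exact_mod_cast hk
  have h2 : (0 : ℝ) ≤ m / (2 ^ k * n) := by positivity
  nlinarith

theorem Gd_mono {F : Fml n k m} {D D' d w : ℕ} {x : Fin n → Bool} (h : D ≤ D')
    (hG : Gd F D d w x) : Gd F D' d w x := fun T W h1 h2 h3 => (hG T W h1 h2 h3).trans_le h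

theorem Ex_mono {F : Fml n k m} {D D' : ℕ} (h : D ≤ D') (hE : Ex F D') : Ex F D :=
  fun S hS => hE S (hS.trans h)

end

/-- the conditions on the numbers for the first two fields -/
def Pr1 (K n k m : ℕ) (F : Fml n k m) : Prop :=
  (K : ℝ) * lg n k m ≤ k → ∃ D d w u : ℕ, 1 ≤ D ∧ 8 * D ≤ w ∧ u + w + d ≤ n ∧ Ex F D ∧
    (∀ a : ℕ, (a : ℝ) ≤ Real.log k / k * n → a ≤ u) ∧
    Nat.card {z // ¬ Gd F D d w z} * 2 ^ (u + 1) ≤ 2 ^ n ∧
    (2 : ℝ) ^ (w + d + 2 * D + u + 2) ≤ (2 : ℝ) ^ (K * lg n k m / k * n) ∧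
    (2 : ℝ) ^ (2 * (w + d) + 2 * u + 2) * bl n (4 * D) ≤
      (2 : ℝ) ^ (K * (Real.log k ^ 2 + lg n k m) / k * n)

/-- the conditions on the numbers for the next two fields -/
def Pr2 (K n k m : ℕ) (F : Fml n k m) : Prop :=
  (K : ℝ) * (1 / Real.sqrt k + lg n k m / k) ≤ 1 → ∃ t d w : ℕ, 1 ≤ t ∧ 12 * t ≤ w ∧
    w + d + 1 ≤ n ∧ Ex F (2 * t) ∧ (∀ x, Gd F t d w x) ∧
    ((w : ℝ) + d) ≤ K * (1 / Real.sqrt k + lg n k m / k) * n ∧
    2 * (bl n (d + 2 * t) : ℝ) * bl n (4 * t) ≤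
      (2 : ℝ) ^ (K * Real.log k * (1 / Real.sqrt k + lg n k m / k) * n) ∧
    2 * (2 ^ n * bl n (w + d)) ≤ 3 ^ n

/-- everything which does not depend on chance -/
theorem HdS_of (hTSZ : T_TSZ) (hRSZ : T_RSZ) (hWID : T_WID) (hGSZ : T_GSZ) (hTRU : T_TRU)
    {n k m : ℕ} (F : Fml n k m) (K K₁ K₂ : ℕ) (h1 : K₁ ≤ K) (h2 : K₂ ≤ K) (hn : 1 ≤ n)
    (hk : 3 ≤ k) (hP1 : Pr1 K₁ n k m F) (hP2 : Pr2 K₂ n k m F)
    (hU : 2 ^ k * n ≤ m → m ≤ 4 ^ k * n → (∀ z, ∃ c, Falsified (cls F c) z) ∧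
      ((1 + 2 * ∑ i ∈ range n, (Alv F i).card : ℕ) : ℝ) ≤
        (2 : ℝ) ^ ((1 - lg n k m / (4 * k)) * n)) : HdS K F := by
  have hn0 : (0 : ℝ) < n := by exact_mod_cast hn
  have hk0 : (0 : ℝ) < k := by
    have : 0 < k := by omega
    exact_mod_cast this
  have hL : 0 ≤ lg n k m := lg_nonneg (by omega)
  have hK1 : (K₁ : ℝ) ≤ K := by exact_mod_cast h1
  have hK2 : (K₂ : ℝ) ≤ K := by exact_mod_cast h2
  have hlog : 1 ≤ Real.log k := by
    rw [Real.le_log_iff_exp_le hk0]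
    have h3 : (3 : ℝ) ≤ k := by exact_mod_cast hk
    linarith [Real.exp_one_lt_d9]
  have hs : 0 ≤ 1 / Real.sqrt k + lg n k m / k := by positivity
  refine ⟨?_, ?_, ?_, ?_, ?_⟩
  · intro S r line rule href U hO hUU
    by_cases hc : (K₁ : ℝ) * lg n k m ≤ k
    · obtain ⟨D, d, w, u, hD, hw, hnn, hEx, hu, hg, ha, -⟩ := hP1 hc
      have h3 := tree_of hTSZ F (K₁ * lg n k m / k) D d w u hD hw hnn hEx hu hg ha S r line rule
        href U hO hUU
      refine le_trans (Real.rpow_le_rpow_of_exponent_le (by norm_num) ?_) h3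
      refine mul_le_mul_of_nonneg_right ?_ hn0.le
      have : (K₁ : ℝ) * lg n k m / k ≤ K * lg n k m / k := by gcongr
      linarith
    · refine le_trans (rpow_le_one' _ ?_) (one_le_S href)
      push Not at hc
      have h4 : (k : ℝ) ≤ K * lg n k m := hc.le.trans (mul_le_mul_of_nonneg_right hK1 hL)
      have h5 : 1 ≤ (K : ℝ) * lg n k m / k := by rwa [le_div_iff₀ hk0, one_mul]
      exact mul_nonpos_of_nonpos_of_nonneg (by linarith) hn0.le
  · intro S r line rule href U V hO hUU ρ hρ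
    have hρ0 : 0 ≤ ρ * n :=
      le_trans (Nat.cast_nonneg _) (hρ r r ∅ [] (Or.inl rfl) Seg3.refl)
    have hρ1 : 0 ≤ ρ := by
      by_contra h
      push Not at h
      exact absurd hρ0 (not_le.2 (mul_neg_of_neg_of_pos h hn0))
    by_cases hc : (K₁ : ℝ) * lg n k m ≤ k
    · obtain ⟨D, d, w, u, hD, hw, hnn, hEx, hu, hg, -, ha⟩ := hP1 hc
      have h3 := reg_of hRSZ F (K₁ * (Real.log k ^ 2 + lg n k m) / k) D d w u hD hw hnn hEx hu hg
        ha S r line rule href U V hO hUU ρ hρ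
      refine le_trans (Real.rpow_le_rpow_of_exponent_le (by norm_num) ?_) h3
      refine mul_le_mul_of_nonneg_right ?_ hn0.le
      have : (K₁ : ℝ) * (Real.log k ^ 2 + lg n k m) / k ≤
          K * (Real.log k ^ 2 + lg n k m) / k := by gcongr
      linarith
    · refine le_trans (rpow_le_one' _ ?_) (one_le_S href)
      push Not at hc
      have h4 : (k : ℝ) ≤ K * (Real.log k ^ 2 + lg n k m) := by
        refine hc.le.trans ?_
        refine mul_le_mul hK1 ?_ hL (Nat.cast_nonneg _)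
        linarith [sq_nonneg (Real.log k)]
      have h5 : 1 ≤ (K : ℝ) * (Real.log k ^ 2 + lg n k m) / k := by
        rwa [le_div_iff₀ hk0, one_mul]
      exact mul_nonpos_of_nonpos_of_nonneg (by linarith) hn0.le
  · intro S r line rule href
    by_cases hc : (K₂ : ℝ) * (1 / Real.sqrt k + lg n k m / k) ≤ 1
    · obtain ⟨t, d, w, ht, hw, hnn, hEx, hg, ha, -, -⟩ := hP2 hc
      obtain ⟨i, hi, h⟩ := width_of hWID F (K₂ * (1 / Real.sqrt k + lg n k m / k)) (2 * t) d w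
        (by omega) (by omega) hnn hEx (fun x => Gd_mono (by omega) (hg x)) ha S r line rule href
      refine ⟨i, hi, le_trans (mul_le_mul_of_nonneg_right ?_ hn0.le) h⟩
      have := mul_le_mul_of_nonneg_right hK2 hs
      linarith
    · refine ⟨r, href.1, ?_⟩
      push Not at hc
      have := mul_le_mul_of_nonneg_right hK2 hs
      refine le_trans (mul_nonpos_of_nonpos_of_nonneg (by linarith) hn0.le) (Nat.cast_nonneg _)
  · intro S r line rule href
    by_cases hc : (K₂ : ℝ) * (1 / Real.sqrt k + lg n k m / k) ≤ 1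
    · obtain ⟨t, d, w, ht, hw, hnn, hEx, hg, -, hB, hC⟩ := hP2 hc
      have h3 := general_ofS hGSZ F (K₂ * Real.log k * (1 / Real.sqrt k + lg n k m / k)) t d w ht hw
        hEx hg hB hC S r line rule href
      refine le_trans (mul_le_mul_of_nonneg_left
        (Real.rpow_le_rpow_of_exponent_le (by norm_num) ?_) (by positivity)) h3
      have h4 : (K₂ : ℝ) * Real.log k * (1 / Real.sqrt k + lg n k m / k) * n ≤
          K * Real.log k * (1 / Real.sqrt k + lg n k m / k) * n := by gcongr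
      linarith
    · push Not at hc
      refine le_trans ?_ (one_le_S href)
      have h4 : 1 ≤ (K : ℝ) * Real.log k * (1 / Real.sqrt k + lg n k m / k) := by
        have h5 : (K₂ : ℝ) * (1 / Real.sqrt k + lg n k m / k) ≤
            K * Real.log k * (1 / Real.sqrt k + lg n k m / k) := by
          refine mul_le_mul_of_nonneg_right ?_ hs
          have : (0 : ℝ) ≤ K := Nat.cast_nonneg _
          nlinarith
        linarith
      have h6 : (2 : ℝ) ^ (-(K * Real.log k * (1 / Real.sqrt k + lg n k m / k) * n)) ≤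
          (2 : ℝ) ^ (-(n : ℝ)) := by
        refine Real.rpow_le_rpow_of_exponent_le (by norm_num) ?_
        have := mul_le_mul_of_nonneg_right h4 hn0.le
        linarith
      refine le_trans (mul_le_mul_of_nonneg_left h6 (by positivity)) ?_
      rw [Real.rpow_neg (by norm_num), Real.rpow_natCast, ← div_eq_mul_inv, ← div_pow]
      exact pow_le_one₀ (by norm_num) (by norm_num)
  · intro hm1 hm2
    obtain ⟨hun, hS⟩ := hU hm1 hm2
    obtain ⟨S, r, line, rule, href, hO, hN, hS2⟩ := hTRU n k m F hun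
    refine ⟨S, r, line, rule, href, hO, hN, le_trans ?_ hS⟩
    exact_mod_cast hS2

end Pool.Agent.H41.SS
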