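import Pool.Agent.H41.SS.Fin1

/-!
Resolution on random k-CNFs, the exact savings (MP_c62aed_lc): union bounds.
-/

set_option autoImplicit false

namespace Pool.Agent.H41.SS

open Finset Pool.Agent.H97.RK Pool.Agent.H97.RL

open Classical in
/-- the counting bounds for a set `Q` of formulas -/
structure Cnt {n k m : ℕ} (Q : Finset (Fml n k m)) : Prop where
  gx : ∀ D d w : ℕ, d + w ≤ n → ∀ x : Fin n → Bool,
    ((Q.filter fun F => ¬ Gd F D d w x).card : ℝ) ≤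
      (n.choose d : ℝ) * n.choose w * m.choose D *
        (((n : ℝ) - d + w) / (2 * n)) ^ (k * D) * Q.card
  ex : ∀ D : ℕ, 2 * D ≤ n → ((Q.filter fun F => ¬ Ex F D).card : ℝ) ≤
      (∑ s ∈ Icc 1 D, (n.choose (2 * s) : ℝ) * m.choose s * (2 * s / n : ℝ) ^ (k * s)) * Q.card
  gy : ∀ t d w : ℕ, w ≤ d → d ≤ n →
    ((Q.filter fun F => ¬ ∀ x, Gd F t d w x).card : ℝ) ≤
      6 ^ n * m.choose t * (((n : ℝ) - d + w) / (2 * n)) ^ (k * t) * Q.card
  sa : ((Q.filter fun F => ¬ ∀ z, ∃ c, Falsified (cls F c) z).card : ℝ) ≤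
      2 ^ n * (1 - (1 / 2 : ℝ) ^ k) ^ m * Q.card
  al : ∀ i : ℕ, k ≤ i → i ≤ n → ∑ F ∈ Q, ((Alv F i).card : ℝ) ≤
      2 ^ i * (1 - (((i : ℝ) - k) / (2 * (n - k))) ^ k) ^ m * Q.card

section

variable {n k m : ℕ}

theorem card_Alv_le (F : Fml n k m) (i : ℕ) (hi : i ≤ n) : (Alv F i).card ≤ 2 ^ i := by
  classical
  have h1 : Fintype.card (Fin i → Bool) = 2 ^ i := by
    rw [Fintype.card_fun, Fintype.card_bool, Fintype.card_fin]
  rw [← h1, ← card_univ]
  refine Finset.card_le_card_of_injOn (fun z j => z ⟨j.1, by omega⟩) (fun _ _ => mem_univ _) ?_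
  intro z hz z' hz' h
  have hz1 := (mem_filter.1 (mem_coe.1 hz)).2.1
  have hz2 := (mem_filter.1 (mem_coe.1 hz')).2.1
  funext v
  by_cases hv : i ≤ v.1
  · rw [hz1 v hv, hz2 v hv]
  · exact congrFun h ⟨v.1, by omega⟩

theorem m_le_of_lg (K : ℕ) (hK : 2 ≤ K) (hk : 1 ≤ k) (hn : 1 ≤ n)
    (h : (K : ℝ) * lg n k m ≤ k) : m ≤ 4 ^ k * n := by
  have hn0 : (0 : ℝ) < n := by exact_mod_cast hn
  have hk0 : (1 : ℝ) ≤ k := by exact_mod_cast hk
  have hK0 : (2 : ℝ) ≤ K := by exact_mod_cast hK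
  have hL := lg_nonneg (n := n) (k := k) (m := m) hk
  have h1 : lg n k m ≤ k / 2 := by nlinarith
  have hpos : (0 : ℝ) < k * (1 + m / (2 ^ k * n)) := by positivity
  have h2 : (k : ℝ) * (1 + m / (2 ^ k * n)) ≤ Real.exp (k / 2) := by
    rw [← Real.log_le_iff_le_exp hpos]
    exact h1
  have h3 : Real.exp ((k : ℝ) / 2) ≤ 2 ^ k := by
    have h4 : Real.exp ((k : ℝ) / 2) = Real.exp (1 / 2) ^ k := by
      rw [← Real.exp_nat_mul]
      congr 1
      ring
    rw [h4]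
    refine pow_le_pow_left₀ (Real.exp_pos _).le ?_ k
    have h5 : Real.exp (1 / 2) ^ 2 = Real.exp 1 := by
      rw [← Real.exp_nat_mul]
      norm_num
    nlinarith [Real.exp_one_lt_d9, Real.exp_pos (1 / 2 : ℝ)]
  have h6 : (m : ℝ) / (2 ^ k * n) ≤ 2 ^ k := by
    have h7 : (0 : ℝ) ≤ m / (2 ^ k * n) := by positivity
    nlinarith
  rw [div_le_iff₀ (by positivity)] at h6
  have h8 : (m : ℝ) ≤ 4 ^ k * n := by
    have h9 : (2 : ℝ) ^ k * (2 ^ k * n) = 4 ^ k * n := by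
      rw [← mul_assoc, ← mul_pow]
      norm_num
    linarith
  exact_mod_cast h8

theorem or_bound {α : Type} (Q : Finset α) (P P₁ P₂ : α → Prop)
    {_ : DecidablePred fun F => ¬ P F} {_ : DecidablePred fun F => ¬ P₁ F}
    {_ : DecidablePred fun F => ¬ P₂ F} (a b : ℝ) (h : ∀ F, P₁ F → P₂ F → P F) (h1 : ((Q.filter fun F => ¬ P₁ F).card : ℝ) ≤ a * Q.card)
    (h2 : ((Q.filter fun F => ¬ P₂ F).card : ℝ) ≤ b * Q.card) :
    ((Q.filter fun F => ¬ P F).card : ℝ) ≤ (a + b) * Q.card := by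
  classical
  have h3 : (Q.filter fun F => ¬ P F) ⊆
      (Q.filter fun F => ¬ P₁ F) ∪ Q.filter fun F => ¬ P₂ F := by
    intro F hF
    rw [mem_filter] at hF
    rw [mem_union, mem_filter, mem_filter]
    by_cases hp : P₁ F
    · exact Or.inr ⟨hF.1, fun hp2 => hF.2 (h F hp hp2)⟩
    · exact Or.inl ⟨hF.1, hp⟩
  have h4 : ((Q.filter fun F => ¬ P F).card : ℝ) ≤
      (Q.filter fun F => ¬ P₁ F).card + (Q.filter fun F => ¬ P₂ F).card := by
    exact_mod_cast (card_le_card h3).trans (card_union_le _ _)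
  linarith

open Classical in
/-- the first event -/
theorem ev1 (hAVG : T_AVG) (hNM1 : T_NM1) (hNEX : T_NEX) : ∃ K₁ K₀ : ℕ, 1 ≤ K₀ ∧
    ∀ k n m : ℕ, K₀ ≤ k → K₀ * k ≤ n → ∀ Q : Finset (Fml n k m), Cnt Q →
    ((Q.filter fun F => ¬ Pr1 K₁ n k m F).card : ℝ) ≤ 1 / (8 * n) * Q.card := by
  obtain ⟨K, hK, h1⟩ := hNM1
  obtain ⟨K', hK', h2⟩ := hNEX
  refine ⟨K + 2, K + K', by omega, fun k n m hk hn Q hQ => ?_⟩
  have hk1 : 1 ≤ k := by omega
  have hkn : k ≤ n := le_trans (Nat.le_mul_of_pos_left k (by omega)) hn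
  have hn1 : 1 ≤ n := by omega
  have hn0 : (0 : ℝ) < n := by exact_mod_cast hn1
  have hk0 : (0 : ℝ) < k := by exact_mod_cast hk1
  have hKn : K * k ≤ n := le_trans (Nat.mul_le_mul_right _ (by omega)) hn
  have hKn' : K' * k ≤ n := le_trans (Nat.mul_le_mul_right _ (by omega)) hn
  have hL := lg_nonneg (n := n) (k := k) (m := m) hk1
  by_cases hc : ((K + 2 : ℕ) : ℝ) * lg n k m ≤ k
  · have hc' : (K : ℝ) * lg n k m ≤ k := by
      refine le_trans (mul_le_mul_of_nonneg_right ?_ hL) hc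
      push_cast
      linarith
    have hm : m ≤ 4 ^ k * n := m_le_of_lg (K + 2) (by omega) hk1 hn1 hc
    obtain ⟨D, d, w, u, hD, h64, hw, hnn, hu, hη, hT, hR⟩ := h1 k n m (by omega) hKn hc'
    have hηn : (0 : ℝ) ≤ (n.choose d : ℝ) * n.choose w * m.choose D *
        (((n : ℝ) - d + w) / (2 * n)) ^ (k * D) := by
      have h3 : (0 : ℝ) ≤ ((n : ℝ) - d + w) / (2 * n) := by
        have : (d : ℝ) ≤ n := by
          have : d ≤ n := by omega
          exact_mod_cast this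
        have h5 : (0 : ℝ) ≤ w := Nat.cast_nonneg _
        refine div_nonneg (by linarith) (by linarith)
      positivity
    have h3 := hAVG n k m u Q (fun F x => ¬ Gd F D d w x) _ hηn (fun x => by
      convert hQ.gx D d w (by omega) x)
    have h4 : ((Q.filter fun F => ¬ (univ.filter fun x => ¬ Gd F D d w x).card * 2 ^ (u + 1) ≤
        2 ^ n).card : ℝ) ≤ 1 / (16 * n) * Q.card := by
      refine le_trans (Nat.cast_le.2 (card_le_card fun F hF => ?_))
        (h3.trans (mul_le_mul_of_nonneg_right hη (Nat.cast_nonneg _)))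
      rw [mem_filter] at hF ⊢
      refine ⟨hF.1, fun h => hF.2 ?_⟩
      convert h
    have h5 : ((Q.filter fun F => ¬ Ex F D).card : ℝ) ≤ 1 / (16 * n) * Q.card :=
      (hQ.ex D (by omega)).trans (mul_le_mul_of_nonneg_right
        (h2 k n m D (by omega) hKn' hm h64) (Nat.cast_nonneg _))
    have hh : ∀ F : Fml n k m, Ex F D →
        (univ.filter fun x => ¬ Gd F D d w x).card * 2 ^ (u + 1) ≤ 2 ^ n →
        Pr1 (K + 2) n k m F := by
      intro F hE hg _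
      have hK2 : (K : ℝ) ≤ ((K + 2 : ℕ) : ℝ) := by
        push_cast
        linarith
      refine ⟨D, d, w, u, hD, hw, hnn, hE, hu, ?_, hT.trans ?_, hR.trans ?_⟩
      · rw [Nat.card_eq_fintype_card, Fintype.card_subtype]
        convert hg
      · refine Real.rpow_le_rpow_of_exponent_le (by norm_num) ?_
        gcongr
      · refine Real.rpow_le_rpow_of_exponent_le (by norm_num) ?_
        gcongr
    have h6 : ((Q.filter fun F => ¬ Pr1 (K + 2) n k m F).card : ℝ) ≤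
        (1 / (16 * n) + 1 / (16 * n)) * Q.card := or_bound Q (fun F => Pr1 (K + 2) n k m F)
      (fun F => Ex F D)
      (fun F => (univ.filter fun x => ¬ Gd F D d w x).card * 2 ^ (u + 1) ≤ 2 ^ n)
      (1 / (16 * (n : ℝ))) (1 / (16 * (n : ℝ))) hh h5 h4
    refine le_trans h6 (le_of_eq ?_)
    congr 1
    field_simp
    norm_num
  · have h3 : (Q.filter fun F => ¬ Pr1 (K + 2) n k m F) = ∅ := by
      rw [filter_eq_empty_iff]
      intro F _ h
      exact h fun h' => absurd h' hc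
    rw [h3, card_empty, Nat.cast_zero]
    positivity

open Classical in
/-- the second event -/
theorem ev2 (hNM2 : T_NM2) (hNEX : T_NEX) : ∃ K₁ K₀ : ℕ, 1 ≤ K₀ ∧
    ∀ k n m : ℕ, K₀ ≤ k → K₀ * k ≤ n → ∀ Q : Finset (Fml n k m), Cnt Q →
    ((Q.filter fun F => ¬ Pr2 K₁ n k m F).card : ℝ) ≤ 1 / (8 * n) * Q.card := by
  obtain ⟨K, hK, h1⟩ := hNM2
  obtain ⟨K', hK', h2⟩ := hNEX
  refine ⟨K + 2, K + K', by omega, fun k n m hk hn Q hQ => ?_⟩
  have hk1 : 1 ≤ k := by omega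
  have hkn : k ≤ n := le_trans (Nat.le_mul_of_pos_left k (by omega)) hn
  have hn1 : 1 ≤ n := by omega
  have hn0 : (0 : ℝ) < n := by exact_mod_cast hn1
  have hk0 : (1 : ℝ) ≤ k := by exact_mod_cast hk1
  have hKn : K * k ≤ n := le_trans (Nat.mul_le_mul_right _ (by omega)) hn
  have hKn' : K' * k ≤ n := le_trans (Nat.mul_le_mul_right _ (by omega)) hn
  have hL := lg_nonneg (n := n) (k := k) (m := m) hk1
  have hs : 0 ≤ 1 / Real.sqrt k + lg n k m / k := by positivity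
  have hlog : 0 ≤ Real.log k := Real.log_nonneg hk0
  by_cases hc : ((K + 2 : ℕ) : ℝ) * (1 / Real.sqrt k + lg n k m / k) ≤ 1
  · have hc' : (K : ℝ) * (1 / Real.sqrt k + lg n k m / k) ≤ 1 := by
      refine le_trans (mul_le_mul_of_nonneg_right ?_ hs) hc
      push_cast
      linarith
    have hc2 : ((K + 2 : ℕ) : ℝ) * lg n k m ≤ k := by
      have h3 : ((K + 2 : ℕ) : ℝ) * (lg n k m / k) ≤ 1 := by
        refine le_trans (mul_le_mul_of_nonneg_left ?_ (Nat.cast_nonneg _)) hc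
        have : 0 ≤ 1 / Real.sqrt k := by positivity
        linarith
      rwa [← mul_div_assoc, div_le_one (by linarith)] at h3
    have hm : m ≤ 4 ^ k * n := m_le_of_lg (K + 2) (by omega) hk1 hn1 hc2
    obtain ⟨t, d, w, ht, h64, hw, hwd, hnn, hη, hT, hR, hC⟩ := h1 k n m (by omega) hKn hc'
    have h4 : ((Q.filter fun F => ¬ ∀ x, Gd F t d w x).card : ℝ) ≤ 1 / (16 * n) * Q.card :=
      (hQ.gy t d w hwd (by omega)).trans
        (mul_le_mul_of_nonneg_right hη (Nat.cast_nonneg _))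
    have h5 : ((Q.filter fun F => ¬ Ex F (2 * t)).card : ℝ) ≤ 1 / (16 * n) * Q.card :=
      (hQ.ex (2 * t) (by omega)).trans (mul_le_mul_of_nonneg_right
        (h2 k n m (2 * t) (by omega) hKn' hm (by omega)) (Nat.cast_nonneg _))
    have hh : ∀ F : Fml n k m, Ex F (2 * t) → (∀ x, Gd F t d w x) →
        Pr2 (K + 2) n k m F := by
      intro F hE hg _
      have hK2 : (K : ℝ) ≤ ((K + 2 : ℕ) : ℝ) := by
        push_cast
        linarith
      refine ⟨t, d, w, ht, hw, hnn, hE, hg, hT.trans ?_, hR.trans ?_, hC⟩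
      · gcongr
      · refine Real.rpow_le_rpow_of_exponent_le (by norm_num) ?_
        gcongr
    have h6 : ((Q.filter fun F => ¬ Pr2 (K + 2) n k m F).card : ℝ) ≤
        (1 / (16 * n) + 1 / (16 * n)) * Q.card := or_bound Q (fun F => Pr2 (K + 2) n k m F)
      (fun F => Ex F (2 * t))
      (fun F => ∀ x, Gd F t d w x) (1 / (16 * (n : ℝ))) (1 / (16 * (n : ℝ))) hh h5 h4
    refine le_trans h6 (le_of_eq ?_)
    congr 1
    field_simp
    norm_num
  · have h3 : (Q.filter fun F => ¬ Pr2 (K + 2) n k m F) = ∅ := by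
      rw [filter_eq_empty_iff]
      intro F _ h
      exact h fun h' => absurd h' hc
    rw [h3, card_empty, Nat.cast_zero]
    positivity

/-- almost all formulas are unsatisfiable -/
theorem two_e (k n m : ℕ) (hn : 200 ≤ n) (hm : 2 ^ k * n ≤ m) :
    (2 : ℝ) ^ n * (1 - (1 / 2 : ℝ) ^ k) ^ m ≤ 1 / (16 * n) := by
  have hn0 : (200 : ℝ) ≤ n := by exact_mod_cast hn
  have h0 : (0 : ℝ) ≤ 1 - (1 / 2 : ℝ) ^ k := by
    have : (1 / 2 : ℝ) ^ k ≤ 1 := pow_le_one₀ (by norm_num) (by norm_num)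
    linarith
  have h1 : (1 - (1 / 2 : ℝ) ^ k) ^ m ≤ Real.exp (-n) := by
    have h2 : 1 - (1 / 2 : ℝ) ^ k ≤ Real.exp (-(1 / 2 : ℝ) ^ k) := by
      have := Real.add_one_le_exp (-(1 / 2 : ℝ) ^ k)
      linarith
    have h3 : (1 - (1 / 2 : ℝ) ^ k) ^ m ≤ Real.exp (-(1 / 2 : ℝ) ^ k) ^ m :=
      pow_le_pow_left₀ h0 h2 m
    refine h3.trans ?_
    rw [← Real.exp_nat_mul]
    refine Real.exp_le_exp.2 ?_
    have h4 : ((2 ^ k * n : ℕ) : ℝ) ≤ m := by exact_mod_cast hm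
    push_cast at h4
    have h5 : (2 : ℝ) ^ k * (1 / 2) ^ k = 1 := by
      rw [← mul_pow]
      norm_num
    have h6 : (0 : ℝ) < (1 / 2 : ℝ) ^ k := by positivity
    nlinarith
  have h2 : (2 : ℝ) ^ n * Real.exp (-n) = Real.exp (-((1 - Real.log 2) * n)) := by
    have h3 : (2 : ℝ) ^ n = Real.exp (n * Real.log 2) := by
      rw [Real.exp_nat_mul, Real.exp_log (by norm_num)]
    rw [h3, ← Real.exp_add]
    congr 1
    ring
  have h3 : (2 : ℝ) ^ n * (1 - (1 / 2 : ℝ) ^ k) ^ m ≤ Real.exp (-((1 - Real.log 2) * n)) := by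
    rw [← h2]
    exact mul_le_mul_of_nonneg_left h1 (by positivity)
  refine h3.trans ?_
  have h4 : (0.3 : ℝ) ≤ 1 - Real.log 2 := by
    have := Real.log_two_lt_d9
    linarith
  have h5 : Real.exp (-((1 - Real.log 2) * n)) ≤ Real.exp (-(0.3 * n)) := by
    refine Real.exp_le_exp.2 ?_
    nlinarith
  refine h5.trans ?_
  rw [Real.exp_neg, one_div]
  refine inv_anti₀ (by positivity) ?_
  have h6 : Real.exp (0.3 * n) = Real.exp (0.1 * n) ^ 3 := by
    rw [← Real.exp_nat_mul]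
    congr 1
    push_cast
    ring
  have h7 : 0.1 * (n : ℝ) + 1 ≤ Real.exp (0.1 * n) := Real.add_one_le_exp _
  rw [h6]
  have h8 : (0.1 * (n : ℝ) + 1) ^ 3 ≤ Real.exp (0.1 * n) ^ 3 :=
    pow_le_pow_left₀ (by positivity) h7 3
  refine le_trans ?_ h8
  nlinarith [mul_nonneg (sub_nonneg.2 hn0) (sub_nonneg.2 hn0)]

/-- the property used for the upper bound -/
def Pr3 (n k m : ℕ) (F : Fml n k m) : Prop :=
  2 ^ k * n ≤ m → m ≤ 4 ^ k * n → (∀ z, ∃ c, Falsified (cls F c) z) ∧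
    ((1 + 2 * ∑ i ∈ range n, (Alv F i).card : ℕ) : ℝ) ≤
      (2 : ℝ) ^ ((1 - lg n k m / (4 * k)) * n)

open Classical in
/-- the third event -/
theorem ev3 (hNUP : T_NUP) : ∃ K₀ : ℕ, 1 ≤ K₀ ∧
    ∀ k n m : ℕ, K₀ ≤ k → K₀ * k ≤ n → ∀ Q : Finset (Fml n k m), Cnt Q →
    ((Q.filter fun F => ¬ Pr3 n k m F).card : ℝ) ≤ 1 / (8 * n) * Q.card := by
  obtain ⟨K, hK, h1⟩ := hNUP
  refine ⟨K + 200, by omega, fun k n m hk hn Q hQ => ?_⟩
  have hk1 : 1 ≤ k := by omega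
  have hkn : k ≤ n := le_trans (Nat.le_mul_of_pos_left k (by omega)) hn
  have hn1 : 200 ≤ n := by omega
  have hn0 : (0 : ℝ) < n := by
    have : 0 < n := by omega
    exact_mod_cast this
  have hKn : K * k ≤ n := le_trans (Nat.mul_le_mul_right _ (by omega)) hn
  by_cases hm1 : 2 ^ k * n ≤ m
  swap
  · have h3 : (Q.filter fun F => ¬ Pr3 n k m F) = ∅ := by
      rw [filter_eq_empty_iff]
      intro F _ h
      exact h fun h' => absurd h' hm1
    rw [h3, card_empty, Nat.cast_zero]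
    positivity
  by_cases hm2 : m ≤ 4 ^ k * n
  swap
  · have h3 : (Q.filter fun F => ¬ Pr3 n k m F) = ∅ := by
      rw [filter_eq_empty_iff]
      intro F _ h
      exact h fun _ h' => absurd h' hm2
    rw [h3, card_empty, Nat.cast_zero]
    positivity
  obtain ⟨B, hB⟩ : ∃ B : ℝ, B = (2 : ℝ) ^ ((1 - lg n k m / (4 * k)) * n) := ⟨_, rfl⟩
  have hB0 : 0 < B := by
    rw [hB]
    positivity
  have hB2 : 2 ≤ B := by
    have h2 := (h1 k n m 0 (by omega) hKn hm1 hm2 (by omega)).2 (by omega)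
    rw [pow_zero, ← hB, le_div_iff₀ (by positivity)] at h2
    have h3 : (200 : ℝ) ≤ n := by exact_mod_cast hn1
    nlinarith
  have hA : ∀ i, i < n → ∑ F ∈ Q, ((Alv F i).card : ℝ) ≤ B / (128 * n ^ 2) * Q.card := by
    intro i hi
    have h2 := h1 k n m i (by omega) hKn hm1 hm2 hi.le
    by_cases hki : k ≤ i
    · refine (hQ.al i hki hi.le).trans ?_
      rw [hB]
      exact mul_le_mul_of_nonneg_right (h2.1 hki) (Nat.cast_nonneg _)
    · have h3 := h2.2 (by omega)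
      calc ∑ F ∈ Q, ((Alv F i).card : ℝ) ≤ ∑ _F ∈ Q, (2 : ℝ) ^ i := by
            refine sum_le_sum fun F _ => ?_
            exact_mod_cast card_Alv_le F i hi.le
        _ = 2 ^ i * Q.card := by
            rw [sum_const, nsmul_eq_mul, mul_comm]
        _ ≤ _ := by
            rw [hB]
            exact mul_le_mul_of_nonneg_right h3 (Nat.cast_nonneg _)
  have hA2 : ∑ F ∈ Q, ((∑ i ∈ range n, (Alv F i).card : ℕ) : ℝ) ≤ B / (128 * n) * Q.card := by
    push_cast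
    rw [sum_comm]
    calc ∑ i ∈ range n, ∑ F ∈ Q, ((Alv F i).card : ℝ)
        ≤ ∑ _i ∈ range n, B / (128 * n ^ 2) * Q.card :=
          sum_le_sum fun i hi => hA i (mem_range.1 hi)
      _ = B / (128 * n) * Q.card := by
          rw [sum_const, card_range, nsmul_eq_mul]
          field_simp
  have hM : ((Q.filter fun F => ¬ ((1 + 2 * ∑ i ∈ range n, (Alv F i).card : ℕ) : ℝ) ≤ B).card : ℝ)
      ≤ 1 / (32 * n) * Q.card := by
    have h2 : ((Q.filter fun F => ¬ ((1 + 2 * ∑ i ∈ range n, (Alv F i).card : ℕ) : ℝ) ≤ B).card : ℝ)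
        * (B / 4) ≤ B / (128 * n) * Q.card := by
      refine le_trans ?_ hA2
      rw [← nsmul_eq_mul]
      refine le_trans ?_ (sum_le_sum_of_subset_of_nonneg (filter_subset
        (fun F => ¬ ((1 + 2 * ∑ i ∈ range n, (Alv F i).card : ℕ) : ℝ) ≤ B) Q)
        fun _ _ _ => Nat.cast_nonneg _)
      refine card_nsmul_le_sum _ _ _ fun F hF => ?_
      have h3 := (mem_filter.1 hF).2
      push Not at h3
      push_cast at h3 ⊢
      linarith
    have h3 : B / (128 * n) * Q.card = 1 / (32 * n) * Q.card * (B / 4) := by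
      field_simp
      ring
    rw [h3] at h2
    exact le_of_mul_le_mul_right h2 (by positivity)
  have hS : ((Q.filter fun F => ¬ ∀ z, ∃ c, Falsified (cls F c) z).card : ℝ) ≤
      1 / (16 * n) * Q.card :=
    hQ.sa.trans (mul_le_mul_of_nonneg_right (two_e k n m hn1 hm1) (Nat.cast_nonneg _))
  have h6 : ((Q.filter fun F => ¬ Pr3 n k m F).card : ℝ) ≤
      (1 / (16 * n) + 1 / (32 * n)) * Q.card := or_bound Q (fun F => Pr3 n k m F)
    (fun F => ∀ z, ∃ c, Falsified (cls F c) z)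
    (fun F => ((1 + 2 * ∑ i ∈ range n, (Alv F i).card : ℕ) : ℝ) ≤ B)
    (1 / (16 * (n : ℝ))) (1 / (32 * (n : ℝ))) (by
      intro F h2 h3 _ _
      refine ⟨h2, ?_⟩
      rw [← hB]
      exact h3) hS hM
  refine le_trans h6 (mul_le_mul_of_nonneg_right ?_ (Nat.cast_nonneg _))
  rw [div_add_div _ _ (by positivity) (by positivity), div_le_div_iff₀ (by positivity)
    (by positivity)]
  nlinarith [mul_pos hn0 hn0, mul_pos (mul_pos hn0 hn0) hn0]

open Classical in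
/-- all events together -/
theorem evA (hTSZ : T_TSZ) (hRSZ : T_RSZ) (hWID : T_WID) (hGSZ : T_GSZ) (hTRU : T_TRU)
    (hAVG : T_AVG) (hNEX : T_NEX) (hNM1 : T_NM1) (hNM2 : T_NM2) (hNUP : T_NUP) :
    ∃ K : ℕ, 3 ≤ K ∧ ∀ k n m : ℕ, K ≤ k → K * k ≤ n → ∀ Q : Finset (Fml n k m), Cnt Q →
      (n : ℝ) * (Q.filter fun F => ¬ HdS (K : ℝ) F).card ≤ Q.card := by
  obtain ⟨K₁, K₁', hK1, h1⟩ := ev1 hAVG hNM1 hNEX
  obtain ⟨K₂, K₂', hK2, h2⟩ := ev2 hNM2 hNEX
  obtain ⟨K₃, hK3, h3⟩ := ev3 hNUP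
  refine ⟨K₁ + K₁' + K₂ + K₂' + K₃ + 3, by omega, fun k n m hk hn Q hQ => ?_⟩
  have hle : ∀ a : ℕ, a ≤ K₁ + K₁' + K₂ + K₂' + K₃ + 3 → a * k ≤ n := fun a ha =>
    le_trans (Nat.mul_le_mul_right _ ha) hn
  have hkn : k ≤ n := by
    have := hle 1 (by omega)
    omega
  have hn0 : (0 : ℝ) < n := by
    have : 0 < n := by omega
    exact_mod_cast this
  have e1 := h1 k n m (by omega) (hle _ (by omega)) Q hQ
  have e2 := h2 k n m (by omega) (hle _ (by omega)) Q hQ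
  have e3 := h3 k n m (by omega) (hle _ (by omega)) Q hQ
  have e12 : ((Q.filter fun F => ¬ (Pr1 K₁ n k m F ∧ Pr2 K₂ n k m F)).card : ℝ) ≤
      (1 / (8 * n) + 1 / (8 * n)) * Q.card := or_bound Q _ (fun F => Pr1 K₁ n k m F)
    (fun F => Pr2 K₂ n k m F) (1 / (8 * (n : ℝ))) (1 / (8 * (n : ℝ)))
    (fun F ha hb => ⟨ha, hb⟩) e1 e2
  have e : ((Q.filter fun F => ¬ HdS (K₁ + K₁' + K₂ + K₂' + K₃ + 3 : ℕ) F).card : ℝ) ≤
      ((1 / (8 * n) + 1 / (8 * n)) + 1 / (8 * n)) * Q.card := or_bound Q _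
    (fun F => Pr1 K₁ n k m F ∧ Pr2 K₂ n k m F) (fun F => Pr3 n k m F)
    (1 / (8 * (n : ℝ)) + 1 / (8 * (n : ℝ))) (1 / (8 * (n : ℝ)))
    (fun F ha hb => HdS_of hTSZ hRSZ hWID hGSZ hTRU F _ K₁ K₂ (by omega) (by omega) (by omega)
      (by omega) ha.1 ha.2 hb) e12 e3
  have e' := mul_le_mul_of_nonneg_left e hn0.le
  have h4 : (n : ℝ) * (((1 / (8 * n) + 1 / (8 * n)) + 1 / (8 * n)) * Q.card) =
      3 / 8 * Q.card := by
    field_simp
    ring
  have h5 : (0 : ℝ) ≤ Q.card := Nat.cast_nonneg _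
  rw [h4] at e'
  linarith

end

end Pool.Agent.H41.SS
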