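import Pool.Agent.H41.SS.Fin2
import Pool.Agent.H97.RK.FNB

/-!
Resolution on random k-CNFs, the exact savings (MP_c62aed_lc): from the targets to the theorem.
-/

set_option autoImplicit false

namespace Pool.Agent.H41.SS

open Finset Pool.Agent.H97.RK Pool.Agent.H97.RL

theorem card_fml (n k m : ℕ) :
    (((univ : Finset (Fml n k m)).card : ℕ) : ℝ) = ((2 * n) ^ k : ℝ) ^ m := by
  rw [card_univ, Fintype.card_fun, Fintype.card_fun, Fintype.card_prod,
    Fintype.card_fin, Fintype.card_fin, Fintype.card_fin, Fintype.card_bool]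
  push_cast
  ring

open Classical in
theorem card_dist (n k m : ℕ) :
    (((univ.filter fun F : Fml n k m => Dist F).card : ℕ) : ℝ) = ((Om n k).card : ℝ) ^ m := by
  have : (univ.filter fun F : Fml n k m => Dist F) =
      Fintype.piFinset fun _ : Fin m => Om n k := by
    ext F
    rw [mem_filter, Fintype.mem_piFinset, Dist_iff]
    simp
  rw [this, Fintype.card_piFinset_const, Nat.cast_pow]

theorem cnt_iid (hPGX : T_PGX) (hPEX : T_PEX) (hPX2 : T_PX2) (hPSA : T_PSA) (hPAL : T_PAL)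
    (n k m : ℕ) (hkn : k < n) : Cnt (univ : Finset (Fml n k m)) := by
  classical
  have hn1 : 1 ≤ n := by omega
  have hn0 : (0 : ℝ) < n := by exact_mod_cast hn1
  refine ⟨?_, ?_, ?_, ?_, ?_⟩
  · intro D d w hdw x
    rw [card_fml]
    refine le_trans (le_of_eq ?_) (hPGX n k m D d w hn1 hdw x)
    congr! 3
  · intro D hD
    rw [card_fml]
    refine le_trans (le_of_eq ?_) (hPEX n k m D hn1 hD)
    congr! 3
  · intro t d w hwd hdn
    rw [card_fml]
    refine le_trans (Nat.cast_le.2 (card_le_card ?_)) (hPX2 n k m t d w hn1 hwd hdn)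
    intro F hF
    rw [mem_filter] at hF ⊢
    exact ⟨mem_univ _, fun h => hF.2 fun x T W h1 h2 h3 => h x T W h1 h2 h3⟩
  · rw [card_fml]
    refine le_trans (le_of_eq ?_) (hPSA n k m hn1)
    congr! 3
  · intro i hki hin
    rw [card_fml]
    refine (hPAL n k m i hn1 hin).trans ?_
    have hkn' : (k : ℝ) < n := by exact_mod_cast hkn
    have hki' : (k : ℝ) ≤ i := by exact_mod_cast hki
    have hin' : (i : ℝ) ≤ n := by exact_mod_cast hin
    have hk0 : (0 : ℝ) ≤ k := Nat.cast_nonneg _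
    have h1 : ((i : ℝ) - k) / (2 * (n - k)) ≤ (i : ℝ) / (2 * n) := by
      rw [div_le_div_iff₀ (by linarith) (by linarith)]
      nlinarith
    have h2 : 0 ≤ ((i : ℝ) - k) / (2 * (n - k)) :=
      div_nonneg (by linarith) (by linarith)
    have h3 : (i : ℝ) / (2 * n) ≤ 1 := by
      rw [div_le_one (by linarith)]
      linarith
    have h4 : (((i : ℝ) - k) / (2 * (n - k))) ^ k ≤ ((i : ℝ) / (2 * n)) ^ k :=
      pow_le_pow_left₀ h2 h1 k
    have h5 : ((i : ℝ) / (2 * n)) ^ k ≤ 1 := pow_le_one₀ (h2.trans h1) h3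
    have h6 : (1 - ((i : ℝ) / (2 * n)) ^ k) ^ m ≤
        (1 - (((i : ℝ) - k) / (2 * (n - k))) ^ k) ^ m :=
      pow_le_pow_left₀ (by linarith) (by linarith) m
    refine mul_le_mul_of_nonneg_right ?_ (by positivity)
    exact mul_le_mul_of_nonneg_left h6 (by positivity)

open Classical in
theorem cnt_dist (hDGX : T_DGX) (hDEX : T_DEX) (hDAL : T_DAL)
    (n k m : ℕ) (hkn : k < n) : Cnt (univ.filter fun F : Fml n k m => Dist F) := by
  have hn1 : 1 ≤ n := by omega
  refine ⟨?_, ?_, ?_, ?_, ?_⟩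
  · intro D d w hdw x
    rw [filter_filter]
    refine le_trans (le_of_eq ?_) (hDGX n k m D d w hn1 hkn.le hdw x)
    congr! 3
  · intro D hD
    rw [filter_filter]
    refine le_trans (le_of_eq ?_) (hDEX n k m D hn1 hkn.le hD)
    congr! 3
  · intro t d w hwd hdn
    rw [card_dist, filter_filter]
    refine le_trans (Nat.cast_le.2 (card_le_card ?_)) (pf_DX2 n k m t d w hn1 hkn.le hwd hdn)
    intro F hF
    rw [mem_filter] at hF ⊢
    exact ⟨mem_univ _, hF.2.1, fun h => hF.2.2 fun x T W h1 h2 h3 => h x T W h1 h2 h3⟩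
  · rw [card_dist, filter_filter]
    refine le_trans (le_of_eq ?_) (pf_DSA n k m)
    congr! 3
  · intro i hki hin
    exact hDAL n k m i hkn hki hin

theorem pf_FIN (hTSZ : T_TSZ) (hRSZ : T_RSZ) (hWID : T_WID) (hGSZ : T_GSZ) (hTRU : T_TRU)
    (hAVG : T_AVG) (hNEX : T_NEX) (hNM1 : T_NM1) (hNM2 : T_NM2) (hNUP : T_NUP)
    (hPGX : T_PGX) (hPEX : T_PEX) (hPX2 : T_PX2) (hPSA : T_PSA) (hPAL : T_PAL)
    (hDGX : T_DGX) (hDEX : T_DEX) (hDAL : T_DAL) : MainSS := by
  classical
  obtain ⟨K, hK, h⟩ := evA hTSZ hRSZ hWID hGSZ hTRU hAVG hNEX hNM1 hNM2 hNUP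
  refine ⟨K, by omega, fun k n m hk hn => ?_⟩
  have hkn : k < n := by
    have : 3 * k ≤ n := (Nat.mul_le_mul_right _ hK).trans hn
    omega
  constructor
  · have h3 := h k n m hk hn univ (cnt_iid hPGX hPEX hPX2 hPSA hPAL n k m hkn)
    have h4 : (Nat.card {F : Fml n k m // ¬ HdS (K : ℝ) F} : ℝ) ≤
        (univ.filter fun F : Fml n k m => ¬ HdS (K : ℝ) F).card :=
      natcard_le _ _ fun F hF => hF
    have h5 : ((Nat.card (Fml n k m) : ℕ) : ℝ) = ((univ : Finset (Fml n k m)).card : ℕ) := by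
      rw [Nat.card_eq_fintype_card, card_univ]
    rw [h5]
    exact (mul_le_mul_of_nonneg_left h4 (Nat.cast_nonneg _)).trans h3
  · have h3 := h k n m hk hn _ (cnt_dist hDGX hDEX hDAL n k m hkn)
    have h4 : (Nat.card {F : Fml n k m // Dist F ∧ ¬ HdS (K : ℝ) F} : ℝ) ≤
        ((univ.filter fun F : Fml n k m => Dist F).filter
          fun F : Fml n k m => ¬ HdS (K : ℝ) F).card := by
      rw [filter_filter]
      exact natcard_le _ _ fun F hF => hF
    have h5 : ((Nat.card {F : Fml n k m // Dist F} : ℕ) : ℝ) =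
        ((univ.filter fun F : Fml n k m => Dist F).card : ℕ) := by
      rw [Nat.card_eq_fintype_card, Fintype.card_subtype]
    rw [h5]
    exact (mul_le_mul_of_nonneg_left h4 (Nat.cast_nonneg _)).trans h3

end Pool.Agent.H41.SS
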