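import Pool.Agent.H41.SS.Targets

/-!
Resolution on random k-CNFs, the exact savings (MP_c62aed_lc): targets for the tradeoff between the
size and the number of parts.
-/

set_option autoImplicit false

namespace Pool.Agent.H41.SS

open Finset Pool.Agent.H97.RK Pool.Agent.H97.RL

/-- (RU2) the path ends in a wide line. -/
def T_RU2 : Prop :=
  ∀ (n k m : ℕ) (F : Fml n k m) (D d w u h R G P : ℕ), 1 ≤ R → 1 ≤ P → (R - 1) * n ≤ P * G →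
    2 * D * P + 6 * D ≤ w → Goo F D d w u → u + w + d ≤ n →
    ∀ (S r : ℕ) (line : ℕ → Clause n) (rule : ℕ → Rule n), IsRef F S r line rule →
    ∀ (U V : Finset ℕ) (an : ℕ → ℕ) (ls : ℕ → List (Fin n × Bool)),
    Tree S r rule (U ∪ V) an ls → (∀ l ∈ U, (vs (line l)).card ≤ u) →
    (∀ (a i : ℕ) (q : Finset (Fin n)) (l : List (Fin n)), (a = r ∨ a ∈ U) →
      Seg3 rule U V a i q l → (univ.filter fun v => R < l.count v).card ≤ h) →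
    ∀ (l : ℕ) (x y : Fin n → Bool) (W : Finset (Fin n)) (J : Finset (Fin m)), l < S → l ≤ r →
    (l ∈ U ∨ l = r) → Sta F D 0 y (vs (line l)) W J → Falsified (line l) y → Gd F D d w x →
    (∀ v ∈ vs (line l) \ W, x v = y v) →
    (∃ i, i < S ∧ ∃ y' : Fin n → Bool, Falsified (exC (line (an i)) (ls i)) y' ∧
      n ≤ (vs (exC (line (an i)) (ls i))).card + (h + G + 2 * (w + d) + u + 1) ∧
      dst y' x ≤ 2 * D * P) ∨
      ∃ l', l' < l ∧ l' ∈ U ∧ AtS F D line l'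

open Classical in
/-- (RZ2) the size. -/
def T_RZ2 : Prop :=
  ∀ (n k m : ℕ) (F : Fml n k m) (D d w u h R G P : ℕ), 1 ≤ D → 1 ≤ R → 1 ≤ P →
    (R - 1) * n ≤ P * G → 2 * D * P + 6 * D ≤ w → u + w + d ≤ n → Ex F D →
    (univ.filter fun z => ¬ Gd F D d w z).card * 2 ^ (u + 1) ≤ 2 ^ n →
    ∀ (S r : ℕ) (line : ℕ → Clause n) (rule : ℕ → Rule n), IsRef F S r line rule →
    ∀ U V : Finset ℕ, Once S rule (U ∪ V) → (∀ l ∈ U, (vs (line l)).card ≤ u) →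
    (∀ (a i : ℕ) (q : Finset (Fin n)) (l : List (Fin n)), (a = r ∨ a ∈ U) →
      Seg3 rule U V a i q l → (univ.filter fun v => R < l.count v).card ≤ h) →
    2 ^ n ≤ S * (2 ^ (h + G + 2 * (w + d) + 2 * u + 2) * bl n (2 * D * P))

/-- (NM3) the parameters of the first part and of the second one for `R = 1`. -/
def T_NM3 : Prop :=
  ∃ K : ℕ, 1 ≤ K ∧ ∀ k n m : ℕ, K ≤ k → K * k ≤ n → (K : ℝ) * lg n k m ≤ k →
    ∃ D d w u : ℕ, 1 ≤ D ∧ 64 * D ≤ n ∧ 8 * D ≤ w ∧ u + w + d ≤ n ∧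
      (∀ a : ℕ, (a : ℝ) ≤ (Real.log k ^ 2 + lg n k m) / k * n → a ≤ u) ∧
      (u : ℝ) ≤ (Real.log k ^ 2 + lg n k m) / k * n ∧
      (n.choose d : ℝ) * n.choose w * m.choose D *
        (((n : ℝ) - d + w) / (2 * n)) ^ (k * D) * 2 ^ (u + 1) ≤ 1 / (16 * n ^ 2) ∧
      (2 : ℝ) ^ (w + d + 2 * D + 2) ≤ (2 : ℝ) ^ (K * lg n k m / k * n) ∧
      (2 : ℝ) ^ (2 * (w + d) + 2) * bl n (4 * D) ≤
        (2 : ℝ) ^ (K * (Real.log k ^ 2 + lg n k m) / k * n)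

/-- (NM4) the parameters of the second part for `2 ≤ R`. -/
def T_NM4 : Prop :=
  ∃ K : ℕ, 1 ≤ K ∧ ∀ k n m R : ℕ, K ≤ k → K * k ≤ n → 2 ≤ R → R ≤ k →
    (K : ℝ) * lp n k m R ≤ 1 →
    ∃ D d w u G P : ℕ, 1 ≤ D ∧ 1 ≤ P ∧ 64 * D ≤ n ∧ (R - 1) * n ≤ P * G ∧
      2 * D * P + 6 * D ≤ w ∧ u + w + d ≤ n ∧
      (∀ a : ℕ, (a : ℝ) ≤ lp n k m R * n → a ≤ u) ∧
      (n.choose d : ℝ) * n.choose w * m.choose D *
        (((n : ℝ) - d + w) / (2 * n)) ^ (k * D) * 2 ^ (u + 1) ≤ 1 / (16 * n ^ 2) ∧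
      (2 : ℝ) ^ (G + 2 * (w + d) + 2 * u + 2) * bl n (2 * D * P) ≤
        (2 : ℝ) ^ (K * lp n k m R * n)

end Pool.Agent.H41.SS
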