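import Pool.Agent.H41.SS.Fin1
import Pool.Agent.H41.SS.Targets2

/-!
Resolution on random k-CNFs, the exact savings (MP_c62aed_lc): from counting to the bounds, with
the number of parts.
-/

set_option autoImplicit false

namespace Pool.Agent.H41.SS

open Finset Pool.Agent.H97.RK Pool.Agent.H97.RL

open Classical in
/-- (LEM) the number of wide lemmas. -/
def T_LEM : Prop :=
  ∀ (n k m : ℕ) (F : Fml n k m) (a : ℝ) (t d w : ℕ), 1 ≤ t → 12 * t ≤ w → w ≤ d →
    w + d + 1 ≤ n → Ex F (2 * t) → (∀ x, Gd F t d w x) →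
    2 * (bl n (d + 2 * t) : ℝ) * bl n (4 * t) ≤ (2 : ℝ) ^ (a * n) →
    2 * (2 ^ n * bl n (w + d)) ≤ 3 ^ n →
    ∀ (S r : ℕ) (line : ℕ → Clause n) (rule : ℕ → Rule n), IsRef F S r line rule →
    ∀ U : Finset ℕ, Once S rule U → ∀ w₀ : ℕ,
    (2 : ℝ) ^ ((1 - 10 * a) * n) ≤
      S * (3 / 2 : ℝ) ^ w₀ * (((U.filter fun l => w₀ < (line l).card).card : ℝ) + 1) ^ (3 / 2 : ℝ)

section

variable {n k m : ℕ}

/-- the field `tree` -/
theorem tree_of2 (hTSZ : T_TSZ) (F : Fml n k m) (a : ℝ) (D d w u : ℕ) (hD : 1 ≤ D)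
    (hw : 8 * D ≤ w) (hn : u + w + d ≤ n) (hEx : Ex F D)
    (hg : Nat.card {z // ¬ Gd F D d w z} * 2 ^ (u + 1) ≤ 2 ^ n)
    (ha : (2 : ℝ) ^ (w + d + 2 * D + u + 2) ≤ (2 : ℝ) ^ (a * n))
    (S r : ℕ) (line : ℕ → Clause n) (rule : ℕ → Rule n) (href : IsRef F S r line rule)
    (U : Finset ℕ) (hO : Once S rule U)
    (hU : ∀ l ∈ U, (line l).card ≤ u) :
    (2 : ℝ) ^ ((1 - a) * n) ≤ S := by
  classical
  have hg' : (univ.filter fun z => ¬ Gd F D d w z).card * 2 ^ (u + 1) ≤ 2 ^ n := by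
    rw [← Fintype.card_subtype, ← Nat.card_eq_fintype_card]
    exact hg
  have h1 := hTSZ n k m F D d w u hD (by omega) hn hEx (by convert hg') S r line rule href U hO
    (fun l hl => (vs_card_le _).trans (hU l hl))
  have h2 : (2 : ℝ) ^ n ≤ S * (2 : ℝ) ^ (w + d + 2 * D + u + 2) := by exact_mod_cast h1
  have h3 : (2 : ℝ) ^ n ≤ S * (2 : ℝ) ^ (a * n) :=
    h2.trans (mul_le_mul_of_nonneg_left ha (Nat.cast_nonneg _))
  have h4 : (2 : ℝ) ^ ((1 - a) * n) * (2 : ℝ) ^ (a * n) = (2 : ℝ) ^ n := by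
    rw [← Real.rpow_add (by norm_num), ← Real.rpow_natCast]
    congr 1
    ring
  rw [← h4] at h3
  exact le_of_mul_le_mul_right h3 (by positivity)

/-- the field `parts` -/
theorem parts_of (hRZ2 : T_RZ2) (F : Fml n k m) (a : ℝ) (D d w u R G P : ℕ) (hD : 1 ≤ D)
    (hR : 1 ≤ R) (hP : 1 ≤ P) (hPG : (R - 1) * n ≤ P * G)
    (hw : 2 * D * P + 6 * D ≤ w) (hn : u + w + d ≤ n) (hEx : Ex F D)
    (hg : Nat.card {z // ¬ Gd F D d w z} * 2 ^ (u + 1) ≤ 2 ^ n)
    (ha : (2 : ℝ) ^ (G + 2 * (w + d) + 2 * u + 2) * bl n (2 * D * P) ≤ (2 : ℝ) ^ (a * n))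
    (S r : ℕ) (line : ℕ → Clause n) (rule : ℕ → Rule n) (href : IsRef F S r line rule)
    (U V : Finset ℕ) (hO : Once S rule (U ∪ V))
    (hU : ∀ l ∈ U, (line l).card ≤ u) (ρ : ℝ)
    (hρ : ∀ (a i : ℕ) (q : Finset (Fin n)) (l : List (Fin n)), (a = r ∨ a ∈ U) →
      Seg3 rule U V a i q l → ((univ.filter fun v => R < l.count v).card : ℝ) ≤ ρ * n) :
    (2 : ℝ) ^ ((1 - ρ - a) * n) ≤ S := by
  classical
  have hρ0 : 0 ≤ ρ * n :=
    le_trans (Nat.cast_nonneg _) (hρ r r ∅ [] (Or.inl rfl) Seg3.refl)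
  have hg' : (univ.filter fun z => ¬ Gd F D d w z).card * 2 ^ (u + 1) ≤ 2 ^ n := by
    rw [← Fintype.card_subtype, ← Nat.card_eq_fintype_card]
    exact hg
  have h1 := hRZ2 n k m F D d w u ⌊ρ * n⌋₊ R G P hD hR hP hPG hw hn hEx (by convert hg') S r
    line rule href U V hO (fun l hl => (vs_card_le _).trans (hU l hl))
    (fun a i q l h h' => Nat.le_floor (hρ a i q l h h'))
  have h2 : (2 : ℝ) ^ n ≤ S * ((2 : ℝ) ^ (⌊ρ * n⌋₊ + G + 2 * (w + d) + 2 * u + 2) *
      bl n (2 * D * P)) := by exact_mod_cast h1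
  have h4 : (2 : ℝ) ^ (⌊ρ * n⌋₊) ≤ (2 : ℝ) ^ (ρ * n) := by
    rw [← Real.rpow_natCast]
    exact Real.rpow_le_rpow_of_exponent_le (by norm_num) (Nat.floor_le hρ0)
  have h5 : (2 : ℝ) ^ n ≤ S * ((2 : ℝ) ^ (ρ * n) * (2 : ℝ) ^ (a * n)) := by
    refine h2.trans ?_
    have h6 : (2 : ℝ) ^ (⌊ρ * n⌋₊ + G + 2 * (w + d) + 2 * u + 2) * bl n (2 * D * P) =
        (2 : ℝ) ^ (⌊ρ * n⌋₊) *
          ((2 : ℝ) ^ (G + 2 * (w + d) + 2 * u + 2) * bl n (2 * D * P)) := by
      rw [← mul_assoc, ← pow_add]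
      congr 2
      ring
    rw [h6]
    refine mul_le_mul_of_nonneg_left ?_ (Nat.cast_nonneg _)
    exact mul_le_mul h4 ha (by positivity) (by positivity)
  have h6 : (2 : ℝ) ^ ((1 - ρ - a) * n) * ((2 : ℝ) ^ (ρ * n) * (2 : ℝ) ^ (a * n)) =
      (2 : ℝ) ^ n := by
    rw [← Real.rpow_add (by norm_num), ← Real.rpow_add (by norm_num), ← Real.rpow_natCast]
    congr 1
    ring
  rw [← h6] at h5
  exact le_of_mul_le_mul_right h5 (by positivity)

theorem bl_mono (n a b : ℕ) (h : a ≤ b) : bl n a ≤ bl n b :=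
  sum_le_sum_of_subset_of_nonneg (range_subset_range.2 (by omega)) fun _ _ _ => Nat.zero_le _

end

/-- the conditions on the numbers for the trees and for one part -/
def Pt1 (K n k m : ℕ) (F : Fml n k m) : Prop :=
  (K : ℝ) * lg n k m ≤ k → ∃ D d w u : ℕ, 1 ≤ D ∧ 8 * D ≤ w ∧ u + w + d ≤ n ∧ Ex F D ∧
    (∀ a : ℕ, (a : ℝ) ≤ (Real.log k ^ 2 + lg n k m) / k * n → a ≤ u) ∧
    (u : ℝ) ≤ (Real.log k ^ 2 + lg n k m) / k * n ∧
    Nat.card {z // ¬ Gd F D d w z} * 2 ^ (u + 1) ≤ 2 ^ n ∧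
    (2 : ℝ) ^ (w + d + 2 * D + 2) ≤ (2 : ℝ) ^ (K * lg n k m / k * n) ∧
    (2 : ℝ) ^ (2 * (w + d) + 2) * bl n (4 * D) ≤
      (2 : ℝ) ^ (K * (Real.log k ^ 2 + lg n k m) / k * n)

/-- the conditions on the numbers for several parts -/
def PtR (K n k m : ℕ) (F : Fml n k m) : Prop :=
  ∀ R : ℕ, 2 ≤ R → R ≤ k → (K : ℝ) * lp n k m R ≤ 1 → ∃ D d w u G P : ℕ, 1 ≤ D ∧ 1 ≤ P ∧
    (R - 1) * n ≤ P * G ∧ 2 * D * P + 6 * D ≤ w ∧ u + w + d ≤ n ∧ Ex F D ∧
    (∀ a : ℕ, (a : ℝ) ≤ lp n k m R * n → a ≤ u) ∧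
    Nat.card {z // ¬ Gd F D d w z} * 2 ^ (u + 1) ≤ 2 ^ n ∧
    (2 : ℝ) ^ (G + 2 * (w + d) + 2 * u + 2) * bl n (2 * D * P) ≤
      (2 : ℝ) ^ (K * lp n k m R * n)

/-- the conditions on the numbers for the other fields -/
def Pt2 (K n k m : ℕ) (F : Fml n k m) : Prop :=
  (K : ℝ) * (1 / Real.sqrt k + lg n k m / k) ≤ 1 → ∃ t d w : ℕ, 1 ≤ t ∧ 12 * t ≤ w ∧ w ≤ d ∧
    w + d + 1 ≤ n ∧ Ex F (2 * t) ∧ (∀ x, Gd F t d w x) ∧
    ((w : ℝ) + d) ≤ K * (1 / Real.sqrt k + lg n k m / k) * n ∧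
    2 * (bl n (d + 2 * t) : ℝ) * bl n (4 * t) ≤
      (2 : ℝ) ^ (K * Real.log k * (1 / Real.sqrt k + lg n k m / k) * n) ∧
    2 * (2 ^ n * bl n (w + d)) ≤ 3 ^ n

theorem lp_nonneg {n k m R : ℕ} (hk : 3 ≤ k) (hR : 1 ≤ R) (hRk : R ≤ k) :
    0 ≤ lp n k m R ∧ (Real.log k ^ 2 + lg n k m) / k ≤ lp n k m R := by
  have hk0 : (0 : ℝ) < k := by
    have : 0 < k := by omega
    exact_mod_cast this
  have hR0 : (0 : ℝ) < R := by exact_mod_cast hR
  have hRk' : (R : ℝ) ≤ k := by exact_mod_cast hRk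
  have hL : 0 ≤ lg n k m := lg_nonneg (by omega)
  have h1 : 0 ≤ Real.log (k / R) := Real.log_nonneg (by rwa [le_div_iff₀ hR0, one_mul])
  have h2 : 0 ≤ (1 + Real.log (k / R)) * Real.sqrt (((R : ℝ) - 1) / k) :=
    mul_nonneg (by linarith) (Real.sqrt_nonneg _)
  have h3 : 0 ≤ (Real.log k ^ 2 + lg n k m) / k := by positivity
  unfold lp
  constructor <;> linarith

theorem lp_one (n k m : ℕ) : lp n k m 1 = (Real.log k ^ 2 + lg n k m) / k := by
  unfold lp
  rw [Nat.cast_one, sub_self, zero_div, Real.sqrt_zero, mul_zero, zero_add]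

/-- everything which does not depend on chance -/
theorem HdU_of (hTSZ : T_TSZ) (hRZ2 : T_RZ2) (hWID : T_WID) (hGSZ : T_GSZ) (hTRU : T_TRU)
    (hLEM : T_LEM)
    {n k m : ℕ} (F : Fml n k m) (K K₁ K₂ K₃ : ℕ) (h1 : K₁ + 2 ≤ K) (h2 : 10 * K₂ ≤ K)
    (h3 : K₃ ≤ K) (hn : 1 ≤ n)
    (hk : 3 ≤ k) (hP1 : Pt1 K₁ n k m F) (hP2 : Pt2 K₂ n k m F) (hP3 : PtR K₃ n k m F)
    (hU : 2 ^ k * n ≤ m → m ≤ 4 ^ k * n → (∀ z, ∃ c, Falsified (cls F c) z) ∧
      ((1 + 2 * ∑ i ∈ range n, (Alv F i).card : ℕ) : ℝ) ≤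
        (2 : ℝ) ^ ((1 - lg n k m / (4 * k)) * n)) : HdU K F := by
  have hn0 : (0 : ℝ) < n := by exact_mod_cast hn
  have hk0 : (0 : ℝ) < k := by
    have : 0 < k := by omega
    exact_mod_cast this
  have hL : 0 ≤ lg n k m := lg_nonneg (by omega)
  have hK1 : (K₁ : ℝ) + 2 ≤ K := by exact_mod_cast h1
  have hK2' : (10 : ℝ) * K₂ ≤ K := by exact_mod_cast h2
  have hK20 : (0 : ℝ) ≤ K₂ := Nat.cast_nonneg _
  have hK2 : (K₂ : ℝ) ≤ K := by linarith
  have hK3 : (K₃ : ℝ) ≤ K := by exact_mod_cast h3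
  have hlog : 1 ≤ Real.log k := by
    rw [Real.le_log_iff_exp_le hk0]
    have h3 : (3 : ℝ) ≤ k := by exact_mod_cast hk
    linarith [Real.exp_one_lt_d9]
  have hs : 0 ≤ 1 / Real.sqrt k + lg n k m / k := by positivity
  have hLk : 0 ≤ lg n k m / k := by positivity
  refine ⟨?_, ?_, ?_, ?_, ?_, ?_⟩
  · -- tree
    intro S r line rule href U hO hUU
    by_cases hc : (K₁ : ℝ) * lg n k m ≤ k
    · obtain ⟨D, d, w, u, hD, hw, hnn, hEx, hu, -, hg, ha, -⟩ := hP1 hc
      obtain ⟨u', hu'⟩ : ∃ u', u' = ⌊lg n k m / k * n⌋₊ := ⟨_, rfl⟩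
      have hu1 : (u' : ℝ) ≤ lg n k m / k * n := by
        rw [hu']
        exact Nat.floor_le (by positivity)
      have hu2 : u' ≤ u := by
        refine hu u' (hu1.trans (mul_le_mul_of_nonneg_right ?_ hn0.le))
        refine div_le_div_of_nonneg_right ?_ hk0.le
        linarith [sq_nonneg (Real.log k)]
      have hg' : Nat.card {z // ¬ Gd F D d w z} * 2 ^ (u' + 1) ≤ 2 ^ n :=
        (Nat.mul_le_mul_left _ (Nat.pow_le_pow_right (by norm_num) (by omega))).trans hg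
      have ha' : (2 : ℝ) ^ (w + d + 2 * D + u' + 2) ≤
          (2 : ℝ) ^ (((K₁ + 1 : ℝ) * lg n k m / k) * n) := by
        have e1 : w + d + 2 * D + u' + 2 = (w + d + 2 * D + 2) + u' := by ring
        have e2 : (K₁ + 1 : ℝ) * lg n k m / k * n =
            K₁ * lg n k m / k * n + lg n k m / k * n := by ring
        rw [e1, pow_add, e2, Real.rpow_add (by norm_num)]
        refine mul_le_mul ha ?_ (by positivity) (by positivity)
        rw [← Real.rpow_natCast]
        exact Real.rpow_le_rpow_of_exponent_le (by norm_num) hu1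
      have h3 := tree_of2 hTSZ F ((K₁ + 1 : ℝ) * lg n k m / k) D d w u' hD hw (by omega) hEx hg'
        ha' S r line rule href U hO (fun l hl => by
          rw [hu']
          exact Nat.le_floor (hUU l hl))
      refine le_trans (Real.rpow_le_rpow_of_exponent_le (by norm_num) ?_) h3
      refine mul_le_mul_of_nonneg_right ?_ hn0.le
      have e3 : (K₁ + 1 : ℝ) * lg n k m / k ≤ K * lg n k m / k := by
        rw [mul_div_assoc, mul_div_assoc]
        exact mul_le_mul_of_nonneg_right (by linarith) hLk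
      linarith
    · refine le_trans (rpow_le_one' _ ?_) (one_le_S href)
      push Not at hc
      have h4 : (k : ℝ) ≤ K * lg n k m :=
        hc.le.trans (mul_le_mul_of_nonneg_right (by linarith) hL)
      have h5 : 1 ≤ (K : ℝ) * lg n k m / k := by rwa [le_div_iff₀ hk0, one_mul]
      exact mul_nonpos_of_nonpos_of_nonneg (by linarith) hn0.le
  · -- upper
    intro hm1 hm2
    obtain ⟨hun, hS⟩ := hU hm1 hm2
    obtain ⟨S, r, line, rule, href, hO, hN, hS2⟩ := hTRU n k m F hun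
    refine ⟨S, r, line, rule, href, hO, hN, le_trans ?_ hS⟩
    exact_mod_cast hS2
  · -- parts
    intro S r line rule href U V R hR1 hRk hO hUU ρ hρ
    obtain ⟨hlp0, hlp1⟩ := lp_nonneg (n := n) (m := m) hk hR1 hRk
    have hρ0 : 0 ≤ ρ * n :=
      le_trans (Nat.cast_nonneg _) (hρ r r ∅ [] (Or.inl rfl) Seg3.refl)
    have hρ1 : 0 ≤ ρ := by
      by_contra h
      push Not at h
      exact absurd hρ0 (not_le.2 (mul_neg_of_neg_of_pos h hn0))
    have htriv : 1 ≤ (K : ℝ) * lp n k m R → (2 : ℝ) ^ ((1 - ρ - K * lp n k m R) * n) ≤ S := by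
      intro h
      refine le_trans (rpow_le_one' _ ?_) (one_le_S href)
      exact mul_nonpos_of_nonpos_of_nonneg (by linarith) hn0.le
    rcases Nat.lt_or_ge R 2 with hR2 | hR2
    · obtain rfl : R = 1 := by omega
      rw [lp_one] at hUU hlp0 htriv ⊢
      by_cases hc : (K₁ : ℝ) * lg n k m ≤ k
      · obtain ⟨D, d, w, u, hD, hw, hnn, hEx, hu, hu3, hg, -, ha⟩ := hP1 hc
        have ha' : (2 : ℝ) ^ (0 + 2 * (w + d) + 2 * u + 2) * bl n (2 * D * 1) ≤
            (2 : ℝ) ^ ((((K₁ : ℝ) + 2) * ((Real.log k ^ 2 + lg n k m) / k)) * n) := by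
          have e1 : 0 + 2 * (w + d) + 2 * u + 2 = (2 * (w + d) + 2) + 2 * u := by ring
          have e2 : ((K₁ : ℝ) + 2) * ((Real.log k ^ 2 + lg n k m) / k) * n =
              K₁ * (Real.log k ^ 2 + lg n k m) / k * n +
                2 * ((Real.log k ^ 2 + lg n k m) / k * n) := by ring
          have e3 : (bl n (2 * D * 1) : ℝ) ≤ bl n (4 * D) := by
            exact_mod_cast bl_mono n _ _ (by omega)
          rw [e1, pow_add, e2, Real.rpow_add (by norm_num)]
          calc (2 : ℝ) ^ (2 * (w + d) + 2) * (2 : ℝ) ^ (2 * u) * bl n (2 * D * 1) ≤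
              (2 : ℝ) ^ (2 * (w + d) + 2) * (2 : ℝ) ^ (2 * u) * bl n (4 * D) :=
                mul_le_mul_of_nonneg_left e3 (by positivity)
            _ = ((2 : ℝ) ^ (2 * (w + d) + 2) * bl n (4 * D)) * (2 : ℝ) ^ (2 * u) := by ring
            _ ≤ _ := by
                refine mul_le_mul ha ?_ (by positivity) (by positivity)
                rw [← Real.rpow_natCast]
                refine Real.rpow_le_rpow_of_exponent_le (by norm_num) ?_
                push_cast
                linarith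
        have h3 := parts_of hRZ2 F (((K₁ : ℝ) + 2) * ((Real.log k ^ 2 + lg n k m) / k)) D d w u 1
          0 1 hD le_rfl le_rfl (by simp) (by omega) hnn hEx hg ha' S r line rule href U V hO
          (fun l hl => hu _ (hUU l hl)) ρ hρ
        refine le_trans (Real.rpow_le_rpow_of_exponent_le (by norm_num) ?_) h3
        refine mul_le_mul_of_nonneg_right ?_ hn0.le
        have := mul_le_mul_of_nonneg_right hK1 hlp0
        linarith
      · push Not at hc
        refine htriv ?_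
        have h4 : (k : ℝ) ≤ K * (Real.log k ^ 2 + lg n k m) := by
          refine hc.le.trans ?_
          refine mul_le_mul (by linarith) ?_ hL (Nat.cast_nonneg _)
          linarith [sq_nonneg (Real.log k)]
        rw [← mul_div_assoc]
        rwa [le_div_iff₀ hk0, one_mul]
    · by_cases hc : (K₃ : ℝ) * lp n k m R ≤ 1
      · obtain ⟨D, d, w, u, G, P, hD, hP, hPG, hw, hnn, hEx, hu, hg, ha⟩ := hP3 R hR2 hRk hc
        have h3 := parts_of hRZ2 F (K₃ * lp n k m R) D d w u R G P hD hR1 hP hPG hw hnn hEx hg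
          ha S r line rule href U V hO (fun l hl => hu _ (hUU l hl)) ρ hρ
        refine le_trans (Real.rpow_le_rpow_of_exponent_le (by norm_num) ?_) h3
        refine mul_le_mul_of_nonneg_right ?_ hn0.le
        have := mul_le_mul_of_nonneg_right hK3 hlp0
        linarith
      · push Not at hc
        refine htriv (hc.le.trans (mul_le_mul_of_nonneg_right hK3 hlp0))
  · -- lemmas
    intro S r line rule href U hO w₀
    have hb1 : (1 : ℝ) ≤
        (((U.filter fun l => w₀ < (line l).card).card : ℝ) + 1) ^ (3 / 2 : ℝ) := by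
      refine Real.one_le_rpow ?_ (by norm_num)
      have : (0 : ℝ) ≤ ((U.filter fun l => w₀ < (line l).card).card : ℝ) := Nat.cast_nonneg _
      linarith
    have hb2 : (1 : ℝ) ≤ (3 / 2 : ℝ) ^ w₀ := one_le_pow₀ (by norm_num)
    by_cases hc : (K₂ : ℝ) * (1 / Real.sqrt k + lg n k m / k) ≤ 1
    · obtain ⟨t, d, w, ht, hw, hwd, hnn, hEx, hg, -, hB, hC⟩ := hP2 hc
      have h3 := hLEM n k m F (K₂ * Real.log k * (1 / Real.sqrt k + lg n k m / k)) t d w ht hw hwd
        hnn hEx hg hB hC S r line rule href U hO w₀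
      have h4 : (2 : ℝ) ^ ((1 - K * Real.log k * (1 / Real.sqrt k + lg n k m / k)) * n) ≤
          (2 : ℝ) ^ ((1 - 10 * (K₂ * Real.log k * (1 / Real.sqrt k + lg n k m / k))) * n) := by
        refine Real.rpow_le_rpow_of_exponent_le (by norm_num) ?_
        refine mul_le_mul_of_nonneg_right ?_ hn0.le
        have h5 : 0 ≤ Real.log k * (1 / Real.sqrt k + lg n k m / k) := by positivity
        have h6 := mul_le_mul_of_nonneg_right hK2' h5
        linarith
      exact h4.trans (by convert h3)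
    · push Not at hc
      have h4 : 1 ≤ (K : ℝ) * Real.log k * (1 / Real.sqrt k + lg n k m / k) := by
        have h5 : (K₂ : ℝ) * (1 / Real.sqrt k + lg n k m / k) ≤
            K * Real.log k * (1 / Real.sqrt k + lg n k m / k) := by
          refine mul_le_mul_of_nonneg_right ?_ hs
          have : (0 : ℝ) ≤ K := Nat.cast_nonneg _
          nlinarith
        linarith
      refine le_trans (rpow_le_one' _ ?_) ?_
      · exact mul_nonpos_of_nonpos_of_nonneg (by linarith) hn0.le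
      · have h5 := one_le_S href
        have h6 : (1 : ℝ) ≤ S * (3 / 2 : ℝ) ^ w₀ := by nlinarith
        nlinarith
  · -- width
    intro S r line rule href
    by_cases hc : (K₂ : ℝ) * (1 / Real.sqrt k + lg n k m / k) ≤ 1
    · obtain ⟨t, d, w, ht, hw, -, hnn, hEx, hg, ha, -, -⟩ := hP2 hc
      obtain ⟨i, hi, h⟩ := width_of hWID F (K₂ * (1 / Real.sqrt k + lg n k m / k)) (2 * t) d w
        (by omega) (by omega) hnn hEx (fun x => Gd_mono (by omega) (hg x)) ha S r line rule href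
      refine ⟨i, hi, le_trans (mul_le_mul_of_nonneg_right ?_ hn0.le) h⟩
      have := mul_le_mul_of_nonneg_right hK2 hs
      linarith
    · refine ⟨r, href.1, ?_⟩
      push Not at hc
      have := mul_le_mul_of_nonneg_right hK2 hs
      refine le_trans (mul_nonpos_of_nonpos_of_nonneg (by linarith) hn0.le) (Nat.cast_nonneg _)
  · -- general
    intro S r line rule href
    by_cases hc : (K₂ : ℝ) * (1 / Real.sqrt k + lg n k m / k) ≤ 1
    · obtain ⟨t, d, w, ht, hw, -, hnn, hEx, hg, -, hB, hC⟩ := hP2 hc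
      have h3 := general_ofS hGSZ F (K₂ * Real.log k * (1 / Real.sqrt k + lg n k m / k)) t d w ht hw
        hEx hg hB hC S r line rule href
      refine le_trans (mul_le_mul_of_nonneg_left
        (Real.rpow_le_rpow_of_exponent_le (by norm_num) ?_) (by positivity)) h3
      have h4 : (K₂ : ℝ) * Real.log k * (1 / Real.sqrt k + lg n k m / k) * n ≤
          K * Real.log k * (1 / Real.sqrt k + lg n k m / k) * n := by gcongr
      linarith
    · push Not at hc
      refine le_trans ?_ (one_le_S href)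
      have h4 : 1 ≤ (K : ℝ) * Real.log k * (1 / Real.sqrt k + lg n k m / k) := by
        have h5 : (K₂ : ℝ) * (1 / Real.sqrt k + lg n k m / k) ≤
            K * Real.log k * (1 / Real.sqrt k + lg n k m / k) := by
          refine mul_le_mul_of_nonneg_right ?_ hs
          have : (0 : ℝ) ≤ K := Nat.cast_nonneg _
          nlinarith
        linarith
      have h6 : (2 : ℝ) ^ (-(K * Real.log k * (1 / Real.sqrt k + lg n k m / k) * n)) ≤
          (2 : ℝ) ^ (-(n : ℝ)) := by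
        refine Real.rpow_le_rpow_of_exponent_le (by norm_num) ?_
        have := mul_le_mul_of_nonneg_right h4 hn0.le
        linarith
      refine le_trans (mul_le_mul_of_nonneg_left h6 (by positivity)) ?_
      rw [Real.rpow_neg (by norm_num), Real.rpow_natCast, ← div_eq_mul_inv, ← div_pow]
      exact pow_le_one₀ (by norm_num) (by norm_num)

end Pool.Agent.H41.SS
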