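import Pool.Agent.H41.SS.Fin3
import Pool.Agent.H41.SS.Fin4

/-!
Resolution on random k-CNFs, the exact savings (MP_c62aed_lc): union bounds and the theorem, with
the number of parts.
-/

set_option autoImplicit false

namespace Pool.Agent.H41.SS

open Finset Pool.Agent.H97.RK Pool.Agent.H97.RL

open Classical in
/-- good assignments are frequent: one choice of the numbers -/
theorem one_ev (hAVG : T_AVG) {n k m : ℕ} (Q : Finset (Fml n k m)) (hQ : Cnt Q)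
    (D d w u : ℕ) (hn : 1 ≤ n) (hdw : u + w + d ≤ n) (η : ℝ)
    (hη : (n.choose d : ℝ) * n.choose w * m.choose D *
        (((n : ℝ) - d + w) / (2 * n)) ^ (k * D) * 2 ^ (u + 1) ≤ η) :
    ((Q.filter fun F => ¬ Nat.card {z // ¬ Gd F D d w z} * 2 ^ (u + 1) ≤ 2 ^ n).card : ℝ) ≤
      η * Q.card := by
  have hn0 : (0 : ℝ) < n := by exact_mod_cast hn
  have hηn : (0 : ℝ) ≤ (n.choose d : ℝ) * n.choose w * m.choose D *
      (((n : ℝ) - d + w) / (2 * n)) ^ (k * D) := by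
    have h3 : (0 : ℝ) ≤ ((n : ℝ) - d + w) / (2 * n) := by
      have : (d : ℝ) ≤ n := by
        have : d ≤ n := by omega
        exact_mod_cast this
      have h5 : (0 : ℝ) ≤ w := Nat.cast_nonneg _
      refine div_nonneg (by linarith) (by linarith)
    positivity
  have h3 := hAVG n k m u Q (fun F x => ¬ Gd F D d w x) _ hηn (fun x => by
    convert hQ.gx D d w (by omega) x)
  refine le_trans (Nat.cast_le.2 (card_le_card fun F hF => ?_))
    (h3.trans (mul_le_mul_of_nonneg_right hη (Nat.cast_nonneg _)))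
  rw [mem_filter] at hF ⊢
  refine ⟨hF.1, fun h => hF.2 ?_⟩
  rw [Nat.card_eq_fintype_card, Fintype.card_subtype]
  convert h

open Classical in
/-- the first event -/
theorem ev1t (hAVG : T_AVG) (hNM3 : T_NM3) (hNEX : T_NEX) : ∃ K₁ K₀ : ℕ, 1 ≤ K₀ ∧
    ∀ k n m : ℕ, K₀ ≤ k → K₀ * k ≤ n → ∀ Q : Finset (Fml n k m), Cnt Q →
    ((Q.filter fun F => ¬ Pt1 K₁ n k m F).card : ℝ) ≤ 1 / (8 * n) * Q.card := by
  obtain ⟨K, hK, h1⟩ := hNM3
  obtain ⟨K', hK', h2⟩ := hNEX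
  refine ⟨K + 2, K + K', by omega, fun k n m hk hn Q hQ => ?_⟩
  have hk1 : 1 ≤ k := by omega
  have hkn : k ≤ n := le_trans (Nat.le_mul_of_pos_left k (by omega)) hn
  have hn1 : 1 ≤ n := by omega
  have hn1' : (1 : ℝ) ≤ n := by exact_mod_cast hn1
  have hn0 : (0 : ℝ) < n := by exact_mod_cast hn1
  have hk0 : (0 : ℝ) < k := by exact_mod_cast hk1
  have hKn : K * k ≤ n := le_trans (Nat.mul_le_mul_right _ (by omega)) hn
  have hKn' : K' * k ≤ n := le_trans (Nat.mul_le_mul_right _ (by omega)) hn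
  have hL := lg_nonneg (n := n) (k := k) (m := m) hk1
  by_cases hc : ((K + 2 : ℕ) : ℝ) * lg n k m ≤ k
  · have hc' : (K : ℝ) * lg n k m ≤ k := by
      refine le_trans (mul_le_mul_of_nonneg_right ?_ hL) hc
      push_cast
      linarith
    have hm : m ≤ 4 ^ k * n := m_le_of_lg (K + 2) (by omega) hk1 hn1 hc
    obtain ⟨D, d, w, u, hD, h64, hw, hnn, hu, hu3, hη, hT, hR⟩ := h1 k n m (by omega) hKn hc'
    have hη' : (1 : ℝ) / (16 * n ^ 2) ≤ 1 / (16 * n) := by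
      refine one_div_le_one_div_of_le (by positivity) ?_
      nlinarith
    have h4 := one_ev hAVG Q hQ D d w u hn1 hnn (1 / (16 * n)) (hη.trans hη')
    have h5 : ((Q.filter fun F => ¬ Ex F D).card : ℝ) ≤ 1 / (16 * n) * Q.card :=
      (hQ.ex D (by omega)).trans (mul_le_mul_of_nonneg_right
        (h2 k n m D (by omega) hKn' hm h64) (Nat.cast_nonneg _))
    have hh : ∀ F : Fml n k m, Ex F D →
        Nat.card {z // ¬ Gd F D d w z} * 2 ^ (u + 1) ≤ 2 ^ n → Pt1 (K + 2) n k m F := by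
      intro F hE hg _
      refine ⟨D, d, w, u, hD, hw, hnn, hE, hu, hu3, hg, hT.trans ?_, hR.trans ?_⟩
      · refine Real.rpow_le_rpow_of_exponent_le (by norm_num) ?_
        have hK2 : (K : ℝ) ≤ ((K + 2 : ℕ) : ℝ) := by
          push_cast
          linarith
        gcongr
      · refine Real.rpow_le_rpow_of_exponent_le (by norm_num) ?_
        have hK2 : (K : ℝ) ≤ ((K + 2 : ℕ) : ℝ) := by
          push_cast
          linarith
        gcongr
    have h6 : ((Q.filter fun F => ¬ Pt1 (K + 2) n k m F).card : ℝ) ≤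
        (1 / (16 * n) + 1 / (16 * n)) * Q.card := or_bound Q (fun F => Pt1 (K + 2) n k m F)
      (fun F => Ex F D)
      (fun F => Nat.card {z // ¬ Gd F D d w z} * 2 ^ (u + 1) ≤ 2 ^ n)
      (1 / (16 * (n : ℝ))) (1 / (16 * (n : ℝ))) hh h5 h4
    refine le_trans h6 (le_of_eq ?_)
    congr 1
    field_simp
    norm_num
  · have h3 : (Q.filter fun F => ¬ Pt1 (K + 2) n k m F) = ∅ := by
      rw [filter_eq_empty_iff]
      intro F _ h
      exact h fun h' => absurd h' hc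
    rw [h3, card_empty, Nat.cast_zero]
    positivity

open Classical in
/-- the second event -/
theorem ev2t (hNM2 : T_NM2) (hNEX : T_NEX) : ∃ K₁ K₀ : ℕ, 1 ≤ K₀ ∧
    ∀ k n m : ℕ, K₀ ≤ k → K₀ * k ≤ n → ∀ Q : Finset (Fml n k m), Cnt Q →
    ((Q.filter fun F => ¬ Pt2 K₁ n k m F).card : ℝ) ≤ 1 / (8 * n) * Q.card := by
  obtain ⟨K, hK, h1⟩ := hNM2
  obtain ⟨K', hK', h2⟩ := hNEX
  refine ⟨K + 2, K + K', by omega, fun k n m hk hn Q hQ => ?_⟩
  have hk1 : 1 ≤ k := by omega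
  have hkn : k ≤ n := le_trans (Nat.le_mul_of_pos_left k (by omega)) hn
  have hn1 : 1 ≤ n := by omega
  have hn0 : (0 : ℝ) < n := by exact_mod_cast hn1
  have hk0 : (1 : ℝ) ≤ k := by exact_mod_cast hk1
  have hKn : K * k ≤ n := le_trans (Nat.mul_le_mul_right _ (by omega)) hn
  have hKn' : K' * k ≤ n := le_trans (Nat.mul_le_mul_right _ (by omega)) hn
  have hL := lg_nonneg (n := n) (k := k) (m := m) hk1
  have hs : 0 ≤ 1 / Real.sqrt k + lg n k m / k := by positivity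
  have hlog : 0 ≤ Real.log k := Real.log_nonneg hk0
  by_cases hc : ((K + 2 : ℕ) : ℝ) * (1 / Real.sqrt k + lg n k m / k) ≤ 1
  · have hc' : (K : ℝ) * (1 / Real.sqrt k + lg n k m / k) ≤ 1 := by
      refine le_trans (mul_le_mul_of_nonneg_right ?_ hs) hc
      push_cast
      linarith
    have hc2 : ((K + 2 : ℕ) : ℝ) * lg n k m ≤ k := by
      have h3 : ((K + 2 : ℕ) : ℝ) * (lg n k m / k) ≤ 1 := by
        refine le_trans (mul_le_mul_of_nonneg_left ?_ (Nat.cast_nonneg _)) hc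
        have : 0 ≤ 1 / Real.sqrt k := by positivity
        linarith
      rwa [← mul_div_assoc, div_le_one (by linarith)] at h3
    have hm : m ≤ 4 ^ k * n := m_le_of_lg (K + 2) (by omega) hk1 hn1 hc2
    obtain ⟨t, d, w, ht, h64, hw, hwd, hnn, hη, hT, hR, hC⟩ := h1 k n m (by omega) hKn hc'
    have h4 : ((Q.filter fun F => ¬ ∀ x, Gd F t d w x).card : ℝ) ≤ 1 / (16 * n) * Q.card :=
      (hQ.gy t d w hwd (by omega)).trans
        (mul_le_mul_of_nonneg_right hη (Nat.cast_nonneg _))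
    have h5 : ((Q.filter fun F => ¬ Ex F (2 * t)).card : ℝ) ≤ 1 / (16 * n) * Q.card :=
      (hQ.ex (2 * t) (by omega)).trans (mul_le_mul_of_nonneg_right
        (h2 k n m (2 * t) (by omega) hKn' hm (by omega)) (Nat.cast_nonneg _))
    have hh : ∀ F : Fml n k m, Ex F (2 * t) → (∀ x, Gd F t d w x) →
        Pt2 (K + 2) n k m F := by
      intro F hE hg _
      have hK2 : (K : ℝ) ≤ ((K + 2 : ℕ) : ℝ) := by
        push_cast
        linarith
      refine ⟨t, d, w, ht, hw, hwd, hnn, hE, hg, hT.trans ?_, hR.trans ?_, hC⟩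
      · gcongr
      · refine Real.rpow_le_rpow_of_exponent_le (by norm_num) ?_
        gcongr
    have h6 : ((Q.filter fun F => ¬ Pt2 (K + 2) n k m F).card : ℝ) ≤
        (1 / (16 * n) + 1 / (16 * n)) * Q.card := or_bound Q (fun F => Pt2 (K + 2) n k m F)
      (fun F => Ex F (2 * t))
      (fun F => ∀ x, Gd F t d w x) (1 / (16 * (n : ℝ))) (1 / (16 * (n : ℝ))) hh h5 h4
    refine le_trans h6 (le_of_eq ?_)
    congr 1
    field_simp
    norm_num
  · have h3 : (Q.filter fun F => ¬ Pt2 (K + 2) n k m F) = ∅ := by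
      rw [filter_eq_empty_iff]
      intro F _ h
      exact h fun h' => absurd h' hc
    rw [h3, card_empty, Nat.cast_zero]
    positivity

/-- the conditions on the numbers for several parts, one number of parts -/
def PtR1 (K n k m R : ℕ) (F : Fml n k m) : Prop :=
  (K : ℝ) * lp n k m R ≤ 1 → ∃ D d w u G P : ℕ, 1 ≤ D ∧ 1 ≤ P ∧ 64 * D ≤ n ∧
    (R - 1) * n ≤ P * G ∧ 2 * D * P + 6 * D ≤ w ∧ u + w + d ≤ n ∧
    (∀ a : ℕ, (a : ℝ) ≤ lp n k m R * n → a ≤ u) ∧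
    Nat.card {z // ¬ Gd F D d w z} * 2 ^ (u + 1) ≤ 2 ^ n ∧
    (2 : ℝ) ^ (G + 2 * (w + d) + 2 * u + 2) * bl n (2 * D * P) ≤
      (2 : ℝ) ^ (K * lp n k m R * n)

open Classical in
theorem all_bound {α : Type} (Q : Finset α) (T : Finset ℕ) (B : ℕ → α → Prop) (η : ℝ)
    (h : ∀ R ∈ T, ((Q.filter fun F => ¬ B R F).card : ℝ) ≤ η * Q.card) :
    ((Q.filter fun F => ¬ ∀ R ∈ T, B R F).card : ℝ) ≤ T.card * η * Q.card := by
  have h1 : (Q.filter fun F => ¬ ∀ R ∈ T, B R F) ⊆ T.biUnion fun R => Q.filter fun F => ¬ B R F := by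
    intro F hF
    rw [mem_filter] at hF
    obtain ⟨hQ, hF⟩ := hF
    push Not at hF
    obtain ⟨R, hR, hB⟩ := hF
    rw [mem_biUnion]
    exact ⟨R, hR, mem_filter.2 ⟨hQ, hB⟩⟩
  have h2 : ((Q.filter fun F => ¬ ∀ R ∈ T, B R F).card : ℝ) ≤
      ∑ R ∈ T, ((Q.filter fun F => ¬ B R F).card : ℝ) := by
    exact_mod_cast (card_le_card h1).trans card_biUnion_le
  refine h2.trans ((sum_le_sum h).trans ?_)
  rw [sum_const, nsmul_eq_mul, mul_assoc]

open Classical in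
/-- the event of several parts -/
theorem evR (hAVG : T_AVG) (hNM4 : T_NM4) (hNEX : T_NEX) : ∃ K₁ K₀ : ℕ, 1 ≤ K₀ ∧
    ∀ k n m : ℕ, K₀ ≤ k → K₀ * k ≤ n → ∀ Q : Finset (Fml n k m), Cnt Q →
    ((Q.filter fun F => ¬ PtR K₁ n k m F).card : ℝ) ≤ 1 / (8 * n) * Q.card := by
  obtain ⟨K, hK, h1⟩ := hNM4
  obtain ⟨K', hK', h2⟩ := hNEX
  refine ⟨K + 2, K + K' + 3, by omega, fun k n m hk hn Q hQ => ?_⟩
  have hk3 : 3 ≤ k := by omega
  have hk1 : 1 ≤ k := by omega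
  have hkn : k ≤ n := le_trans (Nat.le_mul_of_pos_left k (by omega)) hn
  have hkn' : (k : ℝ) ≤ n := by exact_mod_cast hkn
  have hn1 : 1 ≤ n := by omega
  have hn0 : (0 : ℝ) < n := by exact_mod_cast hn1
  have hk0 : (0 : ℝ) < k := by exact_mod_cast hk1
  have hKn : K * k ≤ n := le_trans (Nat.mul_le_mul_right _ (by omega)) hn
  have hKn' : K' * k ≤ n := le_trans (Nat.mul_le_mul_right _ (by omega)) hn
  have hL := lg_nonneg (n := n) (k := k) (m := m) hk1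
  have hQ0 : (0 : ℝ) ≤ Q.card := Nat.cast_nonneg _
  have hlpc : ∀ R : ℕ, 2 ≤ R → R ≤ k → ((K + 2 : ℕ) : ℝ) * lp n k m R ≤ 1 →
      ((K + 2 : ℕ) : ℝ) * lg n k m ≤ k := by
    intro R hR2 hRk hc
    obtain ⟨-, h3⟩ := lp_nonneg (n := n) (m := m) hk3 (by omega : 1 ≤ R) hRk
    have h4 : lg n k m / k ≤ lp n k m R := by
      refine le_trans (div_le_div_of_nonneg_right ?_ hk0.le) h3
      linarith [sq_nonneg (Real.log k)]
    have h5 : ((K + 2 : ℕ) : ℝ) * (lg n k m / k) ≤ 1 :=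
      (mul_le_mul_of_nonneg_left h4 (Nat.cast_nonneg _)).trans hc
    rwa [← mul_div_assoc, div_le_one hk0] at h5
  by_cases hc : ((K + 2 : ℕ) : ℝ) * lg n k m ≤ k
  · have hm : m ≤ 4 ^ k * n := m_le_of_lg (K + 2) (by omega) hk1 hn1 hc
    have h5 : ((Q.filter fun F => ¬ Ex F (n / 64)).card : ℝ) ≤ 1 / (16 * n) * Q.card :=
      (hQ.ex (n / 64) (by omega)).trans (mul_le_mul_of_nonneg_right
        (h2 k n m (n / 64) (by omega) hKn' hm (by omega)) (Nat.cast_nonneg _))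
    have h6 : ∀ R ∈ Icc 2 k, ((Q.filter fun F => ¬ PtR1 (K + 2) n k m R F).card : ℝ) ≤
        1 / (16 * n ^ 2) * Q.card := by
      intro R hR
      rw [mem_Icc] at hR
      obtain ⟨hR2, hRk⟩ := hR
      by_cases hc3 : ((K + 2 : ℕ) : ℝ) * lp n k m R ≤ 1
      · obtain ⟨hlp0, -⟩ := lp_nonneg (n := n) (m := m) hk3 (by omega : 1 ≤ R) hRk
        have hK2 : (K : ℝ) ≤ ((K + 2 : ℕ) : ℝ) := by
          push_cast
          linarith
        obtain ⟨D, d, w, u, G, P, hD, hP, h64, hPG, hw, hnn, hu, hη, hT⟩ :=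
          h1 k n m R (by omega) hKn hR2 hRk ((mul_le_mul_of_nonneg_right hK2 hlp0).trans hc3)
        have h4 := one_ev hAVG Q hQ D d w u hn1 hnn _ hη
        refine le_trans (Nat.cast_le.2 (card_le_card fun F hF => ?_)) h4
        rw [mem_filter] at hF ⊢
        refine ⟨hF.1, fun h => hF.2 fun _ => ⟨D, d, w, u, G, P, hD, hP, h64, hPG, hw, hnn, hu, h,
          hT.trans ?_⟩⟩
        refine Real.rpow_le_rpow_of_exponent_le (by norm_num) ?_
        gcongr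
      · have h3 : (Q.filter fun F => ¬ PtR1 (K + 2) n k m R F) = ∅ := by
          rw [filter_eq_empty_iff]
          intro F _ h
          exact h fun h' => absurd h' hc3
        rw [h3, card_empty, Nat.cast_zero]
        positivity
    have h7 := all_bound Q (Icc 2 k) (fun R F => PtR1 (K + 2) n k m R F) _ h6
    have h8 : ((Icc 2 k).card : ℝ) * (1 / (16 * n ^ 2)) ≤ 1 / (16 * n) := by
      have h9 : ((Icc 2 k).card : ℝ) ≤ n := by
        rw [Nat.card_Icc]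
        have : k + 1 - 2 ≤ n := by omega
        exact_mod_cast this
      calc ((Icc 2 k).card : ℝ) * (1 / (16 * n ^ 2)) ≤ n * (1 / (16 * n ^ 2)) :=
            mul_le_mul_of_nonneg_right h9 (by positivity)
        _ = 1 / (16 * n) := by
            field_simp
    have h9 : ((Q.filter fun F => ¬ ∀ R ∈ Icc 2 k, PtR1 (K + 2) n k m R F).card : ℝ) ≤
        1 / (16 * n) * Q.card := h7.trans (mul_le_mul_of_nonneg_right h8 hQ0)
    have hh : ∀ F : Fml n k m, Ex F (n / 64) → (∀ R ∈ Icc 2 k, PtR1 (K + 2) n k m R F) →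
        PtR (K + 2) n k m F := by
      intro F hE hg R hR2 hRk hcR
      obtain ⟨D, d, w, u, G, P, hD, hP, h64, hPG, hw, hnn, hu, hgd, hT⟩ :=
        hg R (mem_Icc.2 ⟨hR2, hRk⟩) hcR
      exact ⟨D, d, w, u, G, P, hD, hP, hPG, hw, hnn, Ex_mono (by omega) hE, hu, hgd, hT⟩
    have h10 : ((Q.filter fun F => ¬ PtR (K + 2) n k m F).card : ℝ) ≤
        (1 / (16 * n) + 1 / (16 * n)) * Q.card := or_bound Q (fun F => PtR (K + 2) n k m F)
      (fun F => Ex F (n / 64)) (fun F => ∀ R ∈ Icc 2 k, PtR1 (K + 2) n k m R F)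
      (1 / (16 * (n : ℝ))) (1 / (16 * (n : ℝ))) hh h5 h9
    refine le_trans h10 (le_of_eq ?_)
    congr 1
    field_simp
    norm_num
  · have h3 : (Q.filter fun F => ¬ PtR (K + 2) n k m F) = ∅ := by
      rw [filter_eq_empty_iff]
      intro F _ h
      exact h fun R hR2 hRk hcR => absurd (hlpc R hR2 hRk hcR) hc
    rw [h3, card_empty, Nat.cast_zero]
    positivity

open Classical in
theorem evB (hTSZ : T_TSZ) (hRZ2 : T_RZ2) (hWID : T_WID) (hGSZ : T_GSZ) (hTRU : T_TRU)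
    (hLEM : T_LEM)
    (hAVG : T_AVG) (hNEX : T_NEX) (hNM3 : T_NM3) (hNM4 : T_NM4) (hNM2 : T_NM2) (hNUP : T_NUP) :
    ∃ K : ℕ, 3 ≤ K ∧ ∀ k n m : ℕ, K ≤ k → K * k ≤ n → ∀ Q : Finset (Fml n k m), Cnt Q →
      (n : ℝ) * (Q.filter fun F => ¬ HdU (K : ℝ) F).card ≤ Q.card := by
  obtain ⟨K₁, K₁', hK1, h1⟩ := ev1t hAVG hNM3 hNEX
  obtain ⟨K₂, K₂', hK2, h2⟩ := ev2t hNM2 hNEX
  obtain ⟨K₃, hK3, h3⟩ := ev3 hNUP
  obtain ⟨K₄, K₄', hK4, h4⟩ := evR hAVG hNM4 hNEX
  obtain ⟨K, hK⟩ : ∃ K, K = K₁ + K₁' + 10 * K₂ + K₂' + K₃ + K₄ + K₄' + 3 := ⟨_, rfl⟩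
  refine ⟨K, by omega, fun k n m hk hn Q hQ => ?_⟩
  have hle : ∀ a : ℕ, a ≤ K → a * k ≤ n := fun a ha =>
    le_trans (Nat.mul_le_mul_right _ ha) hn
  have hkn : k ≤ n := by
    have := hle 1 (by omega)
    omega
  have hn0 : (0 : ℝ) < n := by
    have : 0 < n := by omega
    exact_mod_cast this
  have e1 := h1 k n m (by omega) (hle _ (by omega)) Q hQ
  have e2 := h2 k n m (by omega) (hle _ (by omega)) Q hQ
  have e3 := h3 k n m (by omega) (hle _ (by omega)) Q hQ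
  have e4 := h4 k n m (by omega) (hle _ (by omega)) Q hQ
  have e12 : ((Q.filter fun F => ¬ (Pt1 K₁ n k m F ∧ Pt2 K₂ n k m F)).card : ℝ) ≤
      (1 / (8 * n) + 1 / (8 * n)) * Q.card := or_bound Q _ (fun F => Pt1 K₁ n k m F)
    (fun F => Pt2 K₂ n k m F) (1 / (8 * (n : ℝ))) (1 / (8 * (n : ℝ)))
    (fun F ha hb => ⟨ha, hb⟩) e1 e2
  have e34 : ((Q.filter fun F => ¬ (Pr3 n k m F ∧ PtR K₄ n k m F)).card : ℝ) ≤
      (1 / (8 * n) + 1 / (8 * n)) * Q.card := or_bound Q _ (fun F => Pr3 n k m F)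
    (fun F => PtR K₄ n k m F) (1 / (8 * (n : ℝ))) (1 / (8 * (n : ℝ)))
    (fun F ha hb => ⟨ha, hb⟩) e3 e4
  have e : ((Q.filter fun F => ¬ HdU (K : ℝ) F).card : ℝ) ≤
      ((1 / (8 * n) + 1 / (8 * n)) + (1 / (8 * n) + 1 / (8 * n))) * Q.card := or_bound Q _
    (fun F => Pt1 K₁ n k m F ∧ Pt2 K₂ n k m F) (fun F => Pr3 n k m F ∧ PtR K₄ n k m F)
    (1 / (8 * (n : ℝ)) + 1 / (8 * (n : ℝ))) (1 / (8 * (n : ℝ)) + 1 / (8 * (n : ℝ)))
    (fun F ha hb => HdU_of hTSZ hRZ2 hWID hGSZ hTRU hLEM F _ K₁ K₂ K₄ (by omega) (by omega)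
      (by omega) (by omega) (by omega) ha.1 ha.2 hb.2 hb.1) e12 e34
  have e' := mul_le_mul_of_nonneg_left e hn0.le
  have h4 : (n : ℝ) * (((1 / (8 * n) + 1 / (8 * n)) + (1 / (8 * n) + 1 / (8 * n))) * Q.card) =
      1 / 2 * Q.card := by
    field_simp
    ring
  have h5 : (0 : ℝ) ≤ Q.card := Nat.cast_nonneg _
  rw [h4] at e'
  linarith

theorem pf_FIN2 (hTSZ : T_TSZ) (hRZ2 : T_RZ2) (hWID : T_WID) (hGSZ : T_GSZ) (hTRU : T_TRU)
    (hLEM : T_LEM)
    (hAVG : T_AVG) (hNEX : T_NEX) (hNM3 : T_NM3) (hNM4 : T_NM4) (hNM2 : T_NM2) (hNUP : T_NUP)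
    (hPGX : T_PGX) (hPEX : T_PEX) (hPX2 : T_PX2) (hPSA : T_PSA) (hPAL : T_PAL)
    (hDGX : T_DGX) (hDEX : T_DEX) (hDAL : T_DAL) : MainSU := by
  classical
  obtain ⟨K, hK, h⟩ := evB hTSZ hRZ2 hWID hGSZ hTRU hLEM hAVG hNEX hNM3 hNM4 hNM2 hNUP
  refine ⟨K, by omega, fun k n m hk hn => ?_⟩
  have hkn : k < n := by
    have : 3 * k ≤ n := (Nat.mul_le_mul_right _ hK).trans hn
    omega
  constructor
  · have h3 := h k n m hk hn univ (cnt_iid hPGX hPEX hPX2 hPSA hPAL n k m hkn)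
    have h4 : (Nat.card {F : Fml n k m // ¬ HdU (K : ℝ) F} : ℝ) ≤
        (univ.filter fun F : Fml n k m => ¬ HdU (K : ℝ) F).card :=
      natcard_le _ _ fun F hF => hF
    have h5 : ((Nat.card (Fml n k m) : ℕ) : ℝ) = ((univ : Finset (Fml n k m)).card : ℕ) := by
      rw [Nat.card_eq_fintype_card, card_univ]
    rw [h5]
    exact (mul_le_mul_of_nonneg_left h4 (Nat.cast_nonneg _)).trans h3
  · have h3 := h k n m hk hn _ (cnt_dist hDGX hDEX hDAL n k m hkn)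
    have h4 : (Nat.card {F : Fml n k m // Dist F ∧ ¬ HdU (K : ℝ) F} : ℝ) ≤
        ((univ.filter fun F : Fml n k m => Dist F).filter
          fun F : Fml n k m => ¬ HdU (K : ℝ) F).card := by
      rw [filter_filter]
      exact natcard_le _ _ fun F hF => hF
    have h5 : ((Nat.card {F : Fml n k m // Dist F} : ℕ) : ℝ) =
        ((univ.filter fun F : Fml n k m => Dist F).card : ℕ) := by
      rw [Nat.card_eq_fintype_card, Fintype.card_subtype]
    rw [h5]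
    exact (mul_le_mul_of_nonneg_left h4 (Nat.cast_nonneg _)).trans h3

end Pool.Agent.H41.SS
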