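import Pool.Agent.H41.SS.Targets2
import Pool.Agent.H70.SSM.RUN

/-!
Resolution on random k-CNFs, the exact savings (MP_c62aed_lc): regular refutations without a ball.
The assignments which the adversary may have in mind at the end of the first phase are counted
instead of the assignments from which they come.
-/

set_option autoImplicit false

namespace Pool.Agent.H41.SS

open Finset Pool.Agent.H97.RK Pool.Agent.H97.RL
open Pool.Agent.H70.SSM (Inv stepX noAxS)
open Pool.Agent.H78.RLM (fls_congr)
open Pool.Agent.H97.RLM (vs_ext fls_ext step3)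

/-- the assignment falsifies one of the wide clauses -/
def Wd {n : ℕ} (S : ℕ) (line : ℕ → Clause n) (an : ℕ → ℕ) (ls : ℕ → List (Fin n × Bool)) (g : ℕ)
    (y : Fin n → Bool) : Prop :=
  ∃ i, i < S ∧ Falsified (exC (line (an i)) (ls i)) y ∧
    n ≤ (vs (exC (line (an i)) (ls i))).card + g

open Classical in
/-- (RZ3) the size of refutations in which few variables are resolved in two parts. -/
def T_RZ3 : Prop :=
  ∀ (n k m : ℕ) (F : Fml n k m) (D d w u h : ℕ), 1 ≤ D → 8 * D ≤ w → u + w + d ≤ n → Ex F D →
    (univ.filter fun z => ¬ Gd F D d w z).card * 2 ^ (u + 1) ≤ 2 ^ n →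
    ∀ (S r : ℕ) (line : ℕ → Clause n) (rule : ℕ → Rule n), IsRef F S r line rule →
    ∀ U V : Finset ℕ, Once S rule (U ∪ V) → (∀ l ∈ U, (vs (line l)).card ≤ u) →
    (∀ (a i : ℕ) (q : Finset (Fin n)) (l : List (Fin n)), (a = r ∨ a ∈ U) →
      Seg3 rule U V a i q l → (univ.filter fun v => 1 < l.count v).card ≤ h) →
    2 ^ n ≤ S * 2 ^ (h + 2 * (w + d) + 2 * D + 2 * u + 2)

section

variable {n k m : ℕ} {F : Fml n k m} {D d w u h : ℕ} {S r : ℕ} {line : ℕ → Clause n}
  {rule : ℕ → Rule n} {U V : Finset ℕ} {an : ℕ → ℕ} {ls : ℕ → List (Fin n × Bool)} {l : ℕ}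

/-- the second phase does not end -/
theorem phase1 (hSTP : T_STP) (hRSR : T_RSR) (hw : 8 * D ≤ w) (hG : Goo F D d w u)
    (hun : u + w + d ≤ n) (href : IsRef F S r line rule) (hT : Tree S r rule (U ∪ V) an ls)
    (hU : ∀ l ∈ U, (vs (line l)).card ≤ u)
    (hseg : ∀ (a i : ℕ) (q : Finset (Fin n)) (l : List (Fin n)), (a = r ∨ a ∈ U) →
      Seg3 rule U V a i q l → (univ.filter fun v => 1 < l.count v).card ≤ h)
    (hlr : l ≤ r) (hlU : l ∈ U ∨ l = r) (hlu : (vs (line l)).card ≤ u) {x : Fin n → Bool}
    (hx : Gd F D d w x) (l0 : List (Fin n)) (E0 A0 : Finset (Fin n)) (b : ℕ)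
    (hb : b + 6 * D ≤ w) (hE0 : E0.card + (h + 2 * (w + d) + u + 1) < n)
    (hA0 : n ≤ A0.card + w + d) (hl0 : ∀ v ∈ A0, v ∉ vs (line l) → 0 < l0.count v) :
    ∀ i, i < S → i ≤ l → ∀ (q : Finset (Fin n)) (l1 : List (Fin n)) (y : Fin n → Bool)
      (A W : Finset (Fin n)) (J : Finset (Fin m)),
      Inv F D b line rule U V an ls l x i q l1 y A W J →
      (∀ v, l0.count v ≤ l1.count v) → (∀ v ∈ A, v ∉ E0 → l0.count v < l1.count v) →
      ∃ l', l' < l ∧ l' ∈ U ∧ AtS F D line l' := by
  intro i
  induction i using Nat.strong_induction_on with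
  | _ i ih =>
    intro hi hil q l1 y A W J hI hle hlt
    have hAc : A.card + 1 + w + d ≤ n := by
      have h1 : A ⊆ E0 ∪ (A0ᶜ ∪ (vs (line l) ∪ univ.filter fun v => 1 < l1.count v)) := by
        intro v hv
        by_cases hvE : v ∈ E0
        · exact mem_union_left _ hvE
        · apply mem_union_right
          by_cases hvA : v ∈ A0
          · apply mem_union_right
            by_cases hvl : v ∈ vs (line l)
            · exact mem_union_left _ hvl
            · apply mem_union_right
              rw [mem_filter]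
              have h2 := hl0 v hvA hvl
              have h3 := hlt v hv hvE
              exact ⟨mem_univ _, by omega⟩
          · apply mem_union_left
            rw [mem_compl]
            exact hvA
      have h2 := card_le_card h1
      have h3 := card_union_le E0 (A0ᶜ ∪ (vs (line l) ∪ univ.filter fun v => 1 < l1.count v))
      have h4 := card_union_le A0ᶜ (vs (line l) ∪ univ.filter fun v => 1 < l1.count v)
      have h5 := card_union_le (vs (line l)) (univ.filter fun v => 1 < l1.count v)
      have h6 := hseg l i q l1 hlU.symm hI.seg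
      have h7 : A0ᶜ.card = n - A0.card := by
        rw [card_compl, Fintype.card_fin]
      omega
    rcases stepX hSTP hRSR hw hG hun href hT hU hlr hx hb hi hil hI hAc with h1 | h1
    · exact h1
    · obtain ⟨i', q', l1', y', A', W', J', hi', hI', hcle, hclt⟩ := h1
      refine ih i' hi' (by omega) (by omega) q' l1' y' A' W' J' hI'
        (fun v => (hle v).trans (hcle v)) fun v hv hvE => ?_
      by_cases hvA : v ∈ A
      · exact (hlt v hvA hvE).trans_le (hcle v)
      · exact (hle v).trans_lt (hclt v hv hvA)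

/-- the state with another assignment outside of the known and the reserved variables -/
theorem inv_z (hTRN : T_TRN) {i : ℕ} {q : Finset (Fin n)} {l1 : List (Fin n)}
    {y : Fin n → Bool} {A W : Finset (Fin n)} {J : Finset (Fin m)}
    (hI : Inv F D 0 line rule U V an ls l y i q l1 y A W J) {z : Fin n → Bool}
    (hz : ∀ v ∈ A \ W, z v = y v) :
    Inv F D 0 line rule U V an ls l z i q l1 (fun v => if v ∈ A ∪ W then y v else z v) A W J := by
  have hy0 : ∀ v ∈ A ∪ W, (fun v => if v ∈ A ∪ W then y v else z v) v = y v := fun v hv => if_pos hv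
  refine ⟨hI.seg, hI.hq, hI.hvi, hI.hA, fls_congr hI.hfC fun v hv =>
    hy0 v (mem_union_left _ (hI.hA hv)), hTRN n k m F D 0 y _ A W J hI.st hy0, ?_,
    fls_congr hI.fal fun v hv => hy0 v (mem_union_left _ (hI.hA (hI.hvi hv)))⟩
  intro v hv
  beta_reduce
  by_cases hvA : v ∈ A
  · rw [if_pos (mem_union_left _ hvA), hz v (mem_sdiff.2 ⟨hvA, hv⟩)]
  · rw [if_neg]
    rw [mem_union, not_or]
    exact ⟨hvA, hv⟩

theorem inv_y {x : Fin n → Bool} {b i : ℕ} {q : Finset (Fin n)} {l1 : List (Fin n)}
    {y : Fin n → Bool} {A W : Finset (Fin n)} {J : Finset (Fin m)}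
    (hI : Inv F D b line rule U V an ls l x i q l1 y A W J) :
    Inv F D b line rule U V an ls l y i q l1 y A W J :=
  ⟨hI.seg, hI.hq, hI.hvi, hI.hA, hI.hfC, hI.st, fun _ _ => rfl, hI.fal⟩

/-- the next line -/
theorem next (hRSR : T_RSR) (hw : 8 * D ≤ w) (hG : Goo F D d w u)
    (hun : u + w + d ≤ n) (href : IsRef F S r line rule) (hT : Tree S r rule (U ∪ V) an ls)
    (hU : ∀ l ∈ U, (vs (line l)).card ≤ u) (hlr : l ≤ r) {x : Fin n → Bool} {i : ℕ} (hi : i < S)
    (hil : i ≤ l) {q : Finset (Fin n)} {l1 : List (Fin n)} {y : Fin n → Bool}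
    {A W : Finset (Fin n)} {J : Finset (Fin m)}
    (hI : Inv F D 0 line rule U V an ls l x i q l1 y A W J) {i' : ℕ} (hi' : i' < i)
    {y' : Fin n → Bool} {A' W' : Finset (Fin n)} {J' : Finset (Fin m)}
    (hst' : Sta F D 0 y' A' W' J') (hyy : ∀ v ∈ A, y' v = y v)
    (hf' : Falsified (line i') y') (hvs' : vs (line i') ⊆ A')
    (hor : (rule i = Rule.weak i' ∧ A' = A) ∨ ∃ (x : Fin n) (b : ℕ), A' = insert x A ∧
        ((rule i = Rule.res x i' b ∧ y' x = false) ∨ (rule i = Rule.res x b i' ∧ y' x = true))) :
    (∃ l', l' < l ∧ l' ∈ U ∧ AtS F D line l') ∨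
      ∃ (q' : Finset (Fin n)) (l1' : List (Fin n)),
        Inv F D 0 line rule U V an ls l y' i' q' l1' y' A' W' J' ∧
        (∀ v, l1.count v ≤ l1'.count v) ∧ ∀ v ∈ A', v ∉ A → l1.count v < l1'.count v := by
  have hi'S : i' < S := hi'.trans hi
  by_cases hiU : i' ∈ U
  · left
    have hcu := hU i' hiU
    obtain ⟨z, hz, hzy⟩ := hG (vs (line i')) y' hcu
    obtain ⟨y3, W3, J3, h31, -, h33⟩ := hRSR n k m F D d w 0 (by omega) z y' A' (vs (line i'))
      W' J' hz hst' hvs' hzy (by omega)
    exact ⟨i', by omega, hiU, y3, W3, J3, h33, fls_congr hf' h31⟩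
  · right
    have hir : i' ≠ r := by omega
    have hax : rule i' ≠ Rule.ax := fun h =>
      noAxS hst' hf' hvs' (h ▸ href.2.2 i' hi'S)
    obtain ⟨q', l1', hsg', hq', hvi', hA', hfC', hcle, hclt⟩ :=
      step3 href hT hi hI.seg hI.hq hI.hvi hI.hA hiU hir hax hI.hfC hyy hf' hvs' hor
    exact ⟨q', l1', ⟨hsg', hq', hvi', hA', hfC', hst', fun _ _ => rfl, hf'⟩, hcle, hclt⟩

theorem count_le (B : Finset (Fin n)) (y : Fin n → Bool)
    (X : Finset (Fin n → Bool)) (hX : ∀ z ∈ X, ∀ v ∈ B, z v = y v) :
    X.card ≤ 2 ^ (n - B.card) := by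
  classical
  have h1 : X.card ≤ Fintype.card ({v : Fin n // v ∉ B} → Bool) := by
    rw [← card_univ]
    refine card_le_card_of_injOn (fun z v => z v.1) (fun _ _ => mem_coe.2 (mem_univ _)) ?_
    intro z hz z' hz' h
    funext v
    by_cases hv : v ∈ B
    · rw [hX z hz v hv, hX z' hz' v hv]
    · exact congrFun h ⟨v, hv⟩
  have h2 : Fintype.card {v : Fin n // v ∉ B} = n - B.card := by
    rw [Fintype.card_subtype_compl, Fintype.card_fin, Fintype.card_coe]
  rw [Fintype.card_fun, Fintype.card_bool, h2] at h1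
  exact h1

open Classical in
theorem count_ge (B : Finset (Fin n)) (y : Fin n → Bool) :
    2 ^ (n - B.card) ≤ (univ.filter fun z : Fin n → Bool => ∀ v ∈ B, z v = y v).card := by
  have h1 : Fintype.card ({v : Fin n // v ∉ B} → Bool) = 2 ^ (n - B.card) := by
    rw [Fintype.card_fun, Fintype.card_bool, Fintype.card_subtype_compl, Fintype.card_fin,
      Fintype.card_coe]
  rw [← h1, ← card_univ]
  refine card_le_card_of_injOn
    (fun (f : {v : Fin n // v ∉ B} → Bool) (v : Fin n) => if h : v ∈ B then y v else f ⟨v, h⟩)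
    ?_ ?_
  · intro f _
    rw [mem_coe, mem_filter]
    refine ⟨mem_univ _, fun v hv => ?_⟩
    beta_reduce
    rw [dif_pos hv]
  · intro f _ f' _ h
    funext v
    have h2 := congrFun h v.1
    beta_reduce at h2
    rw [dif_neg v.2, dif_neg v.2] at h2
    exact h2

open Classical in
/-- counting -/
theorem vol (hTRN : T_TRN) (hASK : T_ASK) (hFGT : T_FGT) (hSTP : T_STP) (hRSR : T_RSR)
    (hw : 8 * D ≤ w) (hG : Goo F D d w u)
    (hun : u + w + d ≤ n) (href : IsRef F S r line rule) (hT : Tree S r rule (U ∪ V) an ls)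
    (hU : ∀ l ∈ U, (vs (line l)).card ≤ u)
    (hseg : ∀ (a i : ℕ) (q : Finset (Fin n)) (l : List (Fin n)), (a = r ∨ a ∈ U) →
      Seg3 rule U V a i q l → (univ.filter fun v => 1 < l.count v).card ≤ h)
    (hlr : l ≤ r) (hlU : l ∈ U ∨ l = r) (hlu : (vs (line l)).card ≤ u) :
    ∀ i, i < S → i ≤ l → ∀ (q : Finset (Fin n)) (l1 : List (Fin n)) (y : Fin n → Bool)
      (A W : Finset (Fin n)) (J : Finset (Fin m)),
      Inv F D 0 line rule U V an ls l y i q l1 y A W J →
      (∀ v ∈ A, v ∉ vs (line l) → 0 < l1.count v) → A.card + w + d ≤ n →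
      (∃ l', l' < l ∧ l' ∈ U ∧ AtS F D line l') ∨
        (univ.filter fun z => Gd F D d w z ∧ ∀ v ∈ A \ W, z v = y v).card ≤
          2 ^ (2 * D) * (univ.filter fun z => Wd S line an ls (h + 2 * (w + d) + u + 1) z ∧
            ∀ v ∈ A, z v = y v).card := by
  intro i
  induction i using Nat.strong_induction_on with
  | _ i ih =>
  intro hi hil q l1 y A W J hI hlt hA
  have hWc : W.card ≤ 2 * D := by
    have h1 := hI.st.crd
    have h2 := hI.st.lt
    omega
  by_cases hbig : A.card + 1 + w + d ≤ n
  · -- a step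
    have hcor := href.2.2 i hi
    have hins : ∀ v, (insert v A).card ≤ A.card + 1 := fun v => card_insert_le v A
    -- what a child gives
    have step : ∀ (p : ℕ) (y' : Fin n → Bool) (A' W' : Finset (Fin n)) (J' : Finset (Fin m)),
        p < i → Sta F D 0 y' A' W' J' → (∀ v ∈ A, y' v = y v) → Falsified (line p) y' →
        vs (line p) ⊆ A' →
        ((rule i = Rule.weak p ∧ A' = A) ∨ ∃ (x : Fin n) (b : ℕ), A' = insert x A ∧
        ((rule i = Rule.res x p b ∧ y' x = false) ∨ (rule i = Rule.res x b p ∧ y' x = true))) →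
        (∃ l', l' < l ∧ l' ∈ U ∧ AtS F D line l') ∨
        (univ.filter fun z => Gd F D d w z ∧ ∀ v ∈ A' \ W', z v = y' v).card ≤
          2 ^ (2 * D) * (univ.filter fun z => Wd S line an ls (h + 2 * (w + d) + u + 1) z ∧
            ∀ v ∈ A', z v = y' v).card := by
      intro p y' A' W' J' hp hS' hyy hf' hv' hor
      have hA' : A'.card + w + d ≤ n := by
        rcases hor with ⟨-, h1⟩ | ⟨v, b, h1, -⟩
        · rw [h1]
          exact hA
        · rw [h1]
          have := hins v
          omega
      rcases next hRSR hw hG hun href hT hU hlr hi hil hI hp hS' hyy hf' hv' hor with h1 | h1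
      · exact Or.inl h1
      · obtain ⟨q', l1', hI', hcle, hclt⟩ := h1
        refine ih p hp (by omega) (by omega) q' l1' y' A' W' J' hI' (fun v hv hvl => ?_) hA'
        by_cases hvA : v ∈ A
        · exact (hlt v hvA hvl).trans_le (hcle v)
        · exact (Nat.zero_le _).trans_lt (hclt v hv hvA)
    have hvA : vs (line i) ⊆ A := hI.hvi.trans hI.hA
    rcases hrule : rule i with _ | j | ⟨v, j, k'⟩
    · rw [hrule] at hcor
      exact absurd hcor fun hc => noAxS hI.st hI.fal hvA hc
    · -- weakening
      rw [hrule] at hcor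
      obtain ⟨hji, hsub⟩ := hcor
      exact step j y A W J hji hI.st (fun _ _ => rfl) (fun e he => hI.fal e (hsub he))
        ((image_subset_image hsub).trans hvA) (Or.inl ⟨hrule, rfl⟩)
    · rw [hrule] at hcor
      obtain ⟨hji, hki, hsj, hsk⟩ := hcor
      -- the premises
      have prem : ∀ (b : Bool) (y' : Fin n → Bool), y' v = b → ∃ p, p < i ∧
          line p ⊆ insert (v, !b) (line i) ∧
          ((rule i = Rule.weak p ∧ insert v A = A) ∨ ∃ (x : Fin n) (b : ℕ),
            insert v A = insert x A ∧
            ((rule i = Rule.res x p b ∧ y' x = false) ∨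
              (rule i = Rule.res x b p ∧ y' x = true))) := by
        intro b y' hb
        cases b
        · exact ⟨j, hji, hsj, Or.inr ⟨v, k', rfl, Or.inl ⟨hrule, hb⟩⟩⟩
        · exact ⟨k', hki, hsk, Or.inr ⟨v, j, rfl, Or.inr ⟨hrule, hb⟩⟩⟩
      have pvs : ∀ (b : Bool) (p : ℕ), line p ⊆ insert (v, !b) (line i) →
          vs (line p) ⊆ insert v A := by
        intro b p hp q hq
        obtain ⟨e, he, rfl⟩ := mem_image.1 hq
        rcases mem_insert.1 (hp he) with h | h
        · rw [h]
          exact mem_insert_self _ _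
        · exact mem_insert_of_mem (hvA (mem_image_of_mem _ h))
      have pfa : ∀ (b : Bool) (p : ℕ) (y' : Fin n → Bool), line p ⊆ insert (v, !b) (line i) →
          y' v = b → (∀ q ∈ A, y' q = y q) → Falsified (line p) y' := by
        intro b p y' hp hb hy e he
        rcases mem_insert.1 (hp he) with h | h
        · rw [h]
          show y' v ≠ !b
          rw [hb]
          cases b <;> simp
        · rw [hy e.1 (hvA (mem_image_of_mem _ h))]
          exact hI.fal e h
      by_cases hvAW : v ∈ A ∪ W
      · obtain ⟨p, hp, hps, hpt⟩ := prem (y v) y rfl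
        have e1 : insert v A ∪ W = A ∪ W := by
          rw [insert_union, insert_eq_of_mem hvAW]
        have e2 : insert v A \ W = A \ W := by
          by_cases hvW : v ∈ W
          · exact insert_sdiff_of_mem _ hvW
          · have hvA : v ∈ A := (mem_union.1 hvAW).resolve_right hvW
            rw [insert_eq_of_mem hvA]
        have hS := hI.st
        have hS' : Sta F D 0 y (insert v A) W J :=
          { mem := by rw [e1]; exact hS.mem
            fls := by rw [e2]; exact hS.fls
            sat := by rw [e1]; exact hS.sat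
            inv := by rw [e1]; exact hS.inv
            lt := hS.lt
            crd := hS.crd }
        have h1 := step p y (insert v A) W J hp hS' (fun _ _ => rfl)
          (pfa (y v) p y hps rfl fun _ _ => rfl) (pvs (y v) p hps) hpt
        rw [e2] at h1
        rcases h1 with h1 | h1
        · exact Or.inl h1
        · right
          refine h1.trans (Nat.mul_le_mul_left _ (card_le_card fun z hz => ?_))
          rw [mem_filter] at hz ⊢
          exact ⟨hz.1, hz.2.1, fun q hq => hz.2.2 q (mem_insert_of_mem hq)⟩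
      · have claim : ∀ b : Bool, (∃ l', l' < l ∧ l' ∈ U ∧ AtS F D line l') ∨
            ((univ.filter fun z => Gd F D d w z ∧ ∀ v ∈ A \ W, z v = y v).filter
              fun z => z v = b).card ≤ 2 ^ (2 * D) *
              ((univ.filter fun z => Wd S line an ls (h + 2 * (w + d) + u + 1) z ∧
                ∀ v ∈ A, z v = y v).filter fun z => z v = b).card := by
          intro b
          rcases ((univ.filter fun z => Gd F D d w z ∧ ∀ v ∈ A \ W, z v = y v).filter
              fun z => z v = b).eq_empty_or_nonempty with h0 | ⟨z, hz⟩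
          · right
            rw [h0, card_empty]
            exact Nat.zero_le _
          rw [mem_filter, mem_filter] at hz
          obtain ⟨⟨-, hzG, hzy⟩, hzb⟩ := hz
          have hI1 := inv_z hTRN hI hzy
          obtain ⟨y', W', J', hWW, hy', -, hS'⟩ := hASK n k m F D d w 0 (by omega) z _ A W J v hzG
            hI1.st hI1.hyx (by have := hins v; omega)
          have hyv : y' v = b := by
            rw [hy' v (mem_insert_self _ _), if_neg hvAW, hzb]
          have hyA : ∀ q ∈ A, y' q = y q := by
            intro q hq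
            rw [hy' q (mem_insert_of_mem (mem_union_left _ hq)), if_pos (mem_union_left _ hq)]
          obtain ⟨p, hp, hps, hpt⟩ := prem b y' hyv
          have h1 := step p y' (insert v A) W' J' hp hS' hyA (pfa b p y' hps hyv hyA)
            (pvs b p hps) hpt
          rcases h1 with h1 | h1
          · exact Or.inl h1
          · right
            refine le_trans (card_le_card fun x hx => ?_) (h1.trans
              (Nat.mul_le_mul_left _ (card_le_card fun x hx => ?_)))
            · rw [mem_filter, mem_filter] at hx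
              obtain ⟨⟨-, hxG, hxy⟩, hxb⟩ := hx
              rw [mem_filter]
              refine ⟨mem_univ _, hxG, fun q hq => ?_⟩
              rw [mem_sdiff, mem_insert] at hq
              obtain ⟨hq1 | hq1, hq2⟩ := hq
              · rw [hq1, hxb, hyv]
              · rw [hyA q hq1]
                exact hxy q (mem_sdiff.2 ⟨hq1, fun h => hq2 (hWW h)⟩)
            · rw [mem_filter] at hx
              obtain ⟨-, hxW, hxy⟩ := hx
              rw [mem_filter, mem_filter]
              refine ⟨⟨mem_univ _, hxW, fun q hq => ?_⟩, ?_⟩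
              · rw [hxy q (mem_insert_of_mem hq), hyA q hq]
              · rw [hxy v (mem_insert_self _ _), hyv]
        have split : ∀ X : Finset (Fin n → Bool), X.card =
            (X.filter fun z => z v = false).card + (X.filter fun z => z v = true).card := by
          intro X
          rw [add_comm, ← card_filter_add_card_filter_not (fun z : Fin n → Bool => z v = true)]
          congr 2
          refine filter_congr fun z _ => ?_
          cases z v <;> simp
        rcases claim false with h1 | h1
        · exact Or.inl h1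
        rcases claim true with h2 | h2
        · exact Or.inl h2
        right
        rw [split (univ.filter fun z => Gd F D d w z ∧ ∀ v ∈ A \ W, z v = y v),
          split (univ.filter fun z => Wd S line an ls (h + 2 * (w + d) + u + 1) z ∧
                ∀ v ∈ A, z v = y v), mul_add]
        exact add_le_add h1 h2
  · -- the end of the phase
    rcases (univ.filter fun z => Gd F D d w z ∧ ∀ v ∈ A \ W, z v = y v).eq_empty_or_nonempty
      with h0 | ⟨x, hx⟩
    · right
      rw [h0, card_empty]
      exact Nat.zero_le _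
    rw [mem_filter] at hx
    obtain ⟨-, hxG, hxy⟩ := hx
    by_cases hE : n ≤ (vs (exC (line (an i)) (ls i))).card + (h + 2 * (w + d) + u + 1)
    · right
      have h1 := count_le (A \ W) y (univ.filter fun z => Gd F D d w z ∧ ∀ v ∈ A \ W, z v = y v)
        (fun z hz => (mem_filter.1 hz).2.2)
      have h2 : A.card ≤ (A \ W).card + W.card := by
        have := le_card_sdiff W A
        omega
      have h3 : (univ.filter fun z : Fin n → Bool => ∀ v ∈ A, z v = y v).card ≤
          (univ.filter fun z => Wd S line an ls (h + 2 * (w + d) + u + 1) z ∧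
            ∀ v ∈ A, z v = y v).card := by
        refine card_le_card fun z hz => ?_
        rw [mem_filter] at hz ⊢
        exact ⟨mem_univ _, ⟨i, hi, fls_congr hI.hfC fun v hv => hz.2 v (hI.hA hv), hE⟩, hz.2⟩
      calc (univ.filter fun z => Gd F D d w z ∧ ∀ v ∈ A \ W, z v = y v).card
          ≤ 2 ^ (n - (A \ W).card) := h1
        _ ≤ 2 ^ (2 * D + (n - A.card)) := Nat.pow_le_pow_right (by norm_num) (by omega)
        _ = 2 ^ (2 * D) * 2 ^ (n - A.card) := pow_add _ _ _
        _ ≤ _ := Nat.mul_le_mul_left _ ((count_ge A y).trans h3)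
    · left
      have hI1 := inv_z hTRN hI hxy
      have hWD : W.card + 6 * D ≤ w := by omega
      obtain ⟨y1, W1, J1, -, hy1, hyx1, hst1⟩ := hFGT n k m F D d w 0 x _ A
        (vs (exC (line (an i)) (ls i))) W J hxG hI1.st hI1.hyx hI1.hA hWD (by omega)
      refine phase1 hSTP hRSR hw hG hun href hT hU hseg hlr hlU hlu hxG l1
        (vs (exC (line (an i)) (ls i))) A W.card hWD (by omega) (by omega) hlt
        i hi hil q l1 y1 (vs (exC (line (an i)) (ls i))) W1 J1
        ⟨hI.seg, hI.hq, hI.hvi, Subset.refl _, ?_, hst1, hyx1, ?_⟩ (fun v => le_rfl)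
        fun v hv hv' => absurd hv hv'
      · exact fls_congr hI1.hfC fun u hu => hy1 u (mem_union_left _ hu)
      · exact fls_congr hI1.fal fun u hu => hy1 u (mem_union_left _ (hI1.hvi hu))

end

open Classical in
theorem wd_card {n S g : ℕ} {line : ℕ → Clause n} {an : ℕ → ℕ} {ls : ℕ → List (Fin n × Bool)} :
    (univ.filter fun z => Wd S line an ls g z).card ≤ S * 2 ^ g := by
  have h1 : (univ.filter fun z => Wd S line an ls g z) ⊆ (range S).biUnion fun i =>
      univ.filter fun z => Falsified (exC (line (an i)) (ls i)) z ∧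
        n ≤ (vs (exC (line (an i)) (ls i))).card + g := by
    intro z hz
    rw [mem_filter] at hz
    obtain ⟨-, i, hi, hz⟩ := hz
    rw [mem_biUnion]
    exact ⟨i, mem_range.2 hi, mem_filter.2 ⟨mem_univ _, hz⟩⟩
  refine (card_le_card h1).trans (card_biUnion_le.trans ?_)
  calc ∑ i ∈ range S, (univ.filter fun z => Falsified (exC (line (an i)) (ls i)) z ∧
        n ≤ (vs (exC (line (an i)) (ls i))).card + g).card ≤ ∑ _i ∈ range S, 2 ^ g := by
        refine sum_le_sum fun i _ => ?_
        rcases (univ.filter fun z => Falsified (exC (line (an i)) (ls i)) z ∧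
          n ≤ (vs (exC (line (an i)) (ls i))).card + g).eq_empty_or_nonempty with h0 | ⟨y, hy⟩
        · rw [h0, card_empty]
          exact Nat.zero_le _
        rw [mem_filter] at hy
        refine (count_le (vs (exC (line (an i)) (ls i))) y _ fun z hz v hv => ?_).trans
          (Nat.pow_le_pow_right (by norm_num) (by omega))
        rw [mem_filter] at hz
        obtain ⟨e, he, rfl⟩ := mem_image.1 hv
        have h1 := hz.2.1 e he
        have h2 := hy.2.1 e he
        revert h1 h2
        cases z e.1 <;> cases y e.1 <;> cases e.2 <;> simp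
    _ = S * 2 ^ g := by
        rw [sum_const, card_range, smul_eq_mul]

open Classical in
theorem pf_RZ3 (hTRE : T_TRE) (hINI : T_INI) (hGOO : T_GOO) (hTRN : T_TRN) (hASK : T_ASK)
    (hFGT : T_FGT) (hSTP : T_STP) (hRSR : T_RSR) : T_RZ3 := by
  intro n k m F D d w u h hD hw hn hEx hbad S r line rule href U V honce hU hseg
  obtain ⟨an, ls, htree⟩ := hTRE n k m F S r line rule href (U ∪ V) honce
  obtain ⟨hgoo, hmany⟩ := hGOO n k m F D d w u (by omega) hbad
  have hr : line r = ∅ := href.2.1
  have hPr : (r ∈ U ∨ r = r) ∧ r ≤ r ∧ AtS F D line r := by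
    refine ⟨Or.inr rfl, le_rfl, fun _ => false, ∅, ∅, ?_, ?_⟩
    · have h1 : vs (line r) = ∅ := by rw [hr]; rfl
      rw [h1]
      exact hINI n k m F D hD hEx _
    · intro l hl
      rw [hr] at hl
      exact absurd hl (Finset.notMem_empty l)
  have hex : ∃ l, (l ∈ U ∨ l = r) ∧ l ≤ r ∧ AtS F D line l := ⟨r, hPr⟩
  obtain ⟨h1, h2, y, W, J, hSta, hF⟩ := Nat.find_spec hex
  have hmin : ∀ l', l' < Nat.find hex → ¬ ((l' ∈ U ∨ l' = r) ∧ l' ≤ r ∧ AtS F D line l') :=
    fun l' hl' => Nat.find_min hex hl'
  generalize Nat.find hex = l at *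
  have hlu : (vs (line l)).card ≤ u := by
    rcases h1 with h1 | h1
    · exact hU l h1
    · have h3 : vs (line l) = ∅ := by rw [h1, hr]; rfl
      rw [h3, Finset.card_empty]
      exact Nat.zero_le u
  have hX := hmany (vs (line l) \ W) y ((Finset.card_le_card Finset.sdiff_subset).trans hlu)
  have hbase : an l = l ∧ ls l = [] :=
    htree.base l (h1.elim (fun h => Or.inl (mem_union_left _ h)) Or.inr)
  have hex' : vs (exC (line (an l)) (ls l)) = vs (line l) := by
    rw [hbase.1, hbase.2, vs_ext]
    simp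
  have hI : Inv F D 0 line rule U V an ls l y l ∅ [] y (vs (line l)) W J := by
    refine ⟨Seg3.refl, by rw [hbase.2]; rfl, ?_, ?_, ?_, hSta, fun _ _ => rfl, hF⟩
    · rw [hex']
    · rw [hex']
    · rw [hbase.1, hbase.2, fls_ext]
      exact ⟨hF, by simp⟩
  rcases vol hTRN hASK hFGT hSTP hRSR hw hgoo hn href htree hU hseg h2 h1 hlu l
    (lt_of_le_of_lt h2 href.1) le_rfl ∅ [] y (vs (line l)) W J hI
    (fun v hv hv' => absurd hv hv') (by omega) with h3 | h3
  · obtain ⟨l', hl', hl'U, hat⟩ := h3
    exact absurd ⟨Or.inl hl'U, hl'.le.trans h2, hat⟩ (hmin l' hl')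
  · have h4 : (univ.filter fun z => Wd S line an ls (h + 2 * (w + d) + u + 1) z ∧
        ∀ v ∈ vs (line l), z v = y v).card ≤ S * 2 ^ (h + 2 * (w + d) + u + 1) := by
      refine (card_le_card fun z hz => ?_).trans (wd_card (line := line) (an := an) (ls := ls))
      rw [mem_filter] at hz ⊢
      exact ⟨hz.1, hz.2.1⟩
    calc 2 ^ n ≤ (univ.filter fun z => Gd F D d w z ∧ ∀ v ∈ vs (line l) \ W, z v = y v).card *
          2 ^ (u + 1) := hX
      _ ≤ (2 ^ (2 * D) * (S * 2 ^ (h + 2 * (w + d) + u + 1))) * 2 ^ (u + 1) :=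
          Nat.mul_le_mul_right _ (h3.trans (Nat.mul_le_mul_left _ h4))
      _ = S * 2 ^ (h + 2 * (w + d) + 2 * D + 2 * u + 2) := by
          have e : h + 2 * (w + d) + 2 * D + 2 * u + 2 =
            2 * D + (h + 2 * (w + d) + u + 1) + (u + 1) := by ring
          rw [e, pow_add, pow_add]
          ring

end Pool.Agent.H41.SS
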