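import Pool.Agent.H41.SS.Fin5
import Pool.Agent.H41.SS.Reg
import Pool.Agent.H41.SS.StmtV

/-!
Resolution on random k-CNFs, the exact savings (MP_c62aed_lc): the final form of the theorem, with
the exact savings of regular refutations.
-/

set_option autoImplicit false

namespace Pool.Agent.H41.SS

open Finset Pool.Agent.H97.RK Pool.Agent.H97.RL

section

variable {n k m : ℕ}

/-- the field `parts` for one part -/
theorem part_of1 (hRZ3 : T_RZ3) (F : Fml n k m) (a : ℝ) (D d w u : ℕ) (hD : 1 ≤ D)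
    (hw : 8 * D ≤ w) (hn : u + w + d ≤ n) (hEx : Ex F D)
    (hg : Nat.card {z // ¬ Gd F D d w z} * 2 ^ (u + 1) ≤ 2 ^ n)
    (ha : (2 : ℝ) ^ (2 * (w + d) + 2 * D + 2 * u + 2) ≤ (2 : ℝ) ^ (a * n))
    (S r : ℕ) (line : ℕ → Clause n) (rule : ℕ → Rule n) (href : IsRef F S r line rule)
    (U V : Finset ℕ) (hO : Once S rule (U ∪ V))
    (hU : ∀ l ∈ U, (line l).card ≤ u) (ρ : ℝ)
    (hρ : ∀ (a i : ℕ) (q : Finset (Fin n)) (l : List (Fin n)), (a = r ∨ a ∈ U) →
      Seg3 rule U V a i q l → ((univ.filter fun v => 1 < l.count v).card : ℝ) ≤ ρ * n) :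
    (2 : ℝ) ^ ((1 - ρ - a) * n) ≤ S := by
  classical
  have hρ0 : 0 ≤ ρ * n :=
    le_trans (Nat.cast_nonneg _) (hρ r r ∅ [] (Or.inl rfl) Seg3.refl)
  have hg' : (univ.filter fun z => ¬ Gd F D d w z).card * 2 ^ (u + 1) ≤ 2 ^ n := by
    rw [← Fintype.card_subtype, ← Nat.card_eq_fintype_card]
    exact hg
  have h1 := hRZ3 n k m F D d w u ⌊ρ * n⌋₊ hD hw hn hEx (by convert hg') S r
    line rule href U V hO (fun l hl => (vs_card_le _).trans (hU l hl))
    (fun a i q l h h' => Nat.le_floor (hρ a i q l h h'))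
  have h2 : (2 : ℝ) ^ n ≤ S * (2 : ℝ) ^ (⌊ρ * n⌋₊ + 2 * (w + d) + 2 * D + 2 * u + 2) := by
    exact_mod_cast h1
  have h4 : (2 : ℝ) ^ (⌊ρ * n⌋₊) ≤ (2 : ℝ) ^ (ρ * n) := by
    rw [← Real.rpow_natCast]
    exact Real.rpow_le_rpow_of_exponent_le (by norm_num) (Nat.floor_le hρ0)
  have h5 : (2 : ℝ) ^ n ≤ S * ((2 : ℝ) ^ (ρ * n) * (2 : ℝ) ^ (a * n)) := by
    refine h2.trans ?_
    have h6 : (2 : ℝ) ^ (⌊ρ * n⌋₊ + 2 * (w + d) + 2 * D + 2 * u + 2) =
        (2 : ℝ) ^ (⌊ρ * n⌋₊) * (2 : ℝ) ^ (2 * (w + d) + 2 * D + 2 * u + 2) := by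
      rw [← pow_add]
      congr 1
      ring
    rw [h6]
    refine mul_le_mul_of_nonneg_left ?_ (Nat.cast_nonneg _)
    exact mul_le_mul h4 ha (by positivity) (by positivity)
  have h6 : (2 : ℝ) ^ ((1 - ρ - a) * n) * ((2 : ℝ) ^ (ρ * n) * (2 : ℝ) ^ (a * n)) =
      (2 : ℝ) ^ n := by
    rw [← Real.rpow_add (by norm_num), ← Real.rpow_add (by norm_num), ← Real.rpow_natCast]
    congr 1
    ring
  rw [← h6] at h5
  exact le_of_mul_le_mul_right h5 (by positivity)

/-- a path which is cut into parts -/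
theorem seg_path {rule : ℕ → Rule n} {V : Finset ℕ} {r i : ℕ} {q : Finset (Fin n)}
    {l : List (Fin n)} (h : Seg3 rule ∅ V r i q l) :
    ∃ l', Path rule r i l' ∧ ∀ v, l.count v ≤ l'.count v := by
  induction h with
  | refl => exact ⟨[], Pool.Agent.H97.RK.Path.refl, fun v => le_rfl⟩
  | weak _ h1 _ ih =>
    obtain ⟨l', h2, h3⟩ := ih
    exact ⟨l', Path.weak h2 h1, h3⟩
  | @left i j b x q l _ h1 _ ih =>
    obtain ⟨l', h2, h3⟩ := ih
    refine ⟨x :: l', Path.left h2 h1, fun v => ?_⟩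
    have h4 := h3 v
    split_ifs
    · rw [List.count_cons]
      omega
    · rw [List.count_cons, List.count_cons]
      omega
  | @right i j b x q l _ h1 _ ih =>
    obtain ⟨l', h2, h3⟩ := ih
    refine ⟨x :: l', Path.right h2 h1, fun v => ?_⟩
    have h4 := h3 v
    split_ifs
    · rw [List.count_cons]
      omega
    · rw [List.count_cons, List.count_cons]
      omega

end

theorem lq_one (n k m : ℕ) : lq n k m 1 = lg n k m / k := by
  unfold lq
  rw [Nat.cast_one, sub_self, zero_div, Real.sqrt_zero, mul_zero, add_zero]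

theorem lq_nonneg {n k m R : ℕ} (hk : 3 ≤ k) (hR : 1 ≤ R) (hRk : R ≤ k) :
    0 ≤ lq n k m R := by
  have hk0 : (0 : ℝ) < k := by
    have : 0 < k := by omega
    exact_mod_cast this
  have hR0 : (0 : ℝ) < R := by exact_mod_cast hR
  have hRk' : (R : ℝ) ≤ k := by exact_mod_cast hRk
  have hL : 0 ≤ lg n k m := lg_nonneg (by omega)
  have h1 : 0 ≤ Real.log (k / R) := Real.log_nonneg (by rwa [le_div_iff₀ hR0, one_mul])
  have h2 : 0 ≤ (1 + Real.log (k / R)) * Real.sqrt (((R : ℝ) - 1) / k) :=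
    mul_nonneg (by linarith) (Real.sqrt_nonneg _)
  unfold lq
  positivity

theorem sq_log_le {k : ℝ} (hk : 1 ≤ k) : Real.log k ^ 2 ≤ 16 * Real.sqrt k := by
  have hk0 : (0 : ℝ) < k := by linarith
  obtain ⟨q, hq⟩ : ∃ q, q = Real.sqrt k := ⟨_, rfl⟩
  have hq0 : 0 < q := by
    rw [hq]
    exact Real.sqrt_pos.2 hk0
  have hq2 : q ^ 2 = k := by
    rw [hq]
    exact Real.sq_sqrt hk0.le
  obtain ⟨p, hp⟩ : ∃ p, p = Real.sqrt q := ⟨_, rfl⟩
  have hp2 : p ^ 2 = q := by
    rw [hp]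
    exact Real.sq_sqrt hq0.le
  have hp0 : 0 < p := by
    rw [hp]
    exact Real.sqrt_pos.2 hq0
  have h1 : Real.log k = 4 * Real.log p := by
    rw [← hq2, ← hp2, Real.log_pow, Real.log_pow]
    push_cast
    ring
  have h2 : Real.log p ≤ p := by
    have := Real.log_le_sub_one_of_pos hp0
    linarith
  have h3 : 0 ≤ Real.log k := Real.log_nonneg hk
  have h4 : Real.log k ≤ 4 * p := by linarith
  rw [← hq]
  calc Real.log k ^ 2 ≤ (4 * p) ^ 2 := pow_le_pow_left₀ h3 h4 2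
    _ = 16 * q := by rw [← hp2]; ring

/-- for several parts the old bound is at most a constant times the new one -/
theorem lp_le_lq {n k m R : ℕ} (hk : 3 ≤ k) (hR : 2 ≤ R) (hRk : R ≤ k) :
    lq n k m R ≤ lp n k m R ∧ lp n k m R ≤ 17 * lq n k m R := by
  have hk0 : (0 : ℝ) < k := by
    have : 0 < k := by omega
    exact_mod_cast this
  have hk1 : (1 : ℝ) ≤ k := by
    have : 1 ≤ k := by omega
    exact_mod_cast this
  have hR0 : (0 : ℝ) < R := by
    have : 0 < R := by omega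
    exact_mod_cast this
  have hR2 : (2 : ℝ) ≤ R := by exact_mod_cast hR
  have hRk' : (R : ℝ) ≤ k := by exact_mod_cast hRk
  have hL : 0 ≤ lg n k m := lg_nonneg (by omega)
  have hLk : 0 ≤ lg n k m / k := by positivity
  have h1 : 0 ≤ Real.log (k / R) := Real.log_nonneg (by rwa [le_div_iff₀ hR0, one_mul])
  have h2 : Real.sqrt (1 / k) ≤ Real.sqrt (((R : ℝ) - 1) / k) := by
    refine Real.sqrt_le_sqrt ?_
    refine div_le_div_of_nonneg_right (by linarith) hk0.le
  have h3 : Real.sqrt (1 / k) ≤ (1 + Real.log (k / R)) * Real.sqrt (((R : ℝ) - 1) / k) := by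
    refine h2.trans ?_
    exact le_mul_of_one_le_left (Real.sqrt_nonneg _) (by linarith)
  have h4 : Real.log k ^ 2 / k ≤ 16 * Real.sqrt (1 / k) := by
    rw [div_le_iff₀ hk0]
    refine (sq_log_le hk1).trans (le_of_eq ?_)
    rw [Real.sqrt_div zero_le_one, Real.sqrt_one, mul_assoc]
    congr 1
    rw [one_div, ← div_eq_inv_mul]
    exact (Real.div_sqrt).symm
  have h5 : (Real.log k ^ 2 + lg n k m) / k = Real.log k ^ 2 / k + lg n k m / k := add_div _ _ _
  have h6 : 0 ≤ Real.log k ^ 2 / k := by positivity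
  unfold lp lq
  rw [h5]
  constructor <;> linarith [Real.sqrt_nonneg (1 / (k : ℝ))]

/-- everything which does not depend on chance -/
theorem HdV_of (hTSZ : T_TSZ) (hRZ3 : T_RZ3) (hRZ2 : T_RZ2) (hWID : T_WID) (hGSZ : T_GSZ) (hTRU : T_TRU)
    (hLEM : T_LEM)
    {n k m : ℕ} (F : Fml n k m) (K K₁ K₂ K₃ : ℕ) (h1 : 2 * K₁ + 2 ≤ K) (h2 : 10 * K₂ ≤ K)
    (h3 : 17 * K₃ ≤ K) (hn : 1 ≤ n)
    (hk : 3 ≤ k) (hP1 : Pt1 K₁ n k m F) (hP2 : Pt2 K₂ n k m F) (hP3 : PtR K₃ n k m F)
    (hU : 2 ^ k * n ≤ m → m ≤ 4 ^ k * n → (∀ z, ∃ c, Falsified (cls F c) z) ∧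
      ((1 + 2 * ∑ i ∈ range n, (Alv F i).card : ℕ) : ℝ) ≤
        (2 : ℝ) ^ ((1 - lg n k m / (4 * k)) * n)) : HdV K F := by
  have hn0 : (0 : ℝ) < n := by exact_mod_cast hn
  have hk0 : (0 : ℝ) < k := by
    have : 0 < k := by omega
    exact_mod_cast this
  have hL : 0 ≤ lg n k m := lg_nonneg (by omega)
  have hK1 : 2 * (K₁ : ℝ) + 2 ≤ K := by exact_mod_cast h1
  have hK10 : (0 : ℝ) ≤ K₁ := Nat.cast_nonneg _
  have hK2' : (10 : ℝ) * K₂ ≤ K := by exact_mod_cast h2
  have hK20 : (0 : ℝ) ≤ K₂ := Nat.cast_nonneg _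
  have hK2 : (K₂ : ℝ) ≤ K := by linarith
  have hK3 : 17 * (K₃ : ℝ) ≤ K := by exact_mod_cast h3
  have hK30 : (0 : ℝ) ≤ K₃ := Nat.cast_nonneg _
  have hlog : 1 ≤ Real.log k := by
    rw [Real.le_log_iff_exp_le hk0]
    have h3 : (3 : ℝ) ≤ k := by exact_mod_cast hk
    linarith [Real.exp_one_lt_d9]
  have hs : 0 ≤ 1 / Real.sqrt k + lg n k m / k := by positivity
  have hLk : 0 ≤ lg n k m / k := by positivity
  have hparts : ∀ (S r : ℕ) (line : ℕ → Clause n) (rule : ℕ → Rule n), IsRef F S r line rule →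
      ∀ (U V : Finset ℕ) (R : ℕ), 1 ≤ R → R ≤ k → Once S rule (U ∪ V) →
      (∀ l ∈ U, ((line l).card : ℝ) ≤ lq n k m R * n) → ∀ ρ : ℝ,
      (∀ (a i : ℕ) (q : Finset (Fin n)) (l : List (Fin n)), (a = r ∨ a ∈ U) →
        Seg3 rule U V a i q l → ((univ.filter fun v => R < l.count v).card : ℝ) ≤ ρ * n) →
      (2 : ℝ) ^ ((1 - ρ - K * lq n k m R) * n) ≤ S := by
    intro S r line rule href U V R hR1 hRk hO hUU ρ hρ
    have hlq0 := lq_nonneg (n := n) (m := m) hk hR1 hRk
    have hρ0 : 0 ≤ ρ * n :=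
      le_trans (Nat.cast_nonneg _) (hρ r r ∅ [] (Or.inl rfl) Seg3.refl)
    have hρ1 : 0 ≤ ρ := by
      by_contra h
      push Not at h
      exact absurd hρ0 (not_le.2 (mul_neg_of_neg_of_pos h hn0))
    have htriv : 1 ≤ (K : ℝ) * lq n k m R → (2 : ℝ) ^ ((1 - ρ - K * lq n k m R) * n) ≤ S := by
      intro h
      refine le_trans (rpow_le_one' _ ?_) (one_le_S href)
      exact mul_nonpos_of_nonpos_of_nonneg (by linarith) hn0.le
    rcases Nat.lt_or_ge R 2 with hR2 | hR2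
    · obtain rfl : R = 1 := by omega
      rw [lq_one] at hUU hlq0 htriv ⊢
      by_cases hc : (K₁ : ℝ) * lg n k m ≤ k
      · obtain ⟨D, d, w, u, hD, hw, hnn, hEx, hu, -, hg, ha, -⟩ := hP1 hc
        obtain ⟨u', hu'⟩ : ∃ u', u' = ⌊lg n k m / k * n⌋₊ := ⟨_, rfl⟩
        have hu1 : (u' : ℝ) ≤ lg n k m / k * n := by
          rw [hu']
          exact Nat.floor_le (by positivity)
        have hu2 : u' ≤ u := by
          refine hu u' (hu1.trans (mul_le_mul_of_nonneg_right ?_ hn0.le))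
          refine div_le_div_of_nonneg_right ?_ hk0.le
          linarith [sq_nonneg (Real.log k)]
        have hg' : Nat.card {z // ¬ Gd F D d w z} * 2 ^ (u' + 1) ≤ 2 ^ n :=
          (Nat.mul_le_mul_left _ (Nat.pow_le_pow_right (by norm_num) (by omega))).trans hg
        have ha' : (2 : ℝ) ^ (2 * (w + d) + 2 * D + 2 * u' + 2) ≤
            (2 : ℝ) ^ (((2 * K₁ + 2 : ℝ) * (lg n k m / k)) * n) := by
          have e2 : (2 * K₁ + 2 : ℝ) * (lg n k m / k) * n =
              2 * (K₁ * lg n k m / k * n) + 2 * (lg n k m / k * n) := by ring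
          have e3 : ((w + d + 2 * D + 2 : ℕ) : ℝ) ≤ K₁ * lg n k m / k * n := by
            rw [← Real.rpow_natCast] at ha
            exact (Real.rpow_le_rpow_left_iff (by norm_num)).1 ha
          rw [← Real.rpow_natCast, e2]
          refine Real.rpow_le_rpow_of_exponent_le (by norm_num) ?_
          push_cast at e3 ⊢
          have e4 : (0 : ℝ) ≤ D := Nat.cast_nonneg _
          linarith
        have h3 := part_of1 hRZ3 F ((2 * K₁ + 2 : ℝ) * (lg n k m / k)) D d w u' hD hw (by omega)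
          hEx hg' ha' S r line rule href U V hO (fun l hl => by
            rw [hu']
            exact Nat.le_floor (hUU l hl)) ρ hρ
        refine le_trans (Real.rpow_le_rpow_of_exponent_le (by norm_num) ?_) h3
        refine mul_le_mul_of_nonneg_right ?_ hn0.le
        have := mul_le_mul_of_nonneg_right hK1 hLk
        linarith
      · push Not at hc
        refine htriv ?_
        have h4 : (k : ℝ) ≤ K * lg n k m :=
          hc.le.trans (mul_le_mul_of_nonneg_right (by linarith) hL)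
        rw [← mul_div_assoc]
        rwa [le_div_iff₀ hk0, one_mul]
    · obtain ⟨hl1, hl2⟩ := lp_le_lq (n := n) (m := m) hk hR2 hRk
      have hl3 : (K₃ : ℝ) * lp n k m R ≤ K * lq n k m R := by
        calc (K₃ : ℝ) * lp n k m R ≤ K₃ * (17 * lq n k m R) :=
              mul_le_mul_of_nonneg_left hl2 hK30
          _ = 17 * K₃ * lq n k m R := by ring
          _ ≤ _ := mul_le_mul_of_nonneg_right hK3 hlq0
      by_cases hc : (K₃ : ℝ) * lp n k m R ≤ 1
      · obtain ⟨D, d, w, u, G, P, hD, hP, hPG, hw, hnn, hEx, hu, hg, ha⟩ := hP3 R hR2 hRk hc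
        have h3 := parts_of hRZ2 F (K₃ * lp n k m R) D d w u R G P hD hR1 hP hPG hw hnn hEx hg
          ha S r line rule href U V hO (fun l hl => hu _ ((hUU l hl).trans
            (mul_le_mul_of_nonneg_right hl1 hn0.le))) ρ hρ
        refine le_trans (Real.rpow_le_rpow_of_exponent_le (by norm_num) ?_) h3
        refine mul_le_mul_of_nonneg_right ?_ hn0.le
        linarith
      · push Not at hc
        exact htriv (hc.le.trans hl3)
  refine ⟨?_, ?_, ?_, ?_, ?_, ?_, ?_⟩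
  · -- tree
    intro S r line rule href U hO hUU
    by_cases hc : (K₁ : ℝ) * lg n k m ≤ k
    · obtain ⟨D, d, w, u, hD, hw, hnn, hEx, hu, -, hg, ha, -⟩ := hP1 hc
      obtain ⟨u', hu'⟩ : ∃ u', u' = ⌊lg n k m / k * n⌋₊ := ⟨_, rfl⟩
      have hu1 : (u' : ℝ) ≤ lg n k m / k * n := by
        rw [hu']
        exact Nat.floor_le (by positivity)
      have hu2 : u' ≤ u := by
        refine hu u' (hu1.trans (mul_le_mul_of_nonneg_right ?_ hn0.le))
        refine div_le_div_of_nonneg_right ?_ hk0.le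
        linarith [sq_nonneg (Real.log k)]
      have hg' : Nat.card {z // ¬ Gd F D d w z} * 2 ^ (u' + 1) ≤ 2 ^ n :=
        (Nat.mul_le_mul_left _ (Nat.pow_le_pow_right (by norm_num) (by omega))).trans hg
      have ha' : (2 : ℝ) ^ (w + d + 2 * D + u' + 2) ≤
          (2 : ℝ) ^ (((K₁ + 1 : ℝ) * lg n k m / k) * n) := by
        have e1 : w + d + 2 * D + u' + 2 = (w + d + 2 * D + 2) + u' := by ring
        have e2 : (K₁ + 1 : ℝ) * lg n k m / k * n =
            K₁ * lg n k m / k * n + lg n k m / k * n := by ring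
        rw [e1, pow_add, e2, Real.rpow_add (by norm_num)]
        refine mul_le_mul ha ?_ (by positivity) (by positivity)
        rw [← Real.rpow_natCast]
        exact Real.rpow_le_rpow_of_exponent_le (by norm_num) hu1
      have h3 := tree_of2 hTSZ F ((K₁ + 1 : ℝ) * lg n k m / k) D d w u' hD hw (by omega) hEx hg'
        ha' S r line rule href U hO (fun l hl => by
          rw [hu']
          exact Nat.le_floor (hUU l hl))
      refine le_trans (Real.rpow_le_rpow_of_exponent_le (by norm_num) ?_) h3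
      refine mul_le_mul_of_nonneg_right ?_ hn0.le
      have e3 : (K₁ + 1 : ℝ) * lg n k m / k ≤ K * lg n k m / k := by
        rw [mul_div_assoc, mul_div_assoc]
        exact mul_le_mul_of_nonneg_right (by linarith) hLk
      linarith
    · refine le_trans (rpow_le_one' _ ?_) (one_le_S href)
      push Not at hc
      have h4 : (k : ℝ) ≤ K * lg n k m :=
        hc.le.trans (mul_le_mul_of_nonneg_right (by linarith) hL)
      have h5 : 1 ≤ (K : ℝ) * lg n k m / k := by rwa [le_div_iff₀ hk0, one_mul]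
      exact mul_nonpos_of_nonpos_of_nonneg (by linarith) hn0.le
  · -- regular
    intro S r line rule href hN
    have h1 := hparts S r line rule href ∅ (range S) 1 le_rfl (by omega)
      (fun j hj hj' => absurd (mem_union_right _ (mem_range.2 hj)) hj')
      (fun l hl => absurd hl (Finset.notMem_empty l)) 0 (fun a i q l ha hs => ?_)
    · rw [lq_one, sub_zero, ← mul_div_assoc] at h1
      exact h1
    · have ha' : a = r := ha.resolve_right (Finset.notMem_empty a)
      rw [ha'] at hs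
      obtain ⟨l', h2, h3⟩ := seg_path hs
      have h4 : (univ.filter fun v => 1 < l.count v) = ∅ := by
        rw [filter_eq_empty_iff]
        intro v _ hv
        have h5 := List.nodup_iff_count_le_one.1 (hN i l' h2) v
        have h6 := h3 v
        omega
      rw [h4, card_empty, Nat.cast_zero, zero_mul]
  · -- upper
    intro hm1 hm2
    obtain ⟨hun, hS⟩ := hU hm1 hm2
    obtain ⟨S, r, line, rule, href, hO, hN, hS2⟩ := hTRU n k m F hun
    refine ⟨S, r, line, rule, href, hO, hN, le_trans ?_ hS⟩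
    exact_mod_cast hS2
  · -- parts
    exact hparts
  · -- lemmas
    intro S r line rule href U hO w₀
    have hb1 : (1 : ℝ) ≤
        (((U.filter fun l => w₀ < (line l).card).card : ℝ) + 1) ^ (3 / 2 : ℝ) := by
      refine Real.one_le_rpow ?_ (by norm_num)
      have : (0 : ℝ) ≤ ((U.filter fun l => w₀ < (line l).card).card : ℝ) := Nat.cast_nonneg _
      linarith
    have hb2 : (1 : ℝ) ≤ (3 / 2 : ℝ) ^ w₀ := one_le_pow₀ (by norm_num)
    by_cases hc : (K₂ : ℝ) * (1 / Real.sqrt k + lg n k m / k) ≤ 1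
    · obtain ⟨t, d, w, ht, hw, hwd, hnn, hEx, hg, -, hB, hC⟩ := hP2 hc
      have h3 := hLEM n k m F (K₂ * Real.log k * (1 / Real.sqrt k + lg n k m / k)) t d w ht hw hwd
        hnn hEx hg hB hC S r line rule href U hO w₀
      have h4 : (2 : ℝ) ^ ((1 - K * Real.log k * (1 / Real.sqrt k + lg n k m / k)) * n) ≤
          (2 : ℝ) ^ ((1 - 10 * (K₂ * Real.log k * (1 / Real.sqrt k + lg n k m / k))) * n) := by
        refine Real.rpow_le_rpow_of_exponent_le (by norm_num) ?_
        refine mul_le_mul_of_nonneg_right ?_ hn0.le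
        have h5 : 0 ≤ Real.log k * (1 / Real.sqrt k + lg n k m / k) := by positivity
        have h6 := mul_le_mul_of_nonneg_right hK2' h5
        linarith
      exact h4.trans (by convert h3)
    · push Not at hc
      have h4 : 1 ≤ (K : ℝ) * Real.log k * (1 / Real.sqrt k + lg n k m / k) := by
        have h5 : (K₂ : ℝ) * (1 / Real.sqrt k + lg n k m / k) ≤
            K * Real.log k * (1 / Real.sqrt k + lg n k m / k) := by
          refine mul_le_mul_of_nonneg_right ?_ hs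
          have : (0 : ℝ) ≤ K := Nat.cast_nonneg _
          nlinarith
        linarith
      refine le_trans (rpow_le_one' _ ?_) ?_
      · exact mul_nonpos_of_nonpos_of_nonneg (by linarith) hn0.le
      · have h5 := one_le_S href
        have h6 : (1 : ℝ) ≤ S * (3 / 2 : ℝ) ^ w₀ := by nlinarith
        nlinarith
  · -- width
    intro S r line rule href
    by_cases hc : (K₂ : ℝ) * (1 / Real.sqrt k + lg n k m / k) ≤ 1
    · obtain ⟨t, d, w, ht, hw, -, hnn, hEx, hg, ha, -, -⟩ := hP2 hc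
      obtain ⟨i, hi, h⟩ := width_of hWID F (K₂ * (1 / Real.sqrt k + lg n k m / k)) (2 * t) d w
        (by omega) (by omega) hnn hEx (fun x => Gd_mono (by omega) (hg x)) ha S r line rule href
      refine ⟨i, hi, le_trans (mul_le_mul_of_nonneg_right ?_ hn0.le) h⟩
      have := mul_le_mul_of_nonneg_right hK2 hs
      linarith
    · refine ⟨r, href.1, ?_⟩
      push Not at hc
      have := mul_le_mul_of_nonneg_right hK2 hs
      refine le_trans (mul_nonpos_of_nonpos_of_nonneg (by linarith) hn0.le) (Nat.cast_nonneg _)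
  · -- general
    intro S r line rule href
    by_cases hc : (K₂ : ℝ) * (1 / Real.sqrt k + lg n k m / k) ≤ 1
    · obtain ⟨t, d, w, ht, hw, -, hnn, hEx, hg, -, hB, hC⟩ := hP2 hc
      have h3 := general_ofS hGSZ F (K₂ * Real.log k * (1 / Real.sqrt k + lg n k m / k)) t d w ht hw
        hEx hg hB hC S r line rule href
      refine le_trans (mul_le_mul_of_nonneg_left
        (Real.rpow_le_rpow_of_exponent_le (by norm_num) ?_) (by positivity)) h3
      have h4 : (K₂ : ℝ) * Real.log k * (1 / Real.sqrt k + lg n k m / k) * n ≤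
          K * Real.log k * (1 / Real.sqrt k + lg n k m / k) * n := by gcongr
      linarith
    · push Not at hc
      refine le_trans ?_ (one_le_S href)
      have h4 : 1 ≤ (K : ℝ) * Real.log k * (1 / Real.sqrt k + lg n k m / k) := by
        have h5 : (K₂ : ℝ) * (1 / Real.sqrt k + lg n k m / k) ≤
            K * Real.log k * (1 / Real.sqrt k + lg n k m / k) := by
          refine mul_le_mul_of_nonneg_right ?_ hs
          have : (0 : ℝ) ≤ K := Nat.cast_nonneg _
          nlinarith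
        linarith
      have h6 : (2 : ℝ) ^ (-(K * Real.log k * (1 / Real.sqrt k + lg n k m / k) * n)) ≤
          (2 : ℝ) ^ (-(n : ℝ)) := by
        refine Real.rpow_le_rpow_of_exponent_le (by norm_num) ?_
        have := mul_le_mul_of_nonneg_right h4 hn0.le
        linarith
      refine le_trans (mul_le_mul_of_nonneg_left h6 (by positivity)) ?_
      rw [Real.rpow_neg (by norm_num), Real.rpow_natCast, ← div_eq_mul_inv, ← div_pow]
      exact pow_le_one₀ (by norm_num) (by norm_num)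

open Classical in
theorem evC (hTSZ : T_TSZ) (hRZ3 : T_RZ3) (hRZ2 : T_RZ2) (hWID : T_WID) (hGSZ : T_GSZ) (hTRU : T_TRU)
    (hLEM : T_LEM)
    (hAVG : T_AVG) (hNEX : T_NEX) (hNM3 : T_NM3) (hNM4 : T_NM4) (hNM2 : T_NM2) (hNUP : T_NUP) :
    ∃ K : ℕ, 3 ≤ K ∧ ∀ k n m : ℕ, K ≤ k → K * k ≤ n → ∀ Q : Finset (Fml n k m), Cnt Q →
      (n : ℝ) * (Q.filter fun F => ¬ HdV (K : ℝ) F).card ≤ Q.card := by
  obtain ⟨K₁, K₁', hK1, h1⟩ := ev1t hAVG hNM3 hNEX
  obtain ⟨K₂, K₂', hK2, h2⟩ := ev2t hNM2 hNEX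
  obtain ⟨K₃, hK3, h3⟩ := ev3 hNUP
  obtain ⟨K₄, K₄', hK4, h4⟩ := evR hAVG hNM4 hNEX
  obtain ⟨K, hK⟩ : ∃ K, K = 2 * K₁ + K₁' + 10 * K₂ + K₂' + K₃ + 17 * K₄ + K₄' + 3 := ⟨_, rfl⟩
  refine ⟨K, by omega, fun k n m hk hn Q hQ => ?_⟩
  have hle : ∀ a : ℕ, a ≤ K → a * k ≤ n := fun a ha =>
    le_trans (Nat.mul_le_mul_right _ ha) hn
  have hkn : k ≤ n := by
    have := hle 1 (by omega)
    omega
  have hn0 : (0 : ℝ) < n := by
    have : 0 < n := by omega
    exact_mod_cast this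
  have e1 := h1 k n m (by omega) (hle _ (by omega)) Q hQ
  have e2 := h2 k n m (by omega) (hle _ (by omega)) Q hQ
  have e3 := h3 k n m (by omega) (hle _ (by omega)) Q hQ
  have e4 := h4 k n m (by omega) (hle _ (by omega)) Q hQ
  have e12 : ((Q.filter fun F => ¬ (Pt1 K₁ n k m F ∧ Pt2 K₂ n k m F)).card : ℝ) ≤
      (1 / (8 * n) + 1 / (8 * n)) * Q.card := or_bound Q _ (fun F => Pt1 K₁ n k m F)
    (fun F => Pt2 K₂ n k m F) (1 / (8 * (n : ℝ))) (1 / (8 * (n : ℝ)))
    (fun F ha hb => ⟨ha, hb⟩) e1 e2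
  have e34 : ((Q.filter fun F => ¬ (Pr3 n k m F ∧ PtR K₄ n k m F)).card : ℝ) ≤
      (1 / (8 * n) + 1 / (8 * n)) * Q.card := or_bound Q _ (fun F => Pr3 n k m F)
    (fun F => PtR K₄ n k m F) (1 / (8 * (n : ℝ))) (1 / (8 * (n : ℝ)))
    (fun F ha hb => ⟨ha, hb⟩) e3 e4
  have e : ((Q.filter fun F => ¬ HdV (K : ℝ) F).card : ℝ) ≤
      ((1 / (8 * n) + 1 / (8 * n)) + (1 / (8 * n) + 1 / (8 * n))) * Q.card := or_bound Q _
    (fun F => Pt1 K₁ n k m F ∧ Pt2 K₂ n k m F) (fun F => Pr3 n k m F ∧ PtR K₄ n k m F)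
    (1 / (8 * (n : ℝ)) + 1 / (8 * (n : ℝ))) (1 / (8 * (n : ℝ)) + 1 / (8 * (n : ℝ)))
    (fun F ha hb => HdV_of hTSZ hRZ3 hRZ2 hWID hGSZ hTRU hLEM F _ K₁ K₂ K₄ (by omega) (by omega)
      (by omega) (by omega) (by omega) ha.1 ha.2 hb.2 hb.1) e12 e34
  have e' := mul_le_mul_of_nonneg_left e hn0.le
  have h4 : (n : ℝ) * (((1 / (8 * n) + 1 / (8 * n)) + (1 / (8 * n) + 1 / (8 * n))) * Q.card) =
      1 / 2 * Q.card := by
    field_simp
    ring
  have h5 : (0 : ℝ) ≤ Q.card := Nat.cast_nonneg _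
  rw [h4] at e'
  linarith

theorem pf_FIN3 (hTSZ : T_TSZ) (hRZ3 : T_RZ3) (hRZ2 : T_RZ2) (hWID : T_WID) (hGSZ : T_GSZ) (hTRU : T_TRU)
    (hLEM : T_LEM)
    (hAVG : T_AVG) (hNEX : T_NEX) (hNM3 : T_NM3) (hNM4 : T_NM4) (hNM2 : T_NM2) (hNUP : T_NUP)
    (hPGX : T_PGX) (hPEX : T_PEX) (hPX2 : T_PX2) (hPSA : T_PSA) (hPAL : T_PAL)
    (hDGX : T_DGX) (hDEX : T_DEX) (hDAL : T_DAL) : MainSV := by
  classical
  obtain ⟨K, hK, h⟩ := evC hTSZ hRZ3 hRZ2 hWID hGSZ hTRU hLEM hAVG hNEX hNM3 hNM4 hNM2 hNUP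
  refine ⟨K, by omega, fun k n m hk hn => ?_⟩
  have hkn : k < n := by
    have : 3 * k ≤ n := (Nat.mul_le_mul_right _ hK).trans hn
    omega
  constructor
  · have h3 := h k n m hk hn univ (cnt_iid hPGX hPEX hPX2 hPSA hPAL n k m hkn)
    have h4 : (Nat.card {F : Fml n k m // ¬ HdV (K : ℝ) F} : ℝ) ≤
        (univ.filter fun F : Fml n k m => ¬ HdV (K : ℝ) F).card :=
      natcard_le _ _ fun F hF => hF
    have h5 : ((Nat.card (Fml n k m) : ℕ) : ℝ) = ((univ : Finset (Fml n k m)).card : ℕ) := by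
      rw [Nat.card_eq_fintype_card, card_univ]
    rw [h5]
    exact (mul_le_mul_of_nonneg_left h4 (Nat.cast_nonneg _)).trans h3
  · have h3 := h k n m hk hn _ (cnt_dist hDGX hDEX hDAL n k m hkn)
    have h4 : (Nat.card {F : Fml n k m // Dist F ∧ ¬ HdV (K : ℝ) F} : ℝ) ≤
        ((univ.filter fun F : Fml n k m => Dist F).filter
          fun F : Fml n k m => ¬ HdV (K : ℝ) F).card := by
      rw [filter_filter]
      exact natcard_le _ _ fun F hF => hF
    have h5 : ((Nat.card {F : Fml n k m // Dist F} : ℕ) : ℝ) =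
        ((univ.filter fun F : Fml n k m => Dist F).card : ℕ) := by
      rw [Nat.card_eq_fintype_card, Fintype.card_subtype]
    rw [h5]
    exact (mul_le_mul_of_nonneg_left h4 (Nat.cast_nonneg _)).trans h3

end Pool.Agent.H41.SS
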