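import Pool.Agent.H97.RL.Stmt3
import Pool.Agent.H97.RK.Stmt2

/-!
Resolution on random k-CNFs, the exact savings (MP_c62aed_lc): the statement.
-/

set_option autoImplicit false

namespace Pool.Agent.H41.SS

open Finset Pool.Agent.H97.RK Pool.Agent.H97.RL

/-- `log (k (1 + Δ))`, where `m = Δ 2 ^ k n` is the number of clauses -/
noncomputable def lg (n k m : ℕ) : ℝ := Real.log (k * (1 + m / (2 ^ k * n)))

/-- `(1 + log (k / R)) √((R - 1) / k) + ((log k) ^ 2 + log (k (1 + Δ))) / k`, where
`m = Δ 2 ^ k n` is the number of clauses -/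
noncomputable def lp (n k m R : ℕ) : ℝ :=
  (1 + Real.log (k / R)) * Real.sqrt (((R : ℝ) - 1) / k) + (Real.log k ^ 2 + lg n k m) / k

/-- The properties of a formula `F` with `n` variables and `m = Δ 2 ^ k n` clauses of `k`
literals; `lg n k m = log (k (1 + Δ))` and
`lp n k m R = (1 + log (k / R)) √((R - 1) / k) + ((log k) ^ 2 + log (k (1 + Δ))) / k`.

`tree`: a resolution refutation of `F` with `S` lines in which every line which has more than
`(log (k (1 + Δ)) / k) n` literals and is not obtained from a clause of `F` is used at most once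
satisfies `2 ^ ((1 - C log (k (1 + Δ)) / k) n) ≤ S`.

`upper`: if `1 ≤ Δ ≤ 2 ^ k`, then `F` has a refutation in which every line which is not obtained
from a clause of `F` is used at most once (so it is tree-like) and no variable is resolved twice on
a path, with `S ≤ 2 ^ ((1 - log (k (1 + Δ)) / (4 k)) n)`.

`parts`: let `1 ≤ R ≤ k`, let `U` be a set of lines with at most `lp n k m R n` literals and `V` a
set of lines such that every other line, if it is not obtained from a clause of `F`, is used at most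
once. If on each path which starts in the empty line or in a line of `U` and meets no line of `U`
after its beginning at most `ρ n` variables are resolved in more than `R` of the parts into which
the lines of `V` cut it, then `2 ^ ((1 - ρ - C lp n k m R) n) ≤ S`.

`lemmas`: if every line outside `U`, unless it is obtained from a clause of `F`, is used at most
once, and `M` lines in `U` have more than `w` literals, then
`2 ^ ((1 - C log k (1 / √k + log (k (1 + Δ)) / k)) n) ≤ S (3 / 2) ^ w (M + 1) ^ (3 / 2)`.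

`width`: every resolution refutation has a line with at least
`(1 - C (1 / √k + log (k (1 + Δ)) / k)) n` literals.

`general`: `(3 / 2) ^ n 2 ^ (- C log k (1 / √k + log (k (1 + Δ)) / k) n) ≤ S` for every resolution
refutation. -/
structure HdU {n k m : ℕ} (C : ℝ) (F : Fml n k m) : Prop where
  tree : ∀ (S r : ℕ) (line : ℕ → Clause n) (rule : ℕ → Rule n), IsRef F S r line rule →
    ∀ U : Finset ℕ, Once S rule U → (∀ l ∈ U, ((line l).card : ℝ) ≤ lg n k m / k * n) →
    (2 : ℝ) ^ ((1 - C * lg n k m / k) * n) ≤ S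
  upper : 2 ^ k * n ≤ m → m ≤ 4 ^ k * n →
    ∃ (S r : ℕ) (line : ℕ → Clause n) (rule : ℕ → Rule n), IsRef F S r line rule ∧
      Once S rule ∅ ∧ (∀ (i : ℕ) (l : List (Fin n)), Path rule r i l → l.Nodup) ∧
      (S : ℝ) ≤ (2 : ℝ) ^ ((1 - lg n k m / (4 * k)) * n)
  parts : ∀ (S r : ℕ) (line : ℕ → Clause n) (rule : ℕ → Rule n), IsRef F S r line rule →
    ∀ (U V : Finset ℕ) (R : ℕ), 1 ≤ R → R ≤ k → Once S rule (U ∪ V) →
    (∀ l ∈ U, ((line l).card : ℝ) ≤ lp n k m R * n) → ∀ ρ : ℝ,
    (∀ (a i : ℕ) (q : Finset (Fin n)) (l : List (Fin n)), (a = r ∨ a ∈ U) →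
      Seg3 rule U V a i q l → ((univ.filter fun v => R < l.count v).card : ℝ) ≤ ρ * n) →
    (2 : ℝ) ^ ((1 - ρ - C * lp n k m R) * n) ≤ S
  lemmas : ∀ (S r : ℕ) (line : ℕ → Clause n) (rule : ℕ → Rule n), IsRef F S r line rule →
    ∀ U : Finset ℕ, Once S rule U → ∀ w : ℕ,
    (2 : ℝ) ^ ((1 - C * Real.log k * (1 / Real.sqrt k + lg n k m / k)) * n) ≤
      S * (3 / 2 : ℝ) ^ w * (((U.filter fun l => w < (line l).card).card : ℝ) + 1) ^ (3 / 2 : ℝ)
  width : ∀ (S r : ℕ) (line : ℕ → Clause n) (rule : ℕ → Rule n), IsRef F S r line rule →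
    ∃ i, i < S ∧ (1 - C * (1 / Real.sqrt k + lg n k m / k)) * n ≤ ((line i).card : ℝ)
  general : ∀ (S r : ℕ) (line : ℕ → Clause n) (rule : ℕ → Rule n), IsRef F S r line rule →
    (3 / 2 : ℝ) ^ n * (2 : ℝ) ^ (-(C * Real.log k * (1 / Real.sqrt k + lg n k m / k) * n)) ≤ S

/-- Among the formulas with `m` clauses of `k` literals at most the fraction `1 / n` does not have
these properties, and the same among the formulas with `m` clauses of `k` literals with distinct
variables. -/
def MainSU : Prop :=
  ∃ K : ℕ, 1 ≤ K ∧ ∀ k n m : ℕ, K ≤ k → K * k ≤ n →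
    (n : ℝ) * Nat.card {F : Fml n k m // ¬ HdU K F} ≤ Nat.card (Fml n k m) ∧
    (n : ℝ) * Nat.card {F : Fml n k m // Dist F ∧ ¬ HdU K F} ≤
      Nat.card {F : Fml n k m // Dist F}

end Pool.Agent.H41.SS
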