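import Pool.Agent.H41.SS.Stmt
import Pool.Agent.H97.RL.Targets3

/-!
Resolution on random k-CNFs, the exact savings (MP_c62aed_lc): auxiliary definitions and targets.
-/

set_option autoImplicit false

namespace Pool.Agent.H41.SS

open Finset Pool.Agent.H97.RK Pool.Agent.H97.RL

section

variable {n k m : ℕ}

/-- the variables of the clause `c` -/
def vF (F : Fml n k m) (c : Fin m) : Finset (Fin n) := univ.image fun i => (F c i).1

/-- the variables of the clauses in `S` -/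
def VS (F : Fml n k m) (S : Finset (Fin m)) : Finset (Fin n) := S.biUnion (vF F)

open Classical in
/-- `x` is good: few clauses lie in `T ∪ W` and are false under `x` on `T` -/
def Gd (F : Fml n k m) (D d w : ℕ) (x : Fin n → Bool) : Prop :=
  ∀ T W : Finset (Fin n), Disjoint T W → W.card ≤ w → T.card + W.card + d ≤ n →
    (univ.filter fun c => (∀ i, (F c i).1 ∈ T ∪ W) ∧ Al F x T c).card < D

/-- small sets of clauses expand -/
def Ex (F : Fml n k m) (D : ℕ) : Prop :=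
  ∀ S : Finset (Fin m), S.card ≤ D → 2 * S.card ≤ (VS F S).card

/-- the state of the adversary: `A` is the set of the known variables, `W` the set of the reserved
variables, `J` the set of the reserved clauses, `y` the assignment in his mind -/
structure Sta (F : Fml n k m) (D b : ℕ) (y : Fin n → Bool) (A W : Finset (Fin n))
    (J : Finset (Fin m)) : Prop where
  mem : ∀ c ∈ J, ∀ i, (F c i).1 ∈ A ∪ W
  fls : ∀ c ∈ J, Al F y (A \ W) c
  sat : ∀ c ∈ J, Sa F y (A ∪ W) c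
  inv : ∀ S : Finset (Fin m), S.card ≤ D → (∀ c ∈ S, Al F y (A ∪ W) c) →
    2 * S.card ≤ (VS F S \ (A ∪ W)).card
  lt : J.card < D
  crd : W.card ≤ b + 2 * J.card

/-- there is a state at the line `l` in which exactly the variables of the line are known -/
def AtS (F : Fml n k m) (D : ℕ) (line : ℕ → Clause n) (l : ℕ) : Prop :=
  ∃ (y : Fin n → Bool) (W : Finset (Fin n)) (J : Finset (Fin m)),
    Sta F D 0 y (vs (line l)) W J ∧ Falsified (line l) y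

/-- every partial assignment of `u` variables extends to a good assignment -/
def Goo (F : Fml n k m) (D d w u : ℕ) : Prop :=
  ∀ (A : Finset (Fin n)) (y : Fin n → Bool), A.card ≤ u →
    ∃ z : Fin n → Bool, Gd F D d w z ∧ ∀ v ∈ A, z v = y v

open Classical in
/-- number of the lines (not obtained from clauses of the formula) with anchor `l` whose list of
answers extends `L` -/
noncomputable def NL (S : ℕ) (rule : ℕ → Rule n) (an : ℕ → ℕ) (ls : ℕ → List (Fin n × Bool))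
    (l : ℕ) (L : List (Fin n × Bool)) : ℕ :=
  ((range S).filter fun j => rule j ≠ Rule.ax ∧ an j = l ∧ L <:+ ls j).card

open Classical in
/-- the partial assignments of the first `i` variables which falsify no clause -/
noncomputable def Alv (F : Fml n k m) (i : ℕ) : Finset (Fin n → Bool) :=
  univ.filter fun z => (∀ v : Fin n, i ≤ v.1 → z v = false) ∧
    ∀ c, ¬ ((∀ j, ((F c j).1 : ℕ) < i) ∧ ∀ j, z (F c j).1 ≠ (F c j).2)

end

/-! ### The adversary -/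

/-- (TRN) only the values on `A ∪ W` matter. -/
def T_TRN : Prop :=
  ∀ (n k m : ℕ) (F : Fml n k m) (D b : ℕ) (y y' : Fin n → Bool) (A W : Finset (Fin n))
    (J : Finset (Fin m)), Sta F D b y A W J → (∀ u ∈ A ∪ W, y' u = y u) → Sta F D b y' A W J

/-- (INI) the initial state. -/
def T_INI : Prop :=
  ∀ (n k m : ℕ) (F : Fml n k m) (D : ℕ), 1 ≤ D → Ex F D → ∀ y : Fin n → Bool,
    Sta F D 0 y ∅ ∅ ∅

/-- (HAL) Hall: a set of living clauses is satisfied outside of the known and the reserved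
variables and one more variable. -/
def T_HAL : Prop :=
  ∀ (n k m : ℕ) (F : Fml n k m) (D b : ℕ) (y : Fin n → Bool) (A W : Finset (Fin n))
    (J : Finset (Fin m)), Sta F D b y A W J → ∀ (v : Fin n) (S : Finset (Fin m)), S.card ≤ D →
    (∀ c ∈ S, Al F y (A ∪ W) c) →
    ∃ z : Fin n → Bool, (∀ u ∈ insert v (A ∪ W), z u = y u) ∧ ∀ c ∈ S, Sa F z univ c

/-- (CLS) the closure. -/
def T_CLS : Prop :=
  ∀ (n k m : ℕ) (F : Fml n k m) (D d w b : ℕ), b + 6 * D ≤ w →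
    ∀ (x y : Fin n → Bool) (A W : Finset (Fin n)) (J : Finset (Fin m)), Gd F D d w x →
    (∀ u, u ∉ W → y u = x u) → (∀ c ∈ J, ∀ i, (F c i).1 ∈ A ∪ W) →
    (∀ c ∈ J, Al F y (A \ W) c) → (∀ c ∈ J, Sa F y (A ∪ W) c) → J.card < D →
    W.card ≤ b + 2 * J.card → A.card + w + d ≤ n →
    (∀ S : Finset (Fin m), S.card < D → (∀ c ∈ S, Al F y (A ∪ W) c) →
      ∃ z : Fin n → Bool, (∀ u ∈ A ∪ W, z u = y u) ∧ ∀ c ∈ S, Sa F z univ c) →
    ∃ (y' : Fin n → Bool) (W' : Finset (Fin n)) (J' : Finset (Fin m)),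
      W ⊆ W' ∧ (∀ u ∈ A ∪ W, y' u = y u) ∧ (∀ u, u ∉ W' → y' u = x u) ∧ Sta F D b y' A W' J'

/-- (ASK) one more variable is asked. -/
def T_ASK : Prop :=
  ∀ (n k m : ℕ) (F : Fml n k m) (D d w b : ℕ), b + 6 * D ≤ w →
    ∀ (x y : Fin n → Bool) (A W : Finset (Fin n)) (J : Finset (Fin m)) (v : Fin n),
    Gd F D d w x → Sta F D b y A W J → (∀ u, u ∉ W → y u = x u) →
    (insert v A).card + w + d ≤ n →
    ∃ (y' : Fin n → Bool) (W' : Finset (Fin n)) (J' : Finset (Fin m)),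
      W ⊆ W' ∧ (∀ u ∈ insert v (A ∪ W), y' u = y u) ∧ (∀ u, u ∉ W' → y' u = x u) ∧
      Sta F D b y' (insert v A) W' J'

/-- (SAF) sets of clauses are satisfied without a change on the known and the reserved
variables. -/
def T_SAF : Prop :=
  ∀ (n k m : ℕ) (F : Fml n k m) (D b : ℕ) (y : Fin n → Bool) (A W : Finset (Fin n))
    (J : Finset (Fin m)), Sta F D b y A W J → ∀ S : Finset (Fin m), S.card ≤ D →
    ∃ z : Fin n → Bool, (∀ u ∈ A ∪ W, z u = y u) ∧ ∀ c ∈ S, Sa F z univ c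

/-- (FGT) variables are forgotten, the reserved variables are kept. -/
def T_FGT : Prop :=
  ∀ (n k m : ℕ) (F : Fml n k m) (D d w b : ℕ),
    ∀ (x y : Fin n → Bool) (A A₀ W : Finset (Fin n)) (J : Finset (Fin m)),
    Gd F D d w x → Sta F D b y A W J → (∀ u, u ∉ W → y u = x u) → A₀ ⊆ A →
    W.card + 6 * D ≤ w → A₀.card + w + d ≤ n →
    ∃ (y' : Fin n → Bool) (W' : Finset (Fin n)) (J' : Finset (Fin m)),
      W ⊆ W' ∧ (∀ u ∈ A₀ ∪ W, y' u = y u) ∧ (∀ u, u ∉ W' → y' u = x u) ∧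
      Sta F D W.card y' A₀ W' J'

/-- (RSR) a new start: the reserved variables are forgotten, too. -/
def T_RSR : Prop :=
  ∀ (n k m : ℕ) (F : Fml n k m) (D d w b : ℕ), 6 * D ≤ w →
    ∀ (z y : Fin n → Bool) (A A₀ W : Finset (Fin n)) (J : Finset (Fin m)),
    Gd F D d w z → Sta F D b y A W J → A₀ ⊆ A → (∀ u ∈ A₀, z u = y u) →
    A₀.card + w + d ≤ n →
    ∃ (y' : Fin n → Bool) (W' : Finset (Fin n)) (J' : Finset (Fin m)),
      (∀ u ∈ A₀, y' u = y u) ∧ (∀ u, u ∉ W' → y' u = z u) ∧ Sta F D 0 y' A₀ W' J'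

/-- (STP) one step of the path. -/
def T_STP : Prop :=
  ∀ (n k m : ℕ) (F : Fml n k m) (D d w b : ℕ), b + 6 * D ≤ w →
    ∀ (S r : ℕ) (line : ℕ → Clause n) (rule : ℕ → Rule n), IsRef F S r line rule →
    ∀ (i : ℕ) (x y : Fin n → Bool) (A W : Finset (Fin n)) (J : Finset (Fin m)), i < S →
    Gd F D d w x → Sta F D b y A W J → (∀ u, u ∉ W → y u = x u) → Falsified (line i) y →
    vs (line i) ⊆ A → A.card + 1 + w + d ≤ n →
    rule i ≠ Rule.ax ∧
    ∃ (i' : ℕ) (y' : Fin n → Bool) (A' W' : Finset (Fin n)) (J' : Finset (Fin m)),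
      i' < i ∧ Sta F D b y' A' W' J' ∧ (∀ u, u ∉ W' → y' u = x u) ∧ Falsified (line i') y' ∧
      vs (line i') ⊆ A' ∧ W ⊆ W' ∧ (∀ u ∈ A ∪ W, y' u = y u) ∧
      ((rule i = Rule.weak i' ∧ A' = A) ∨ ∃ (v : Fin n) (a : ℕ), A' = insert v A ∧
        ((rule i = Rule.res v i' a ∧ y' v = false) ∨ (rule i = Rule.res v a i' ∧ y' v = true)))

/-! ### Tree-like refutations -/

open Classical in
/-- (TCI) counting in a tree. -/
def T_TCI : Prop :=
  ∀ (n k m : ℕ) (F : Fml n k m) (D d w u : ℕ), 6 * D ≤ w → Goo F D d w u → u + w + d ≤ n →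
    ∀ (S r : ℕ) (line : ℕ → Clause n) (rule : ℕ → Rule n), IsRef F S r line rule →
    ∀ (U : Finset ℕ) (an : ℕ → ℕ) (ls : ℕ → List (Fin n × Bool)), Tree S r rule U an ls →
    (∀ l ∈ U, (vs (line l)).card ≤ u) →
    ∀ (l i : ℕ) (y : Fin n → Bool) (A W : Finset (Fin n)) (J : Finset (Fin m)), i ≤ l → l ≤ r →
    rule i ≠ Rule.ax → an i = l → Sta F D 0 y A W J → vs (line i) ⊆ A → Falsified (line i) y →
    A.card + w + d ≤ n →
    (∃ l', l' < l ∧ l' ∈ U ∧ AtS F D line l') ∨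
      (univ.filter fun z => Gd F D d w z ∧ ∀ v ∈ A \ W, z v = y v).card ≤
        NL S rule an ls l (ls i) * 2 ^ (w + d + 2 * D + 1)

open Classical in
/-- (TSZ) the size of tree-like refutations. -/
def T_TSZ : Prop :=
  ∀ (n k m : ℕ) (F : Fml n k m) (D d w u : ℕ), 1 ≤ D → 6 * D ≤ w → u + w + d ≤ n → Ex F D →
    (univ.filter fun z => ¬ Gd F D d w z).card * 2 ^ (u + 1) ≤ 2 ^ n →
    ∀ (S r : ℕ) (line : ℕ → Clause n) (rule : ℕ → Rule n), IsRef F S r line rule →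
    ∀ U : Finset ℕ, Once S rule U → (∀ l ∈ U, (vs (line l)).card ≤ u) →
    2 ^ n ≤ S * 2 ^ (w + d + 2 * D + u + 2)

open Classical in
/-- (GOO) good assignments are everywhere. -/
def T_GOO : Prop :=
  ∀ (n k m : ℕ) (F : Fml n k m) (D d w u : ℕ), u ≤ n →
    (univ.filter fun z => ¬ Gd F D d w z).card * 2 ^ (u + 1) ≤ 2 ^ n →
    Goo F D d w u ∧ ∀ (A : Finset (Fin n)) (y : Fin n → Bool), A.card ≤ u →
      2 ^ n ≤ (univ.filter fun z => Gd F D d w z ∧ ∀ v ∈ A, z v = y v).card * 2 ^ (u + 1)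

/-! ### Refutations in which few variables are resolved in more than one part -/

/-- (RUN) the path ends in a wide line. -/
def T_RUN : Prop :=
  ∀ (n k m : ℕ) (F : Fml n k m) (D d w u h : ℕ), 8 * D ≤ w → Goo F D d w u → u + w + d ≤ n →
    ∀ (S r : ℕ) (line : ℕ → Clause n) (rule : ℕ → Rule n), IsRef F S r line rule →
    ∀ (U V : Finset ℕ) (an : ℕ → ℕ) (ls : ℕ → List (Fin n × Bool)),
    Tree S r rule (U ∪ V) an ls → (∀ l ∈ U, (vs (line l)).card ≤ u) →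
    (∀ (a i : ℕ) (q : Finset (Fin n)) (l : List (Fin n)), (a = r ∨ a ∈ U) →
      Seg3 rule U V a i q l → (univ.filter fun v => 1 < l.count v).card ≤ h) →
    ∀ (l : ℕ) (x y : Fin n → Bool) (W : Finset (Fin n)) (J : Finset (Fin m)), l < S → l ≤ r →
    (l ∈ U ∨ l = r) → Sta F D 0 y (vs (line l)) W J → Falsified (line l) y → Gd F D d w x →
    (∀ v ∈ vs (line l) \ W, x v = y v) →
    (∃ i, i < S ∧ ∃ y' : Fin n → Bool, Falsified (exC (line (an i)) (ls i)) y' ∧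
      n ≤ (vs (exC (line (an i)) (ls i))).card + (h + 2 * (w + d) + u + 1) ∧
      dst y' x ≤ 4 * D) ∨
      ∃ l', l' < l ∧ l' ∈ U ∧ AtS F D line l'

/-- (CNR) counting assignments. -/
def T_CNR : Prop :=
  ∀ (n S g q : ℕ) (C : ℕ → Clause n) (X : Finset (Fin n → Bool)),
    (∀ x ∈ X, ∃ i, i < S ∧ ∃ y, Falsified (C i) y ∧ n ≤ (vs (C i)).card + g ∧ dst y x ≤ q) →
    X.card ≤ S * (2 ^ g * bl n q)

open Classical in
/-- (RSZ) the size. -/
def T_RSZ : Prop :=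
  ∀ (n k m : ℕ) (F : Fml n k m) (D d w u h : ℕ), 1 ≤ D → 8 * D ≤ w → u + w + d ≤ n → Ex F D →
    (univ.filter fun z => ¬ Gd F D d w z).card * 2 ^ (u + 1) ≤ 2 ^ n →
    ∀ (S r : ℕ) (line : ℕ → Clause n) (rule : ℕ → Rule n), IsRef F S r line rule →
    ∀ U V : Finset ℕ, Once S rule (U ∪ V) → (∀ l ∈ U, (vs (line l)).card ≤ u) →
    (∀ (a i : ℕ) (q : Finset (Fin n)) (l : List (Fin n)), (a = r ∨ a ∈ U) →
      Seg3 rule U V a i q l → (univ.filter fun v => 1 < l.count v).card ≤ h) →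
    2 ^ n ≤ S * (2 ^ (h + 2 * (w + d) + 2 * u + 2) * bl n (4 * D))

/-! ### All refutations -/

/-- (WID) the width. -/
def T_WID : Prop :=
  ∀ (n k m : ℕ) (F : Fml n k m) (D d w : ℕ), 1 ≤ D → 6 * D ≤ w → w + d + 1 ≤ n → Ex F D →
    (∀ x, Gd F D d w x) →
    ∀ (S r : ℕ) (line : ℕ → Clause n) (rule : ℕ → Rule n), IsRef F S r line rule →
    ∃ i, i < S ∧ n ≤ (vs (line i)).card + (w + d)

/-- (TAS) restrictions. -/
def T_TAS : Prop :=
  ∀ (n k m : ℕ) (F : Fml n k m) (D d w : ℕ), 1 ≤ D → 6 * D ≤ w → Ex F D →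
    (∀ x, Gd F D d w x) → ∀ (x : Fin n → Bool) (A : Finset (Fin n)), A.card + (w + d) ≤ n →
    ∃ (y : Fin n → Bool) (W : Finset (Fin n)) (J : Finset (Fin m)),
      Sta F D 0 y A W J ∧ dst y x ≤ 2 * D

/-- (MES) a line of medium strength. -/
def T_MES : Prop :=
  ∀ (n k m : ℕ) (F : Fml n k m) (t d w b : ℕ), 1 ≤ t → 2 * t ≤ w → (∀ x, Gd F t d w x) →
    ∀ (S r : ℕ) (line : ℕ → Clause n) (rule : ℕ → Rule n), IsRef F S r line rule →
    ∀ (y : Fin n → Bool) (A W : Finset (Fin n)) (J : Finset (Fin m)),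
    Sta F (2 * t) b y A W J →
    ∃ i, i < S ∧ ∃ z : Fin n → Bool, (∀ u ∈ A, z u = y u) ∧ Falsified (line i) z ∧
      n ≤ (A ∪ vs (line i)).card + (d + 2 * t)

/-- (GSZ) the size. -/
def T_GSZ : Prop :=
  ∀ (n k m : ℕ) (F : Fml n k m) (t d w : ℕ), 1 ≤ t → 12 * t ≤ w → Ex F (2 * t) →
    (∀ x, Gd F t d w x) →
    ∀ (S r : ℕ) (line : ℕ → Clause n) (rule : ℕ → Rule n), IsRef F S r line rule →
    3 ^ n ≤ S * (2 ^ n * bl n (d + 2 * t) * bl n (4 * t)) + 2 ^ n * bl n (w + d)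

/-! ### Random formulas -/

open Classical in
/-- (PGX) a fixed assignment is good. -/
def T_PGX : Prop :=
  ∀ (n k m D d w : ℕ), 1 ≤ n → d + w ≤ n → ∀ x : Fin n → Bool,
    ((univ.filter fun F : Fml n k m => ¬ Gd F D d w x).card : ℝ) ≤
      (n.choose d : ℝ) * n.choose w * m.choose D *
        (((n : ℝ) - d + w) / (2 * n)) ^ (k * D) * ((2 * n) ^ k : ℝ) ^ m

open Classical in
/-- (DGX) the same for distinct variables. -/
def T_DGX : Prop :=
  ∀ (n k m D d w : ℕ), 1 ≤ n → k ≤ n → d + w ≤ n → ∀ x : Fin n → Bool,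
    ((univ.filter fun F : Fml n k m => Dist F ∧ ¬ Gd F D d w x).card : ℝ) ≤
      (n.choose d : ℝ) * n.choose w * m.choose D *
        (((n : ℝ) - d + w) / (2 * n)) ^ (k * D) *
        (univ.filter fun F : Fml n k m => Dist F).card

open Classical in
/-- (PEX) expansion. -/
def T_PEX : Prop :=
  ∀ (n k m D : ℕ), 1 ≤ n → 2 * D ≤ n →
    ((univ.filter fun F : Fml n k m => ¬ Ex F D).card : ℝ) ≤
      (∑ s ∈ Icc 1 D, (n.choose (2 * s) : ℝ) * m.choose s * (2 * s / n : ℝ) ^ (k * s)) *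
        ((2 * n) ^ k : ℝ) ^ m

open Classical in
/-- (DEX) the same for distinct variables. -/
def T_DEX : Prop :=
  ∀ (n k m D : ℕ), 1 ≤ n → k ≤ n → 2 * D ≤ n →
    ((univ.filter fun F : Fml n k m => Dist F ∧ ¬ Ex F D).card : ℝ) ≤
      (∑ s ∈ Icc 1 D, (n.choose (2 * s) : ℝ) * m.choose s * (2 * s / n : ℝ) ^ (k * s)) *
        (univ.filter fun F : Fml n k m => Dist F).card

open Classical in
/-- (AVG) averaging. -/
def T_AVG : Prop :=
  ∀ (n k m u : ℕ) (Q : Finset (Fml n k m)) (B : Fml n k m → (Fin n → Bool) → Prop) (η : ℝ),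
    0 ≤ η → (∀ x, ((Q.filter fun F => B F x).card : ℝ) ≤ η * Q.card) →
    ((Q.filter fun F => ¬ (univ.filter fun x => B F x).card * 2 ^ (u + 1) ≤ 2 ^ n).card : ℝ) ≤
      η * 2 ^ (u + 1) * Q.card

/-! ### Numbers -/

/-- (CHO) binomial coefficients. -/
def T_CHO : Prop :=
  (∀ n a : ℕ, 1 ≤ a → (n.choose a : ℝ) ≤ (Real.exp 1 * n / a) ^ a) ∧
    ∀ n a : ℕ, 1 ≤ a → a ≤ n → (bl n a : ℝ) ≤ (Real.exp 1 * n / a) ^ a

/-- (NEX) expansion: the sum is small. -/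
def T_NEX : Prop :=
  ∃ K : ℕ, 1 ≤ K ∧ ∀ k n m D : ℕ, K ≤ k → K * k ≤ n → m ≤ 4 ^ k * n → 64 * D ≤ n →
    (∑ s ∈ Icc 1 D, (n.choose (2 * s) : ℝ) * m.choose s * (2 * s / n : ℝ) ^ (k * s)) ≤
      1 / (16 * n)

/-- (NM1) the parameters of the first two parts. -/
def T_NM1 : Prop :=
  ∃ K : ℕ, 1 ≤ K ∧ ∀ k n m : ℕ, K ≤ k → K * k ≤ n → (K : ℝ) * lg n k m ≤ k →
    ∃ D d w u : ℕ, 1 ≤ D ∧ 64 * D ≤ n ∧ 8 * D ≤ w ∧ u + w + d ≤ n ∧
      (∀ a : ℕ, (a : ℝ) ≤ Real.log k / k * n → a ≤ u) ∧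
      (n.choose d : ℝ) * n.choose w * m.choose D *
        (((n : ℝ) - d + w) / (2 * n)) ^ (k * D) * 2 ^ (u + 1) ≤ 1 / (16 * n) ∧
      (2 : ℝ) ^ (w + d + 2 * D + u + 2) ≤ (2 : ℝ) ^ (K * lg n k m / k * n) ∧
      (2 : ℝ) ^ (2 * (w + d) + 2 * u + 2) * bl n (4 * D) ≤
        (2 : ℝ) ^ (K * (Real.log k ^ 2 + lg n k m) / k * n)

/-- (NM2) the parameters of the next two parts. -/
def T_NM2 : Prop :=
  ∃ K : ℕ, 1 ≤ K ∧ ∀ k n m : ℕ, K ≤ k → K * k ≤ n →
    (K : ℝ) * (1 / Real.sqrt k + lg n k m / k) ≤ 1 →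
    ∃ t d w : ℕ, 1 ≤ t ∧ 128 * t ≤ n ∧ 12 * t ≤ w ∧ w ≤ d ∧ w + d + 1 ≤ n ∧
      (6 : ℝ) ^ n * m.choose t * (((n : ℝ) - d + w) / (2 * n)) ^ (k * t) ≤ 1 / (16 * n) ∧
      ((w : ℝ) + d) ≤ K * (1 / Real.sqrt k + lg n k m / k) * n ∧
      2 * (bl n (d + 2 * t) : ℝ) * bl n (4 * t) ≤
        (2 : ℝ) ^ (K * Real.log k * (1 / Real.sqrt k + lg n k m / k) * n) ∧
      2 * (2 ^ n * bl n (w + d)) ≤ 3 ^ n

/-! ### The upper bound -/

/-- (TRU) search with pruning gives a tree-like refutation. -/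
def T_TRU : Prop :=
  ∀ (n k m : ℕ) (F : Fml n k m), (∀ z, ∃ c, Falsified (cls F c) z) →
    ∃ (S r : ℕ) (line : ℕ → Clause n) (rule : ℕ → Rule n), IsRef F S r line rule ∧
      Once S rule ∅ ∧ (∀ (i : ℕ) (l : List (Fin n)), Path rule r i l → l.Nodup) ∧
      S ≤ 1 + 2 * ∑ i ∈ range n, (Alv F i).card

/-- (PAL) the number of the living partial assignments. -/
def T_PAL : Prop :=
  ∀ (n k m i : ℕ), 1 ≤ n → i ≤ n →
    ∑ F : Fml n k m, ((Alv F i).card : ℝ) ≤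
      2 ^ i * (1 - ((i : ℝ) / (2 * n)) ^ k) ^ m * ((2 * n) ^ k : ℝ) ^ m

open Classical in
/-- (DAL) the same for distinct variables. -/
def T_DAL : Prop :=
  ∀ (n k m i : ℕ), k < n → k ≤ i → i ≤ n →
    ∑ F ∈ univ.filter fun F : Fml n k m => Dist F, ((Alv F i).card : ℝ) ≤
      2 ^ i * (1 - (((i : ℝ) - k) / (2 * (n - k))) ^ k) ^ m *
        (univ.filter fun F : Fml n k m => Dist F).card

/-- (NUP) the numbers. -/
def T_NUP : Prop :=
  ∃ K : ℕ, 1 ≤ K ∧ ∀ k n m i : ℕ, K ≤ k → K * k ≤ n → 2 ^ k * n ≤ m → m ≤ 4 ^ k * n →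
    i ≤ n → (k ≤ i → (2 : ℝ) ^ i * (1 - (((i : ℝ) - k) / (2 * (n - k))) ^ k) ^ m ≤
      (2 : ℝ) ^ ((1 - lg n k m / (4 * k)) * n) / (128 * n ^ 2)) ∧
      (i < k → (2 : ℝ) ^ i ≤ (2 : ℝ) ^ ((1 - lg n k m / (4 * k)) * n) / (128 * n ^ 2))

end Pool.Agent.H41.SS
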